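import Pool.Agent.Lib.MP_e22585_pr.Neg

/-!
# Convergence in law of extended nonnegative random variables
-/

set_option autoImplicit false

noncomputable section

open MeasureTheory ProbabilityTheory Filter Set
open scoped ENNReal NNReal Topology BoundedContinuousFunction

namespace Pool.Agent.Lib.MP_e22585_pr

lemma tendsto_of_approx {ι : Type*} {l : Filter ι} {a : ι → ℝ≥0∞} {A : ℝ≥0∞} (hA : A ≠ ∞)
    (h : ∀ δ : ℝ≥0∞, δ ≠ 0 → ∃ (b : ι → ℝ≥0∞) (B : ℝ≥0∞), Tendsto b l (𝓝 B) ∧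
      (∀ᶠ i in l, a i ≤ b i + δ ∧ b i ≤ a i + δ) ∧ A ≤ B + δ ∧ B ≤ A + δ) :
    Tendsto a l (𝓝 A) := by
  refine (ENNReal.tendsto_nhds hA).mpr fun e he => ?_
  have h1 : min e 1 / 3 ≠ 0 := ENNReal.div_ne_zero.mpr ⟨(lt_min he one_pos).ne', by simp⟩
  have h2 : min e 1 / 3 ≠ ∞ :=
    ENNReal.div_ne_top (ne_top_of_le_ne_top ENNReal.one_ne_top (min_le_right _ _)) (by simp)
  have h3 : min e 1 / 3 + min e 1 / 3 + min e 1 / 3 ≤ e :=
    (ENNReal.add_thirds _).trans_le (min_le_left _ _)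
  set δ := min e 1 / 3
  obtain ⟨b, B, hb, hab, hAB, hBA⟩ := h δ h1
  have hB : B ≠ ∞ := ne_top_of_le_ne_top (ENNReal.add_ne_top.mpr ⟨hA, h2⟩) hBA
  filter_upwards [(ENNReal.tendsto_nhds hB).mp hb δ (pos_iff_ne_zero.mpr h1), hab] with i hi hi'
  have h4 := tsub_le_iff_right.mp hi.1
  refine ⟨tsub_le_iff_right.mpr ?_, ?_⟩
  · calc A ≤ a i + δ + δ + δ := hAB.trans (add_le_add (h4.trans (add_le_add hi'.2 le_rfl)) le_rfl)
      _ ≤ a i + e := by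
        rw [add_assoc, add_assoc, ← add_assoc δ]
        exact add_le_add le_rfl h3
  · calc a i ≤ A + δ + δ + δ :=
        hi'.1.trans (add_le_add (hi.2.trans (add_le_add hBA le_rfl)) le_rfl)
      _ ≤ A + e := by
        rw [add_assoc, add_assoc, ← add_assoc δ]
        exact add_le_add le_rfl h3

lemma unif {G : ℝ≥0∞ → ℝ≥0∞} (hG : Continuous G) {B : ℝ≥0∞} (hB : B ≠ ∞) (hGB : ∀ x, G x ≤ B)
    {η : ℝ≥0∞} (hη : η ≠ 0) : ∃ C ≠ ∞, ∀ x y z, x ≤ y + z → y ≤ x + z →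
      G x ≤ G y + (η + C * min z 1) := by
  let S : Set (ℝ≥0∞ × ℝ≥0∞ × ℝ≥0∞) :=
    {p | p.1 ≤ p.2.1 + p.2.2 ∧ p.2.1 ≤ p.1 + p.2.2 ∧ G p.2.1 + η ≤ G p.1}
  have hS : IsClosed S := by
    refine IsClosed.and ?_ (IsClosed.and ?_ ?_) <;> exact isClosed_le (by fun_prop) (by fun_prop)
  have h1 : IsClosed ((fun p => p.2.2) '' S) := (hS.isCompact.image (by fun_prop)).isClosed
  have h2 : (0 : ℝ≥0∞) ∈ ((fun p => p.2.2) '' S)ᶜ := by
    rintro ⟨⟨x, y, z⟩, ⟨h3, h4, h5⟩, rfl : z = 0⟩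
    simp only [add_zero] at h3 h4 h5
    rw [le_antisymm h3 h4] at h5
    exact absurd h5 (not_le.mpr (ENNReal.lt_add_right (ne_top_of_le_ne_top hB (hGB _)) hη))
  obtain ⟨δ, hδ, hsub⟩ := ENNReal.nhds_zero_basis_Iic.mem_iff.mp (h1.isOpen_compl.mem_nhds h2)
  have h0 : min δ 1 ≠ 0 := (lt_min hδ one_pos).ne'
  refine ⟨B / min δ 1, ENNReal.div_ne_top hB h0, fun x y z hx hy => ?_⟩
  rcases le_total z δ with h | h
  · have h3 : ¬G y + η ≤ G x := fun h4 => hsub h ⟨(x, y, z), ⟨hx, hy, h4⟩, rfl⟩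
    exact (not_le.mp h3).le.trans (add_le_add le_rfl le_self_add)
  · refine (hGB x).trans (le_add_left (le_add_left ?_))
    refine le_trans ?_ (mul_le_mul' le_rfl (min_le_min_right 1 h))
    rw [ENNReal.div_mul_cancel h0 (ne_top_of_le_ne_top ENNReal.one_ne_top (min_le_right _ _))]

variable {Ω Ω' : Type*} [MeasurableSpace Ω] [MeasurableSpace Ω'] {P : Measure Ω} {P' : Measure Ω'}

/-- `U` and `V` are close in probability. -/
def Near (P : Measure Ω) (U V : Ω → ℝ≥0∞) (δ : ℝ≥0∞) : Prop :=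
  ∃ Z : Ω → ℝ≥0∞, Measurable Z ∧ ∫⁻ ω, min (Z ω) 1 ∂P ≤ δ ∧
    ∀ ω, U ω ≤ V ω + Z ω ∧ V ω ≤ U ω + Z ω

lemma unif_near {G : ℝ≥0∞ → ℝ≥0∞} (hG : Continuous G) {B : ℝ≥0∞} (hB : B ≠ ∞)
    (hGB : ∀ x, G x ≤ B) {η : ℝ≥0∞} (hη : η ≠ 0) : ∃ δ ≠ 0,
      ∀ {Ω : Type*} [MeasurableSpace Ω] (P : Measure Ω) [IsProbabilityMeasure P]
        (U V : Ω → ℝ≥0∞), Near P U V δ → ∫⁻ ω, G (U ω) ∂P ≤ ∫⁻ ω, G (V ω) ∂P + η ∧
          ∫⁻ ω, G (V ω) ∂P ≤ ∫⁻ ω, G (U ω) ∂P + η := by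
  have h2 : η / 2 ≠ 0 := ENNReal.div_ne_zero.mpr ⟨hη, by simp⟩
  obtain ⟨C, hC, h⟩ := unif hG hB hGB h2
  obtain ⟨δ, hδ, hδC⟩ := ENNReal.exists_nnreal_pos_mul_lt hC h2
  refine ⟨δ, by simpa using hδ.ne', fun P _ U V ⟨Z, hZ, hZ1, hUV⟩ => ?_⟩
  have hm : Measurable fun ω => η / 2 + C * min (Z ω) 1 := by fun_prop
  have h3 : ∫⁻ ω, η / 2 + C * min (Z ω) 1 ∂P ≤ η := by
    rw [lintegral_add_left measurable_const, lintegral_const, measure_univ, mul_one,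
      lintegral_const_mul' _ _ hC]
    refine (add_le_add le_rfl (((mul_le_mul' le_rfl hZ1).trans_eq (mul_comm _ _)).trans
      hδC.le)).trans_eq (ENNReal.add_halves η)
  exact ⟨(lintegral_mono fun ω => h _ _ _ (hUV ω).1 (hUV ω).2).trans
      ((lintegral_add_right _ hm).trans_le (add_le_add le_rfl h3)),
    (lintegral_mono fun ω => h _ _ _ (hUV ω).2 (hUV ω).1).trans
      ((lintegral_add_right _ hm).trans_le (add_le_add le_rfl h3))⟩

/-- Convergence in law in `[0, ∞]`. -/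
def Conv (P : Measure Ω) (P' : Measure Ω') (U : ℝ → Ω → ℝ≥0∞) (W : Ω' → ℝ≥0∞) : Prop :=
  ∀ G : ℝ≥0∞ → ℝ≥0∞, Continuous G → ∀ B ≠ ∞, (∀ x, G x ≤ B) →
    Tendsto (fun ε => ∫⁻ ω, G (U ε ω) ∂P) (𝓝[>] 0) (𝓝 (∫⁻ ω, G (W ω) ∂P'))

variable {U : ℝ → Ω → ℝ≥0∞} {W : Ω' → ℝ≥0∞}

lemma Conv.rpow (h : Conv P P' U W) (q : ℝ) :
    Conv P P' (fun ε ω => U ε ω ^ q) fun ω => W ω ^ q := fun G hG B hB hGB =>
  h (fun x => G (x ^ q)) (hG.comp ENNReal.continuous_rpow_const) B hB fun _ => hGB _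

lemma tendsto_trunc (hW : Measurable W) :
    Tendsto (fun n : ℕ => ∫⁻ ω, min (W ω) n ∂P') atTop (𝓝 (∫⁻ ω, W ω ∂P')) := by
  refine lintegral_tendsto_of_tendsto_of_monotone (fun n => (hW.min measurable_const).aemeasurable)
    (Eventually.of_forall fun ω m n hmn => min_le_min_left _ (Nat.cast_le.mpr hmn))
    (Eventually.of_forall fun ω => ?_)
  simpa using (tendsto_const_nhds (x := W ω)).min ENNReal.tendsto_nat_nhds_top

lemma Conv.trunc (h : Conv P P' U W) (n : ℕ) :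
    Tendsto (fun ε => ∫⁻ ω, min (U ε ω) n ∂P) (𝓝[>] 0) (𝓝 (∫⁻ ω, min (W ω) n ∂P')) :=
  h (fun x => min x n) (by fun_prop) n (by simp) fun _ => min_le_right _ _

lemma Conv.fatou (h : Conv P P' U W) (hW : Measurable W) {A : ℝ≥0∞}
    (hA : ∀ᶠ ε in 𝓝[>] (0 : ℝ), ∫⁻ ω, U ε ω ∂P ≤ A) : ∫⁻ ω, W ω ∂P' ≤ A :=
  le_of_tendsto' (tendsto_trunc hW) fun n => le_of_tendsto (h.trunc n)
    (hA.mono fun _ hε => (lintegral_mono fun _ => min_le_left _ _).trans hε)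

lemma Conv.ui [IsProbabilityMeasure P'] (h : Conv P P' U W) (hW : Measurable W) {r C : ℝ}
    (hr : 1 < r) (hU : ∀ᶠ ε in 𝓝[>] (0 : ℝ), Measurable (U ε) ∧ ∫⁻ ω, U ε ω ^ r ∂P ≤ ex C) :
    ∫⁻ ω, W ω ∂P' ≠ ∞ ∧ Tendsto (fun ε => ∫⁻ ω, U ε ω ∂P) (𝓝[>] 0) (𝓝 (∫⁻ ω, W ω ∂P')) := by
  have h1 : ∀ (x : ℝ≥0∞) (n : ℕ), x ≤ min x n + x ^ r * (n : ℝ≥0∞) ^ (1 - r) := by
    intro x n
    rcases le_total x n with hx | hx
    · rw [min_eq_left hx]
      exact le_self_add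
    refine le_add_left ?_
    rcases eq_or_ne x 0 with rfl | h0
    · exact zero_le
    rcases eq_or_ne x ∞ with rfl | h2
    · rw [ENNReal.top_rpow_of_pos (by linarith), ENNReal.top_mul]
      simp [ENNReal.rpow_eq_zero_iff, hr.le]
    calc x = x ^ r * x ^ (1 - r) := by rw [← ENNReal.rpow_add _ _ h0 h2]; simp
      _ ≤ _ := by
        refine mul_le_mul' le_rfl ?_
        rw [← neg_sub r, ENNReal.rpow_neg, ENNReal.rpow_neg, ENNReal.inv_le_inv]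
        exact ENNReal.rpow_le_rpow hx (by linarith)
  have hfin : ∫⁻ ω, W ω ∂P' ≠ ∞ := by
    have h2 := (h.rpow r).fatou (hW.pow_const r) (hU.mono fun _ hε => hε.2)
    refine ne_top_of_le_ne_top ?_ (lintegral_mono fun ω => (h1 (W ω) 1).trans
      (add_le_add (min_le_right _ _) le_rfl))
    simp only [Nat.cast_one, ENNReal.one_rpow, mul_one]
    rw [lintegral_add_left measurable_const]
    exact ENNReal.add_ne_top.mpr ⟨by simp, ne_top_of_le_ne_top (ex_ne_top _) h2⟩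
  refine ⟨hfin, tendsto_of_approx hfin fun δ hδ => ?_⟩
  have h2 : Tendsto (fun n : ℕ => ex C * (n : ℝ≥0∞) ^ (1 - r)) atTop (𝓝 0) := by
    have h3 := (ENNReal.continuous_rpow_const (y := 1 - r).tendsto _).comp
      ENNReal.tendsto_nat_nhds_top
    rw [ENNReal.top_rpow_of_neg (by linarith)] at h3
    simpa using ENNReal.Tendsto.const_mul h3 (Or.inr (ex_ne_top C))
  have hδ' := pos_iff_ne_zero.mpr hδ
  obtain ⟨n, hn1, hn2⟩ := ((h2.eventually (ge_mem_nhds hδ')).and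
    ((ENNReal.tendsto_nhds hfin).mp (tendsto_trunc hW) δ hδ')).exists
  refine ⟨_, _, h.trunc n, hU.mono fun ε hε => ⟨?_, ?_⟩, tsub_le_iff_right.mp hn2.1, hn2.2⟩
  · refine (lintegral_mono fun ω => h1 _ n).trans ?_
    rw [lintegral_add_left (hε.1.min measurable_const), lintegral_mul_const _ (hε.1.pow_const r)]
    exact add_le_add le_rfl ((mul_le_mul' hε.2 le_rfl).trans hn1)
  · exact (lintegral_mono fun _ => min_le_left _ _).trans le_self_add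

lemma conv_of_distr [IsProbabilityMeasure P] [IsProbabilityMeasure P'] {Y : ℝ → Ω → ℝ}
    {Z : Ω' → ℝ} (h : TendstoInDistribution Y (𝓝[>] 0) Z (fun _ => P) P')
    (hU : ∀ᶠ ε in 𝓝[>] (0 : ℝ), ∀ᵐ ω ∂P, ENNReal.ofReal (Y ε ω) = U ε ω)
    (hW : ∀ᵐ ω ∂P', ENNReal.ofReal (Z ω) = W ω) : Conv P P' U W := by
  intro G hG B hB hGB
  have h1 := h.continuous_comp ENNReal.continuous_ofReal
  have hne : ∀ x, G x ≠ ∞ := fun x => ne_top_of_le_ne_top hB (hGB x)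
  have h2 := ProbabilityMeasure.tendsto_iff_forall_lintegral_tendsto.mp h1.tendsto
    (BoundedContinuousFunction.mkOfCompact ⟨fun x => (G x).toNNReal,
      ENNReal.continuousOn_toNNReal.comp_continuous hG hne⟩)
  simp only [ProbabilityMeasure.coe_mk, BoundedContinuousFunction.mkOfCompact_apply,
    ContinuousMap.coe_mk, ENNReal.coe_toNNReal (hne _)] at h2
  rw [(lintegral_map' hG.measurable.aemeasurable h1.aemeasurable_limit).trans
    (lintegral_congr_ae (hW.mono fun ω hω => congrArg G hω))] at h2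
  refine h2.congr' (hU.mono fun ε hε => ?_)
  exact (lintegral_map' hG.measurable.aemeasurable (h1.forall_aemeasurable ε)).trans
    (lintegral_congr_ae (hε.mono fun ω hω => congrArg G hω))

end Pool.Agent.Lib.MP_e22585_pr
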