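import Mathlib

/-!
Definitions for the centered Gaussian multiplicative chaos on `[0,1]`.
-/

set_option autoImplicit false

open MeasureTheory ProbabilityTheory Filter Set
open scoped Topology BoundedContinuousFunction

namespace Pool.Agent.Lib.MP_e22585_pr

/-- The function `r`: positive and differentiable on `(0,1)`, even, `t (log r)'(t) → 1` as
`t → 0+`, and `r(t) = r(1-t)` in the circle case. -/
structure Admissible (circle : Bool) (r : ℝ → ℝ) : Prop where
  pos : ∀ t ∈ Ioo (0 : ℝ) 1, 0 < r t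
  diff : DifferentiableOn ℝ r (Ioo 0 1)
  even : ∀ t ∈ Ioo (0 : ℝ) 1, r (-t) = r t
  slope : Tendsto (fun t => t * deriv (fun x => Real.log (r x)) t) (𝓝[>] 0) (𝓝 1)
  symm : circle = true → ∀ t ∈ Ioo (0 : ℝ) 1, r t = r (1 - t)

/-- `X` is a jointly measurable version of the regularized field `ω_{μ,ε}` on `[0,1)`, with the
constant `δ` added to the covariance (`δ = 0` is the covariance of the problem file). -/
structure IsCutoffField {Ω : Type*} [MeasurableSpace Ω] (circle : Bool) (μ : ℝ) (r : ℝ → ℝ)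
    (P : Measure Ω) (ε δ : ℝ) (X : ℝ → Ω → ℝ) : Prop where
  gauss : IsGaussianProcess (fun t : Ico (0 : ℝ) 1 => X t) P
  meas : Measurable (Function.uncurry X)
  mean : ∀ t ∈ Ico (0 : ℝ) 1, P[X t] = -(1 / 2) * Var[X t; P]
  far : ∀ s ∈ Ico (0 : ℝ) 1, ∀ t ∈ Ico (0 : ℝ) 1, ε ≤ |s - t| → (circle = true → |s - t| ≤ 1 - ε) →
    cov[X s, X t; P] = -μ * Real.log (r (s - t)) + δ
  near : ∀ s ∈ Ico (0 : ℝ) 1, ∀ t ∈ Ico (0 : ℝ) 1, |s - t| ≤ ε → cov[X s, X t; P] =
    μ * (-Real.log (r ε) + (1 - |s - t| / ε) * (ε * deriv (fun x => Real.log (r x)) ε)) + δ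

/-- `M` is a random finite measure and the limit of `e^{ω_ε(u)} du` on `(0,1)` as `ε → 0+`: the
integral of every bounded continuous function converges in law. -/
structure IsChaos {Ω Ω' : Type*} [MeasurableSpace Ω] [MeasurableSpace Ω'] (P : Measure Ω)
    (P' : Measure Ω') [IsProbabilityMeasure P] [IsProbabilityMeasure P'] (X : ℝ → ℝ → Ω → ℝ)
    (M : Ω' → Measure ℝ) : Prop where
  meas : Measurable M
  fin : ∀ᵐ ω ∂P', IsFiniteMeasure (M ω)
  conv : ∀ f : ℝ →ᵇ ℝ, TendstoInDistribution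
    (fun ε ω => ∫ u in Ioo (0 : ℝ) 1, f u * Real.exp (X ε u ω)) (𝓝[>] 0)
    (fun ω => ∫ u, f u ∂M ω) (fun _ => P) P'

end Pool.Agent.Lib.MP_e22585_pr
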