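import Pool.Agent.Lib.MP_e22585_pr.Kernel

/-!
# A jointly measurable isonormal Gaussian process over a separable Hilbert space
-/

set_option autoImplicit false

noncomputable section

open MeasureTheory ProbabilityTheory Filter Set
open scoped ENNReal NNReal Topology InnerProductSpace

namespace Pool.Agent.Lib.MP_e22585_pr

/-- The law of a sequence of independent standard Gaussian variables. -/
def gs : Measure (ℕ → ℝ) := Measure.infinitePi fun _ => gaussianReal 0 1

instance : IsProbabilityMeasure gs := by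
  unfold gs
  infer_instance

lemma gs_map_eval (i : ℕ) : gs.map (fun ω => ω i) = gaussianReal 0 1 :=
  Measure.infinitePi_map_eval (fun _ : ℕ => gaussianReal 0 1) i

lemma gs_charFun (v : ℝ≥0) (t : ℝ) :
    charFun (gaussianReal 0 v) t = Complex.exp (-(((v : ℝ) * t ^ 2 / 2 : ℝ) : ℂ)) := by
  rw [charFun_gaussianReal]
  congr 1
  push_cast
  ring

lemma gs_indep (c : ℕ → ℝ) : iIndepFun (fun (i : ℕ) (ω : ℕ → ℝ) => c i * ω i) gs :=
  iIndepFun_infinitePi (P := fun _ : ℕ => gaussianReal 0 1) (X := fun i x => c i * x)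
    (fun i => by fun_prop)

lemma gs_map_one (c : ℝ) (i : ℕ) :
    gs.map (fun ω => c * ω i) = gaussianReal 0 (NNReal.mk (c ^ 2) (sq_nonneg _)) := by
  have h1 : (fun ω : ℕ → ℝ => c * ω i) = (fun x => c * x) ∘ fun ω => ω i := rfl
  rw [h1, ← Measure.map_map (by fun_prop) (by fun_prop), gs_map_eval, gaussianReal_map_const_mul]
  simp

lemma gs_map_sum (s : Finset ℕ) (c : ℕ → ℝ) :
    gs.map (fun ω => ∑ i ∈ s, c i * ω i) = gaussianReal 0 (∑ i ∈ s, c i ^ 2).toNNReal := by
  have hmeas : ∀ i, Measurable fun ω : ℕ → ℝ => c i * ω i := fun i => by fun_prop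
  refine Measure.ext_of_charFun ?_
  rw [((gs_indep c).restrict s).charFun_map_fun_finsetSum_eq_prod
    (fun i _ => (hmeas i).aemeasurable)]
  funext t
  rw [Finset.prod_apply, gs_charFun,
    Real.coe_toNNReal _ (Finset.sum_nonneg fun i _ => sq_nonneg _)]
  simp_rw [gs_map_one, gs_charFun]
  rw [← Complex.exp_sum]
  congr 1
  simp only [NNReal.coe_mk]
  push_cast
  rw [Finset.sum_mul, Finset.sum_div, Finset.sum_neg_distrib]

lemma gs_map_of_tendsto {X : ℕ → (ℕ → ℝ) → ℝ} {Y : (ℕ → ℝ) → ℝ} (hX : ∀ n, Measurable (X n))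
    (hY : Measurable Y) {v : ℕ → ℝ} {v0 : ℝ}
    (hlaw : ∀ n, gs.map (X n) = gaussianReal 0 (v n).toNNReal)
    (hv : Tendsto v atTop (𝓝 v0))
    (hlim : ∀ᵐ ω ∂gs, Tendsto (fun n => X n ω) atTop (𝓝 (Y ω))) :
    gs.map Y = gaussianReal 0 v0.toNNReal := by
  refine Measure.ext_of_charFun (funext fun t => ?_)
  have hc : Continuous fun x : ℝ => Complex.exp (t * x * Complex.I) := by fun_prop
  have hZ : ∀ Z : (ℕ → ℝ) → ℝ, Measurable Z →
      charFun (gs.map Z) t = ∫ ω, Complex.exp (t * Z ω * Complex.I) ∂gs := by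
    intro Z hZ
    rw [charFun_apply_real, integral_map hZ.aemeasurable hc.aestronglyMeasurable]
  have h1 : Tendsto (fun n => charFun (gs.map (X n)) t) atTop (𝓝 (charFun (gs.map Y) t)) := by
    simp_rw [fun n => hZ _ (hX n), hZ _ hY]
    refine tendsto_integral_of_dominated_convergence (fun _ => 1)
      (fun n => (hc.measurable.comp (hX n)).aestronglyMeasurable) (integrable_const _)
      (fun n => Eventually.of_forall fun ω => ?_) ?_
    · rw [← Complex.ofReal_mul, Complex.norm_exp_ofReal_mul_I]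
    · filter_upwards [hlim] with ω hω
      exact (hc.tendsto _).comp hω
  have h2 : Tendsto (fun n => charFun (gs.map (X n)) t) atTop
      (𝓝 (charFun (gaussianReal 0 v0.toNNReal) t)) := by
    simp_rw [hlaw, gs_charFun]
    have hc2 : Continuous fun u : ℝ =>
        Complex.exp (-((((u.toNNReal : ℝ≥0) : ℝ) * t ^ 2 / 2 : ℝ) : ℂ)) := by
      have : Continuous fun u : ℝ => ((u.toNNReal : ℝ≥0) : ℝ) :=
        NNReal.continuous_coe.comp continuous_real_toNNReal
      fun_prop
    exact (hc2.tendsto _).comp hv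
  exact tendsto_nhds_unique h1 h2

lemma gs_ae_tendsto (c : ℕ → ℝ) (hc : Summable fun k => c k ^ 2) :
    ∀ᵐ ω ∂gs, ∃ l, Tendsto (fun n => ∑ k ∈ Finset.range n, c k * ω k) atTop (𝓝 l) := by
  have hm : ∀ i, Measurable fun ω : ℕ → ℝ => c i * ω i := fun i => by fun_prop
  have hs : ∀ i, StronglyMeasurable fun ω : ℕ → ℝ => c i * ω i := fun i =>
    (hm i).stronglyMeasurable
  have hS : ∀ n, Measurable fun ω : ℕ → ℝ => ∑ k ∈ Finset.range n, c k * ω k := fun n =>
    Finset.measurable_sum _ fun i _ => hm i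
  have hL : ∀ n, MemLp (fun ω : ℕ → ℝ => ∑ k ∈ Finset.range n, c k * ω k) 2 gs := fun n => by
    have h1 := memLp_id_gaussianReal' (μ := 0) (v := (∑ i ∈ Finset.range n, c i ^ 2).toNNReal) 2
      ENNReal.ofNat_ne_top
    rw [← gs_map_sum] at h1
    exact (memLp_map_measure_iff aestronglyMeasurable_id (hS n).aemeasurable).mp h1
  have hM : Martingale (fun n (ω : ℕ → ℝ) => ∑ k ∈ Finset.range (n + 1), c k * ω k)
      (Filtration.natural _ hs) gs := by
    refine martingale_of_condExp_sub_eq_zero_nat (fun n => ?_)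
      (fun n => (hL _).integrable one_le_two) fun n => ?_
    · refine Finset.stronglyMeasurable_fun_sum _ fun i hi => ?_
      exact (Filtration.stronglyAdapted_natural hs i).mono
        ((Filtration.natural _ hs).mono (Nat.lt_succ_iff.mp (Finset.mem_range.mp hi)))
    · have h1 : ((fun ω : ℕ → ℝ => ∑ k ∈ Finset.range (n + 1 + 1), c k * ω k) -
          fun ω : ℕ → ℝ => ∑ k ∈ Finset.range (n + 1), c k * ω k) =
          fun ω => c (n + 1) * ω (n + 1) := by
        funext ω
        simp [Finset.sum_range_succ _ (n + 1)]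
      rw [h1]
      refine ((gs_indep c).condExp_natural_ae_eq_of_lt hs (Nat.lt_succ_self n)).trans
        (Eventually.of_forall fun ω => ?_)
      have h2 := integral_map (μ := gs) (hm (n + 1)).aemeasurable (f := fun x : ℝ => x)
        measurable_id.aestronglyMeasurable
      rw [gs_map_one, integral_id_gaussianReal] at h2
      exact h2.symm
  have hB : ∀ n, eLpNorm (fun ω : ℕ → ℝ => ∑ k ∈ Finset.range (n + 1), c k * ω k) 1 gs ≤
      ((1 + ∑' k, c k ^ 2).toNNReal : ℝ≥0) := fun n => by
    have h1 := variance_id_map (μ := gs) (hS (n + 1)).aemeasurable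
    have h2 := integral_map (μ := gs) (hS (n + 1)).aemeasurable (f := fun x : ℝ => x)
      measurable_id.aestronglyMeasurable
    rw [gs_map_sum, integral_id_gaussianReal] at h2
    rw [gs_map_sum, variance_id_gaussianReal, variance_eq_sub (hL _), ← h2,
      Real.coe_toNNReal _ (Finset.sum_nonneg fun i _ => sq_nonneg _)] at h1
    rw [eLpNorm_one_eq_lintegral_enorm,
      ← ofReal_integral_norm_eq_lintegral_enorm ((hL _).integrable one_le_two)]
    refine ENNReal.ofReal_le_ofReal ?_
    have h3 := hc.sum_le_tsum (Finset.range (n + 1)) fun i _ => sq_nonneg _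
    have h4 : ∫ ω, ‖∑ k ∈ Finset.range (n + 1), c k * ω k‖ ∂gs ≤
        ∫ ω, (1 + (∑ k ∈ Finset.range (n + 1), c k * ω k) ^ 2) ∂gs := by
      refine integral_mono ((hL _).integrable one_le_two).norm
        ((integrable_const _).add (hL _).integrable_sq) fun ω => ?_
      simp only [Real.norm_eq_abs]
      nlinarith [sq_abs (∑ k ∈ Finset.range (n + 1), c k * ω k),
        sq_nonneg (|∑ k ∈ Finset.range (n + 1), c k * ω k| - 1),
        abs_nonneg (∑ k ∈ Finset.range (n + 1), c k * ω k)]
    rw [integral_add (integrable_const _) (hL _).integrable_sq] at h4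
    simp only [integral_const, probReal_univ, smul_eq_mul, mul_one] at h4
    simp only [Pi.pow_apply] at h1
    linarith
  filter_upwards [hM.submartingale.exists_ae_tendsto_of_bdd hB] with ω ⟨l, hl⟩
  exact ⟨l, (tendsto_add_atTop_iff_nat 1).mp hl⟩

lemma exists_coords (H : Type) [NormedAddCommGroup H] [InnerProductSpace ℝ H] [CompleteSpace H]
    [SecondCountableTopology H] :
    ∃ a : ℕ → H →L[ℝ] ℝ, ∀ x : H, HasSum (fun k => a k x ^ 2) (‖x‖ ^ 2) := by
  obtain ⟨w, b, -⟩ := exists_hilbertBasis ℝ H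
  have hw : Countable w := by
    refine Pairwise.countable_of_isOpen_disjoint (s := fun i : w => Metric.ball (b i) (1 / 2))
      (fun i j hij => ?_) (fun i => Metric.isOpen_ball) fun i => ⟨b i, by simp⟩
    refine Metric.ball_disjoint_ball ?_
    have h1 := norm_sub_sq_real (b i) (b j)
    rw [b.orthonormal.inner_eq_zero hij, b.orthonormal.norm_eq_one, b.orthonormal.norm_eq_one] at h1
    rw [dist_eq_norm]
    nlinarith [norm_nonneg (b i - b j)]
  obtain ⟨e, he⟩ := Countable.exists_injective_nat w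
  refine ⟨Function.extend e (fun i => innerSL ℝ (b i)) 0, fun x => ?_⟩
  have h1 := b.hasSum_inner_mul_inner x x
  rw [real_inner_self_eq_norm_sq, ← hasSum_extend_zero he] at h1
  refine (congrArg (HasSum · _) (funext fun k => ?_)).mpr h1
  by_cases hk : ∃ i, e i = k
  · obtain ⟨i, rfl⟩ := hk
    rw [he.extend_apply, he.extend_apply, innerSL_apply_apply, real_inner_comm (b i) x, sq]
  · rw [Function.extend_apply' _ _ _ hk, Function.extend_apply' _ _ _ hk]
    simp

/-- The isonormal process. -/
theorem exists_iso (H : Type) [NormedAddCommGroup H] [InnerProductSpace ℝ H] [CompleteSpace H]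
    [SecondCountableTopology H] [MeasurableSpace H] [BorelSpace H] :
    ∃ W : H → (ℕ → ℝ) → ℝ, Measurable (Function.uncurry W) ∧ IsGaussianProcess W gs ∧
      (∀ x, gs[W x] = 0) ∧ ∀ x y, cov[W x, W y; gs] = ⟪x, y⟫_ℝ := by
  classical
  obtain ⟨a, ha⟩ := exists_coords H
  obtain ⟨W, hWd⟩ : ∃ W : H → (ℕ → ℝ) → ℝ, ∀ x ω,
      W x ω = limsup (fun n => ∑ k ∈ Finset.range n, a k x * ω k) atTop := ⟨_, fun _ _ => rfl⟩
  have hW : Measurable (Function.uncurry W) := by
    have h0 : Function.uncurry W = fun z : H × (ℕ → ℝ) =>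
        limsup (fun n => ∑ k ∈ Finset.range n, a k z.1 * z.2 k) atTop :=
      funext fun z => hWd z.1 z.2
    rw [h0]
    refine Measurable.limsup fun n => Finset.measurable_sum _ fun k _ => ?_
    exact ((a k).continuous.measurable.comp measurable_fst).mul
      ((measurable_pi_apply k).comp measurable_snd)
  have hW1 : ∀ x, Measurable (W x) := fun x => hW.comp (measurable_const.prodMk measurable_id)
  have hlim : ∀ x, ∀ᵐ ω ∂gs, Tendsto (fun n => ∑ k ∈ Finset.range n, a k x * ω k) atTop
      (𝓝 (W x ω)) := fun x => by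
    filter_upwards [gs_ae_tendsto _ (ha x).summable] with ω ⟨l, hl⟩
    rwa [hWd, hl.limsup_eq]
  have hlaw : ∀ {J : Type} [Fintype J] (c : J → ℝ) (x : J → H),
      gs.map (fun ω => ∑ j, c j * W (x j) ω) = gaussianReal 0 (‖∑ j, c j • x j‖ ^ 2).toNNReal := by
    intro J _ c x
    refine gs_map_of_tendsto (X := fun n ω => ∑ k ∈ Finset.range n, a k (∑ j, c j • x j) * ω k)
      (fun n => by fun_prop) (Finset.measurable_sum _ fun j _ => (hW1 _).const_mul _)
      (fun n => gs_map_sum _ _) (ha _).tendsto_sum_nat ?_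
    filter_upwards [ae_all_iff.mpr fun j => hlim (x j)] with ω hω
    refine (tendsto_finsetSum _ fun j _ => (hω j).const_mul (c j)).congr fun n => ?_
    simp only [map_sum, map_smul, smul_eq_mul, Finset.mul_sum, Finset.sum_mul, mul_assoc]
    exact Finset.sum_comm
  have hG : IsGaussianProcess W gs := by
    refine ⟨fun I => ⟨isGaussian_of_map_eq_gaussianReal fun L => ?_⟩⟩
    have hm : Measurable fun ω : ℕ → ℝ => I.restrict fun x => W x ω :=
      measurable_pi_lambda _ fun x => hW1 x
    refine ⟨0, _, Eq.trans ?_ (hlaw (J := I) (fun j => L fun l => if j = l then 1 else 0)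
      fun j => j.1)⟩
    rw [Measure.map_map L.continuous.measurable hm]
    congr 1
    funext ω
    have h2 := (L : (I → ℝ) →ₗ[ℝ] ℝ).pi_apply_eq_sum_univ (I.restrict fun x => W x ω)
    simp only [Function.comp]
    refine h2.trans (Finset.sum_congr rfl fun j _ => ?_)
    simp only [smul_eq_mul, mul_comm]
    rfl
  have h1 : ∀ x, gs.map (W x) = gaussianReal 0 (‖x‖ ^ 2).toNNReal := fun x => by
    simpa using hlaw (J := Unit) (fun _ => 1) fun _ => x
  have hv : ∀ x, Var[W x; gs] = ‖x‖ ^ 2 := fun x => by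
    rw [← variance_id_map (hW1 x).aemeasurable, h1, variance_id_gaussianReal,
      Real.coe_toNNReal _ (sq_nonneg _)]
  refine ⟨W, hW, hG, fun x => ?_, fun x y => ?_⟩
  · have h := integral_map (μ := gs) (hW1 x).aemeasurable (f := fun x : ℝ => x)
      measurable_id.aestronglyMeasurable
    rw [← h, h1, integral_id_gaussianReal]
  · have h := hlaw (J := Fin 2) (fun _ => 1) ![x, y]
    simp only [Fin.sum_univ_two, one_mul, one_smul, Matrix.cons_val_zero, Matrix.cons_val_one] at h
    have hm : Measurable fun ω => W x ω + W y ω := (hW1 x).add (hW1 y)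
    have h2 : Var[fun ω => W x ω + W y ω; gs] = ‖x + y‖ ^ 2 := by
      rw [← variance_id_map hm.aemeasurable, h, variance_id_gaussianReal,
        Real.coe_toNNReal _ (sq_nonneg _)]
    rw [variance_fun_add (hG.hasGaussianLaw_eval x).memLp_two
      (hG.hasGaussianLaw_eval y).memLp_two, hv, hv, norm_add_sq_real] at h2
    linarith

end Pool.Agent.Lib.MP_e22585_pr
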