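import Pool.Agent.Lib.MP_e22585_pr.ExA

/-!
# The cone construction of the cutoff fields for `r(t) = |t|`
-/

set_option autoImplicit false

noncomputable section

open MeasureTheory ProbabilityTheory Filter Set
open scoped ENNReal NNReal Topology InnerProductSpace

namespace Pool.Agent.Lib.MP_e22585_pr

/-- The truncated cone above `t`. -/
def cone (ε t : ℝ) : Set (ℝ × ℝ) := {z | z.1 ∈ Ioc 0 ε⁻¹ ∧ z.2 ∈ Icc t (t + min z.1⁻¹ 1)}

/-- The cutoff logarithm. -/
def kk (ε d : ℝ) : ℝ := if ε ≤ d then -Real.log d else -Real.log ε + (1 - d / ε)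

lemma measurableSet_cone (ε t : ℝ) : MeasurableSet (cone ε t) := by
  refine (measurable_fst measurableSet_Ioc).inter ((measurableSet_le measurable_const
    measurable_snd).inter (measurableSet_le measurable_snd ?_))
  fun_prop

lemma vol_cone_inter {ε ε' : ℝ} (hε' : 0 < ε') (h : ε' ≤ ε) (s t : ℝ) :
    volume (cone ε s ∩ cone ε' t) =
      ∫⁻ y in Ioc 0 ε⁻¹, ENNReal.ofReal (min y⁻¹ 1 - |s - t|) := by
  rw [Measure.volume_eq_prod, Measure.prod_apply
    ((measurableSet_cone _ _).inter (measurableSet_cone _ _)),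
    ← lintegral_indicator measurableSet_Ioc]
  refine lintegral_congr fun y => ?_
  by_cases hy : y ∈ Ioc 0 ε⁻¹
  · have hy' : y ∈ Ioc 0 ε'⁻¹ := ⟨hy.1, hy.2.trans (inv_anti₀ hε' h)⟩
    have h1 : Prod.mk y ⁻¹' (cone ε s ∩ cone ε' t) =
        Icc s (s + min y⁻¹ 1) ∩ Icc t (t + min y⁻¹ 1) := by
      ext x
      simp only [cone, mem_preimage, mem_inter_iff, mem_ofPred_eq, hy, hy', true_and]
    rw [h1, indicator_of_mem hy, Icc_inter_Icc, Real.volume_Icc]
    congr 1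
    rcases le_total s t with hst | hst
    · rw [sup_of_le_right hst, inf_of_le_left (by linarith), abs_of_nonpos (by linarith)]
      ring
    · rw [sup_of_le_left hst, inf_of_le_right (by linarith), abs_of_nonneg (by linarith)]
      ring
  · have h1 : Prod.mk y ⁻¹' (cone ε s ∩ cone ε' t) = ∅ :=
      eq_empty_of_forall_notMem fun x hx => hy hx.1.1
    rw [h1, indicator_of_notMem hy, measure_empty]

lemma int_cone {ε d : ℝ} (hε : 0 < ε) (hε1 : ε ≤ 1) (hd1 : d ≤ 1) :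
    ∫⁻ y in Ioc 0 ε⁻¹, ENNReal.ofReal (min y⁻¹ 1 - d) = ENNReal.ofReal (kk ε d) ∧ 0 ≤ kk ε d := by
  set m := (max ε d)⁻¹ with hm
  have h0 : 0 < max ε d := lt_max_of_lt_left hε
  have hm1 : 1 ≤ m := (one_le_inv₀ h0).mpr (max_le hε1 hd1)
  have hm2 : m ≤ ε⁻¹ := inv_anti₀ hε (le_max_left _ _)
  have h1 : ∫⁻ y in Ioc (0 : ℝ) 1, ENNReal.ofReal (min y⁻¹ 1 - d) = ENNReal.ofReal (1 - d) := by
    rw [setLIntegral_congr_fun measurableSet_Ioc (g := fun _ => ENNReal.ofReal (1 - d))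
      fun y hy => by simp only [min_eq_right ((one_le_inv₀ hy.1).mpr hy.2)]]
    simp
  have h4 : ∀ y ∈ Ioc 1 m, 0 ≤ y⁻¹ - d := fun y hy => by
    have h5 := inv_anti₀ (one_pos.trans hy.1) hy.2
    rw [hm, inv_inv] at h5
    linarith [le_max_right ε d]
  have h5 : IntervalIntegrable (fun y : ℝ => y⁻¹) volume 1 m :=
    intervalIntegral.intervalIntegrable_inv (fun y hy => by
      rw [uIcc_of_le hm1] at hy
      linarith [hy.1]) continuousOn_id
  have h6 : ∫ y in Ioc 1 m, (y⁻¹ - d) = Real.log m - d * (m - 1) := by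
    rw [← intervalIntegral.integral_of_le hm1, intervalIntegral.integral_sub h5 (by simp),
      integral_inv_of_pos one_pos (by linarith)]
    simp [mul_comm]
  have h7 : 0 ≤ Real.log m - d * (m - 1) := h6 ▸ setIntegral_nonneg measurableSet_Ioc h4
  have h2 : ∫⁻ y in Ioc 1 m, ENNReal.ofReal (min y⁻¹ 1 - d) =
      ENNReal.ofReal (Real.log m - d * (m - 1)) := by
    rw [setLIntegral_congr_fun measurableSet_Ioc (g := fun y => ENNReal.ofReal (y⁻¹ - d))
      fun y hy => by simp only [min_eq_left (inv_le_one_of_one_le₀ hy.1.le)],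
      ← ofReal_integral_eq_lintegral_ofReal (h5.sub (by simp)).1
        ((ae_restrict_mem measurableSet_Ioc).mono h4), h6]
  have h3 : ∫⁻ y in Ioc m ε⁻¹, ENNReal.ofReal (min y⁻¹ 1 - d) = 0 := by
    rw [setLIntegral_congr_fun measurableSet_Ioc (g := fun _ => 0) fun y hy => ?_]
    · simp
    · rcases le_total d ε with h | h
      · rw [hm, max_eq_left h] at hy
        exact absurd hy.2 hy.1.not_ge
      · have h8 := inv_anti₀ (by linarith) hy.1.le
        rw [hm, inv_inv, max_eq_right h] at h8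
        exact ENNReal.ofReal_of_nonpos (by linarith [min_le_left y⁻¹ 1])
  have h8 : kk ε d = 1 - d + (Real.log m - d * (m - 1)) := by
    unfold kk
    split_ifs with h
    · rw [hm, max_eq_right h, Real.log_inv, mul_sub, mul_inv_cancel₀ (by linarith)]
      ring
    · rw [hm, max_eq_left (le_of_not_ge h), Real.log_inv, div_eq_mul_inv]
      ring
  refine ⟨?_, by linarith⟩
  rw [← Ioc_union_Ioc_eq_Ioc zero_le_one (hm1.trans hm2), ← Ioc_union_Ioc_eq_Ioc hm1 hm2,
    lintegral_union (measurableSet_Ioc.union measurableSet_Ioc)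
      (by rw [Ioc_union_Ioc_eq_Ioc hm1 hm2]; exact Ioc_disjoint_Ioc_of_le le_rfl),
    lintegral_union measurableSet_Ioc (Ioc_disjoint_Ioc_of_le le_rfl), h1, h2, h3, add_zero,
    ← ENNReal.ofReal_add (by linarith) h7, h8]

lemma vol_cone_ne_top (ε t : ℝ) : volume (cone ε t) ≠ ∞ := by
  refine ne_top_of_le_ne_top (b := volume (Ioc 0 ε⁻¹ ×ˢ Icc t (t + 1))) ?_
    (measure_mono fun z hz => ⟨hz.1, hz.2.1, hz.2.2.trans (by linarith [min_le_right z.1⁻¹ 1])⟩)
  rw [Measure.volume_eq_prod, Measure.prod_prod]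
  exact ENNReal.mul_ne_top (by simp) (by simp)

/-- The indicator of the cone as an element of `L²`. -/
def vec (ε t : ℝ) : Lp ℝ 2 (volume : Measure (ℝ × ℝ)) :=
  indicatorConstLp 2 (measurableSet_cone ε t) (vol_cone_ne_top ε t) 1

lemma inner_vec {ε ε' s t : ℝ} (hε' : 0 < ε') (h : ε' ≤ ε) (hε1 : ε ≤ 1) (hd : |s - t| ≤ 1) :
    ⟪vec ε s, vec ε' t⟫_ℝ = kk ε |s - t| := by
  have h1 := int_cone (hε'.trans_le h) hε1 hd
  rw [vec, vec, L2.real_inner_indicatorConstLp_one_indicatorConstLp_one _ _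
    (vol_cone_ne_top _ _) (vol_cone_ne_top _ _), Measure.real,
    vol_cone_inter hε' h, h1.1, ENNReal.toReal_ofReal h1.2]

lemma kk_near {ε d : ℝ} (hε : 0 < ε) (hd : d ≤ ε) : kk ε d = -Real.log ε + (1 - d / ε) := by
  unfold kk
  split_ifs with h
  · rw [le_antisymm hd h, div_self hε.ne']
    ring
  · rfl

lemma continuous_vec {ε : ℝ} (hε : 0 < ε) (hε1 : ε ≤ 1) : Continuous (vec ε) := by
  refine continuous_iff_continuousAt.mpr fun t => tendsto_iff_norm_sub_tendsto_zero.mpr ?_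
  have h1 : Tendsto (fun s : ℝ => √(2 * (|s - t| / ε))) (𝓝 t) (𝓝 0) := by
    have h2 : Continuous fun s : ℝ => √(2 * (|s - t| / ε)) := by fun_prop
    simpa using h2.tendsto t
  refine h1.congr' ?_
  filter_upwards [Metric.closedBall_mem_nhds t hε] with s hs
  rw [Metric.mem_closedBall, Real.dist_eq] at hs
  have h3 : ∀ u, ‖vec ε u‖ ^ 2 = -Real.log ε + 1 := fun u => by
    rw [← real_inner_self_eq_norm_sq, inner_vec hε le_rfl hε1 (by simp), sub_self, abs_zero,
      kk_near hε hε.le]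
    ring
  rw [← Real.sqrt_sq (norm_nonneg (vec ε s - vec ε t)), norm_sub_sq_real, h3, h3,
    inner_vec hε le_rfl hε1 (hs.trans hε1), kk_near hε hs]
  congr 1
  ring

/-- A family of centered Gaussian fields with nested covariances. -/
theorem exists_nested (μ : ℝ) (hμ : 0 ≤ μ) :
    ∃ Y : ℝ × ℝ → (ℕ → ℝ) → ℝ, IsGaussianProcess Y gs ∧ (∀ z, gs[Y z] = 0) ∧
      (∀ ε ∈ Ioc (0 : ℝ) 1, Measurable (Function.uncurry fun t => Y (ε, t))) ∧
      ∀ ε ∈ Ioc (0 : ℝ) 1, ∀ ε' ∈ Ioc (0 : ℝ) ε, ∀ s ∈ Ico (0 : ℝ) 1, ∀ t ∈ Ico (0 : ℝ) 1,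
        cov[Y (ε, s), Y (ε', t); gs] = μ * kk ε |s - t| := by
  have : Fact ((2 : ℝ≥0∞) ≠ ∞) := ⟨ENNReal.ofNat_ne_top⟩
  borelize ↥(Lp ℝ 2 (volume : Measure (ℝ × ℝ)))
  obtain ⟨W, hW, hG, h0, hc⟩ := exists_iso (Lp ℝ 2 (volume : Measure (ℝ × ℝ)))
  refine ⟨W ∘ fun z => √μ • vec z.1 z.2, hG.comp_right _, fun z => h0 _, fun ε hε => ?_,
    fun ε hε ε' hε' s hs t ht => ?_⟩
  · exact hW.comp ((((continuous_vec hε.1 hε.2).const_smul (√μ)).measurable.comp
      measurable_fst).prodMk measurable_snd)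
  · simp only [Function.comp]
    rw [hc, real_inner_smul_left, real_inner_smul_right,
      inner_vec hε'.1 hε'.2 hε.2 (abs_lt_one' hs ht).le, ← mul_assoc, Real.mul_self_sqrt hμ]

end Pool.Agent.Lib.MP_e22585_pr
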