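import Pool.Agent.Lib.MP_e22585_pr.ExB

/-!
# Nested fields: the regularized masses are Cauchy in probability
-/

set_option autoImplicit false

noncomputable section

open MeasureTheory ProbabilityTheory Filter Set
open scoped ENNReal NNReal Topology

namespace Pool.Agent.Lib.MP_e22585_pr

variable {Ω : Type*} [MeasurableSpace Ω] {P : Measure Ω}

/-- A jointly Gaussian family of fields whose increments in the cutoff are uncorrelated with the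
coarser field. -/
structure Nest (P : Measure Ω) (X : ℝ → ℝ → Ω → ℝ) (K : ℝ → ℝ → ℝ → ℝ) (v : ℝ → ℝ) : Prop where
  gauss : IsGaussianProcess (fun z : ℝ × ℝ => X z.1 z.2) P
  meas : ∀ ε, Measurable (Function.uncurry (X ε))
  fld : ∀ ε ∈ Ioc (0 : ℝ) 1, Fld P (X ε) (K ε) (v ε)
  cross : ∀ ε ∈ Ioc (0 : ℝ) 1, ∀ ε' ∈ Ioc (0 : ℝ) ε, ∀ s ∈ Ico (0 : ℝ) 1, ∀ t ∈ Ico (0 : ℝ) 1,
    cov[X ε s, X ε' t; P] = K ε s t

/-- A chart of `[0, ∞]`. -/
def uu (x : ℝ≥0∞) : ℝ := ((1 + x)⁻¹).toReal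

/-- The squared distance in the chart. -/
def dsq (x y : ℝ≥0∞) : ℝ≥0∞ := ENNReal.ofReal ((uu x - uu y) ^ 2)

lemma inv_add_ne_top (x : ℝ≥0∞) : (1 + x)⁻¹ ≠ ∞ := by simp

lemma continuous_uu : Continuous uu :=
  ENNReal.continuousOn_toReal.comp_continuous (f := fun x : ℝ≥0∞ => (1 + x)⁻¹)
    (by fun_prop) inv_add_ne_top

lemma tendsto_of_uu {ι : Type*} {l : Filter ι} {x : ι → ℝ≥0∞} {c : ℝ}
    (h : Tendsto (fun i => uu (x i)) l (𝓝 c)) : Tendsto x l (𝓝 ((ENNReal.ofReal c)⁻¹ - 1)) := by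
  have h1 : Continuous fun c : ℝ => (ENNReal.ofReal c)⁻¹ - 1 :=
    (ENNReal.continuous_sub_right 1).comp ENNReal.continuous_ofReal.inv
  refine ((h1.tendsto c).comp h).congr fun i => ?_
  simp only [Function.comp, uu]
  rw [ENNReal.ofReal_toReal (inv_add_ne_top _), inv_inv, ENNReal.add_sub_cancel_left
    ENNReal.one_ne_top]

lemma tendsto_of_dsq {ι : Type*} {l : Filter ι} {x : ι → ℝ≥0∞} {z : ℝ≥0∞}
    (h : Tendsto (fun i => dsq z (x i)) l (𝓝 0)) : Tendsto x l (𝓝 z) := by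
  have h1 := (Real.continuous_sqrt.tendsto _).comp
    ((ENNReal.tendsto_toReal ENNReal.zero_ne_top).comp h)
  have h2 : Tendsto (fun i => uu (x i)) l (𝓝 (uu z)) := by
    rw [tendsto_iff_norm_sub_tendsto_zero]
    rw [ENNReal.toReal_zero, Real.sqrt_zero] at h1
    refine h1.congr fun i => ?_
    simp only [Function.comp, dsq]
    rw [ENNReal.toReal_ofReal (sq_nonneg _), Real.sqrt_sq_eq_abs, abs_sub_comm, Real.norm_eq_abs]
  have h3 := tendsto_of_uu h2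
  rwa [uu, ENNReal.ofReal_toReal (inv_add_ne_top _), inv_inv, ENNReal.add_sub_cancel_left
    ENNReal.one_ne_top] at h3

lemma bregman {x y : ℝ≥0∞} (hx : x ≠ ∞) (hy : y ≠ ∞) :
    dsq y x + (1 + x)⁻¹ + (1 + x)⁻¹ ^ 2 * x ≤ (1 + y)⁻¹ + (1 + x)⁻¹ ^ 2 * y := by
  have h1 : ∀ a : ℝ, 0 ≤ a → (1 + ENNReal.ofReal a)⁻¹ = ENNReal.ofReal (1 + a)⁻¹ := fun a ha => by
    rw [ENNReal.ofReal_inv_of_pos (by linarith), ENNReal.ofReal_add zero_le_one ha,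
      ENNReal.ofReal_one]
  obtain ⟨a, ha, rfl⟩ : ∃ a : ℝ, 0 ≤ a ∧ x = ENNReal.ofReal a :=
    ⟨_, ENNReal.toReal_nonneg, (ENNReal.ofReal_toReal hx).symm⟩
  obtain ⟨c, hc, rfl⟩ : ∃ a : ℝ, 0 ≤ a ∧ y = ENNReal.ofReal a :=
    ⟨_, ENNReal.toReal_nonneg, (ENNReal.ofReal_toReal hy).symm⟩
  have h2 : 0 < (1 + a)⁻¹ := by positivity
  have h3 : 0 < (1 + c)⁻¹ := by positivity
  simp only [dsq, uu, h1 a ha, h1 c hc, ENNReal.toReal_ofReal h2.le, ENNReal.toReal_ofReal h3.le]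
  rw [← ENNReal.ofReal_pow h2.le, ← ENNReal.ofReal_mul (by positivity),
    ← ENNReal.ofReal_mul (by positivity), ← ENNReal.ofReal_add (by positivity) h2.le,
    ← ENNReal.ofReal_add (by positivity) (by positivity),
    ← ENNReal.ofReal_add (by positivity) (by positivity)]
  refine ENNReal.ofReal_le_ofReal (sub_nonneg.mp ?_)
  have h4 : (1 + c)⁻¹ + (1 + a)⁻¹ ^ 2 * c - (((1 + c)⁻¹ - (1 + a)⁻¹) ^ 2 + (1 + a)⁻¹ +
      (1 + a)⁻¹ ^ 2 * a) = c * ((c - a) * (1 + a)⁻¹ * (1 + c)⁻¹) ^ 2 := by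
    field_simp
    ring
  rw [h4]
  positivity

namespace Nest

variable {X : ℝ → ℝ → Ω → ℝ} {K : ℝ → ℝ → ℝ → ℝ} {v : ℝ → ℝ} {ε ε' : ℝ}

lemma indep (h : Nest P X K v) (hε : ε ∈ Ioc (0 : ℝ) 1) (hε' : ε' ∈ Ioc (0 : ℝ) ε) {t : ℝ}
    (ht : t ∈ Ico (0 : ℝ) 1) {J : Type} {s : J → ℝ} (hs : ∀ j, s j ∈ Ico (0 : ℝ) 1) :
    IndepFun (fun ω j => X ε (s j) ω) (fun ω (_ : Unit) => X ε' t ω - X ε t ω) P := by
  classical
  have hL : ∀ a c, MemLp (X a c) 2 P := fun a c => (h.gauss.hasGaussianLaw_eval (a, c)).memLp_two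
  have := h.gauss.isProbabilityMeasure
  refine IsGaussianProcess.indepFun_of_covariance_eq_zero (X := fun j => X ε (s j))
    (Y := fun (_ : Unit) ω => X ε' t ω - X ε t ω) (h.gauss.of_isGaussianProcess ?_)
    (fun j => (hL _ _).1.aemeasurable) (fun _ => ((hL _ _).sub (hL _ _)).1.aemeasurable)
    fun j _ => ?_
  · rintro (j | _)
    · exact ⟨{(ε, s j)}, ContinuousLinearMap.proj ⟨(ε, s j), by simp⟩, fun ω => rfl⟩
    · exact ⟨{(ε', t), (ε, t)}, ContinuousLinearMap.proj (R := ℝ) ⟨(ε', t), by simp⟩ -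
        ContinuousLinearMap.proj (R := ℝ) ⟨(ε, t), by simp⟩, fun ω => rfl⟩
  · rw [covariance_fun_sub_right (hL _ _) (hL _ _) (hL _ _), h.cross ε hε ε' hε' _ (hs j) t ht,
      (h.fld ε hε).cov _ (hs j) t ht, sub_self]

lemma orth (h : Nest P X K v) (hε : ε ∈ Ioc (0 : ℝ) 1) (hε' : ε' ∈ Ioc (0 : ℝ) ε) {t : ℝ}
    (ht : t ∈ Ico (0 : ℝ) 1) {f : ℝ → ℝ≥0∞} (hf : Measurable f) (hfin : ∫⁻ u, f u ∂nu ≠ ∞)
    {Ψ : ℝ≥0∞ → ℝ≥0∞} (hΨ : Measurable Ψ) :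
    ∫⁻ ω, Ψ (mass (X ε) f ω) * ex (X ε' t ω) ∂P = ∫⁻ ω, Ψ (mass (X ε) f ω) * ex (X ε t ω) ∂P := by
  have hF := h.fld ε hε
  have hF' := h.fld ε' ⟨hε'.1, hε'.2.trans hε.2⟩
  obtain ⟨u, hu0, hu1⟩ := (ae_nus.and (hF.sample_mass hf hfin)).exists
  have hI := h.indep hε hε' ht (J := Option ℕ) (s := fun o => o.elim t u)
    fun o => by cases o; exacts [ht, hu0 _]
  have hA : Measurable fun ω (o : Option ℕ) => X ε (o.elim t u) ω :=
    measurable_pi_lambda _ fun o => hF.measX _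
  have hD : Measurable fun ω => ex (X ε' t ω - X ε t ω) :=
    measurable_ex.comp ((hF'.measX t).sub (hF.measX t))
  have key : ∀ G : (Option ℕ → ℝ) → ℝ≥0∞, Measurable G →
      ∫⁻ ω, G (fun o => X ε (o.elim t u) ω) * ex (X ε' t ω) ∂P =
        (∫⁻ ω, G (fun o => X ε (o.elim t u) ω) * ex (X ε t ω) ∂P) *
          ∫⁻ ω, ex (X ε' t ω - X ε t ω) ∂P := fun G hG => by
    have hG' : Measurable fun a : Option ℕ → ℝ => G a * ex (a none) := by fun_prop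
    have h1 := lintegral_mul_eq_lintegral_mul_lintegral_of_indepFun (hG'.comp hA) hD
      (hI.comp hG' (ψ := fun d : Unit → ℝ => ex (d ())) (by fun_prop))
    refine Eq.trans (lintegral_congr fun ω => ?_) h1
    simp only [Pi.mul_apply, Function.comp, Option.elim_none]
    rw [mul_assoc, ← ex_add, add_sub_cancel]
  have h1 := key (fun _ => 1) measurable_const
  have h2 := hF.mgf_one ht 1
  have h3 := hF'.mgf_one ht 1
  simp only [one_mul, sub_self, zero_mul, zero_div, ex_zero] at h1 h2 h3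
  rw [h2, h3, one_mul] at h1
  have h4 := key (fun a => Ψ (limsup (fun N : ℕ =>
    (∑ i : Fin N, f (u i) * ex (a (some i))) / N) atTop))
    (hΨ.comp (Measurable.limsup fun N => by fun_prop))
  rw [← h1, mul_one] at h4
  refine Eq.trans (lintegral_congr_ae (hu1.mono fun ω hω => ?_))
    (h4.trans (lintegral_congr_ae (hu1.mono fun ω hω => ?_)))
  all_goals simp only [Option.elim_some, hω.limsup_eq]

lemma orth_mass (h : Nest P X K v) (hε : ε ∈ Ioc (0 : ℝ) 1) (hε' : ε' ∈ Ioc (0 : ℝ) ε)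
    {f : ℝ → ℝ≥0∞} (hf : Measurable f) (hfin : ∫⁻ u, f u ∂nu ≠ ∞)
    {Ψ : ℝ≥0∞ → ℝ≥0∞} (hΨ : Measurable Ψ) :
    ∫⁻ ω, Ψ (mass (X ε) f ω) * mass (X ε') f ω ∂P =
      ∫⁻ ω, Ψ (mass (X ε) f ω) * mass (X ε) f ω ∂P := by
  have := h.gauss.isProbabilityMeasure
  have hF := h.fld ε hε
  have hm := hΨ.comp (hF.meas_mass hf)
  have key : ∀ a ∈ Ioc (0 : ℝ) 1, ∫⁻ ω, Ψ (mass (X ε) f ω) * mass (X a) f ω ∂P =
      ∫⁻ u, f u * ∫⁻ ω, Ψ (mass (X ε) f ω) * ex (X a u ω) ∂P ∂nu := fun a ha => by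
    have hF' := h.fld a ha
    have h1 : ∀ ω, Ψ (mass (X ε) f ω) * mass (X a) f ω =
        ∫⁻ u, Ψ (mass (X ε) f ω) * (f u * ex (X a u ω)) ∂nu := fun ω =>
      (lintegral_const_mul _ (hf.mul (measurable_ex.comp (hF'.measX' ω)))).symm
    simp only [h1]
    rw [← lintegral_lintegral_swap
      ((hm.comp measurable_snd).mul (hF'.meas_int hf)).aemeasurable]
    refine lintegral_congr fun u => ?_
    rw [← lintegral_const_mul _ (f := fun ω => Ψ (mass (X ε) f ω) * ex (X a u ω))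
      (hm.mul (measurable_ex.comp (hF'.measX u)))]
    exact lintegral_congr fun ω => mul_left_comm _ _ _
  rw [key ε hε, key ε' ⟨hε'.1, hε'.2.trans hε.2⟩]
  exact lintegral_congr_ae (ae_nu.mono fun u hu => by simp only [h.orth hε hε' hu hf hfin hΨ])

lemma gap (h : Nest P X K v) (hε : ε ∈ Ioc (0 : ℝ) 1) (hε' : ε' ∈ Ioc (0 : ℝ) ε)
    {f : ℝ → ℝ≥0∞} (hf : Measurable f) (hfin : ∫⁻ u, f u ∂nu ≠ ∞) :
    ∫⁻ ω, dsq (mass (X ε') f ω) (mass (X ε) f ω) ∂P + ∫⁻ ω, (1 + mass (X ε) f ω)⁻¹ ∂P ≤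
      ∫⁻ ω, (1 + mass (X ε') f ω)⁻¹ ∂P := by
  have hF := h.fld ε hε
  have hF' := h.fld ε' ⟨hε'.1, hε'.2.trans hε.2⟩
  have hm := hF.meas_mass hf
  have hm' := hF'.meas_mass hf
  have hΨ : Measurable fun x : ℝ≥0∞ => (1 + x)⁻¹ ^ 2 := by fun_prop
  have h1 : ∫⁻ ω, (1 + mass (X ε) f ω)⁻¹ ^ 2 * mass (X ε) f ω ∂P ≠ ∞ := by
    refine ne_top_of_le_ne_top ((hF.lintegral_mass hf).trans_ne hfin) (lintegral_mono fun ω => ?_)
    exact mul_le_of_le_one_left' (pow_le_one' (ENNReal.inv_le_one.mpr le_self_add) 2)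
  have h2 := lintegral_mono_ae (((ae_lt_top hm ((hF.lintegral_mass hf).trans_ne hfin)).and
    (ae_lt_top hm' ((hF'.lintegral_mass hf).trans_ne hfin))).mono fun ω hω =>
      bregman hω.1.ne hω.2.ne)
  rw [lintegral_add_right _ (by fun_prop), lintegral_add_right _ (by fun_prop),
    lintegral_add_left (by fun_prop), h.orth_mass hε hε' hf hfin hΨ] at h2
  exact (ENNReal.add_le_add_iff_right h1).mp h2

lemma cauchy (h : Nest P X K v) {f : ℝ → ℝ≥0∞} (hf : Measurable f) (hfin : ∫⁻ u, f u ∂nu ≠ ∞)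
    {η : ℝ≥0∞} (hη : η ≠ 0) : ∀ᶠ ε in 𝓝[>] (0 : ℝ), ∀ ε' ∈ Ioc (0 : ℝ) ε,
      ∫⁻ ω, dsq (mass (X ε') f ω) (mass (X ε) f ω) ∂P ≤ η := by
  have := h.gauss.isProbabilityMeasure
  set a : ℝ → ℝ≥0∞ := fun ε => ∫⁻ ω, (1 + mass (X ε) f ω)⁻¹ ∂P with ha
  have h1 : ∀ ε, a ε ≤ 1 := fun ε =>
    (lintegral_mono fun ω => ENNReal.inv_le_one.mpr le_self_add).trans (by simp)
  have h2 : ∀ ε, a ε ≠ ∞ := fun ε => ne_top_of_le_ne_top ENNReal.one_ne_top (h1 ε)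
  obtain ⟨e, he⟩ : ∃ e : Ioc (0 : ℝ) 1, ⨆ e : Ioc (0 : ℝ) 1, a e ≤ a e + η := by
    by_contra hcon
    simp only [not_exists, not_le] at hcon
    have h3 : ⨆ e : Ioc (0 : ℝ) 1, a e ≠ ∞ :=
      ne_top_of_le_ne_top ENNReal.one_ne_top (iSup_le fun e => h1 e)
    have : Nonempty (Ioc (0 : ℝ) 1) := ⟨⟨1, one_pos, le_rfl⟩⟩
    have h4 : (⨆ e : Ioc (0 : ℝ) 1, a e) + η ≤ ⨆ e : Ioc (0 : ℝ) 1, a e := by
      rw [ENNReal.iSup_add]
      exact iSup_le fun e => (hcon e).le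
    exact absurd h4 (ENNReal.lt_add_right h3 hη).not_ge
  filter_upwards [Ioc_mem_nhdsGT e.2.1] with ε hε ε' hε'
  have hε1 : ε ∈ Ioc (0 : ℝ) 1 := ⟨hε.1, hε.2.trans e.2.2⟩
  have h3 : a e ≤ a ε := le_add_self.trans (h.gap e.2 hε hf hfin)
  have h4 := (h.gap hε1 hε' hf hfin).trans ((le_iSup (fun e : Ioc (0 : ℝ) 1 => a e)
    ⟨ε', hε'.1, hε'.2.trans hε1.2⟩).trans (he.trans (add_le_add h3 le_rfl)))
  rw [add_comm (a ε)] at h4
  exact (ENNReal.add_le_add_iff_right (h2 ε)).mp h4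

end Nest

end Pool.Agent.Lib.MP_e22585_pr
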