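import Pool.Agent.Lib.MP_e22585_pr.ExC

/-!
# Nested fields: construction of the limit measure
-/

set_option autoImplicit false

noncomputable section

open MeasureTheory ProbabilityTheory Filter Set
open scoped ENNReal NNReal Topology BoundedContinuousFunction

namespace Pool.Agent.Lib.MP_e22585_pr

variable {Ω : Type*} [MeasurableSpace Ω] {P : Measure Ω}

lemma path_limit {m : ℕ → FiniteMeasure ℝ} (hs : ∀ n, (m n : Measure ℝ) (Icc 0 1)ᶜ = 0)
    (h : ∀ k : ℕ, ∃ l, Tendsto (fun n => ∫ u, u ^ k ∂(m n : Measure ℝ)) atTop (𝓝 l)) :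
    ∃ M : FiniteMeasure ℝ, Tendsto m atTop (𝓝 M) := by
  have hae : ∀ n, ∀ᵐ u ∂(m n : Measure ℝ), u ∈ Icc (0 : ℝ) 1 := hs
  have hint : ∀ n, ∀ g : ℝ → ℝ, Continuous g → Integrable g (m n : Measure ℝ) := fun n g hg => by
    rw [← Measure.restrict_eq_self_of_ae_mem (hae n)]
    exact hg.continuousOn.integrableOn_compact isCompact_Icc
  obtain ⟨C, hC⟩ : ∃ C : ℝ, ∀ n, (m n : Measure ℝ).real univ ≤ C := by
    obtain ⟨l, hl⟩ := h 0
    obtain ⟨C, hC⟩ := hl.bddAbove_range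
    exact ⟨C, fun n => by simpa using hC ⟨n, rfl⟩⟩
  have hC0 : 0 ≤ C := measureReal_nonneg.trans (hC 0)
  obtain ⟨M, -, hM⟩ := (isCompact_setOfPred_finiteMeasure_le_of_isCompact (E := ℝ) C.toNNReal
    (isCompact_Icc (a := 0) (b := 1))).ultrafilter_le_nhds' ((Ultrafilter.of atTop).map m) (by
      refine Ultrafilter.mem_map.mpr (univ_mem' fun n => ⟨?_, ?_⟩)
      · exact (Real.le_toNNReal_iff_coe_le hC0).mpr (hC n)
      · exact (FiniteMeasure.null_iff_toMeasure_null _ _).mpr (hs n))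
  refine ⟨M, FiniteMeasure.tendsto_iff_forall_integral_tendsto.mpr fun f => ?_⟩
  have h1 : CauchySeq fun n => ∫ u, f u ∂(m n : Measure ℝ) := by
    refine Metric.cauchySeq_iff.mpr fun η hη => ?_
    obtain ⟨p, hp⟩ := exists_polynomial_near_of_continuousOn 0 1 f f.continuous.continuousOn
      (η / (3 * (C + 1))) (by positivity)
    choose l hl using h
    have h2 : CauchySeq fun n => ∫ u, p.eval u ∂(m n : Measure ℝ) := by
      refine ((tendsto_finsetSum (Finset.range (p.natDegree + 1)) fun k _ =>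
        (hl k).const_mul (p.coeff k)).congr fun n => ?_).cauchySeq
      simp only [Polynomial.eval_eq_sum_range]
      rw [integral_finsetSum _ fun k _ => hint n _ (by fun_prop)]
      simp only [integral_const_mul]
    have h3 : ∀ n, |∫ u, p.eval u ∂(m n : Measure ℝ) - ∫ u, f u ∂(m n : Measure ℝ)| ≤ η / 3 := by
      intro n
      rw [← integral_sub (hint n _ p.continuous) (hint n _ f.continuous)]
      refine (norm_integral_le_of_norm_le_const (f := fun u => p.eval u - f u)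
        ((hae n).mono fun u hu => (hp u hu).le)).trans ?_
      refine (mul_le_mul_of_nonneg_left ((hC n).trans (le_add_of_nonneg_right zero_le_one))
        (by positivity)).trans (le_of_eq ?_)
      field_simp
    obtain ⟨N, hN⟩ := Metric.cauchySeq_iff.mp h2 (η / 3) (by positivity)
    refine ⟨N, fun a ha b hb => ?_⟩
    have h4 := abs_lt.mp (hN a ha b hb)
    have h5 := abs_le.mp (h3 a)
    have h6 := abs_le.mp (h3 b)
    exact abs_lt.mpr ⟨by linarith, by linarith⟩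
  obtain ⟨l, hl⟩ := cauchySeq_tendsto_of_complete h1
  rwa [tendsto_nhds_unique (FiniteMeasure.tendsto_iff_forall_integral_tendsto.mp
    (show Tendsto m (Ultrafilter.of (atTop : Filter ℕ)) (𝓝 M) from hM) f)
    (hl.mono_left (Ultrafilter.of_le _))]

lemma measurable_of_bcf {M : Ω → Measure ℝ} [∀ ω, IsFiniteMeasure (M ω)]
    (h : ∀ g : ℝ →ᵇ ℝ≥0, Measurable fun ω => ∫⁻ u, g u ∂M ω) : Measurable M := by
  have h1 : ∀ F, IsClosed F → Measurable fun ω => M ω F := fun F hF =>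
    ENNReal.measurable_of_tendsto (fun n => h (hF.apprSeq n)) (tendsto_pi_nhds.mpr fun ω =>
      HasOuterApproxClosed.tendsto_lintegral_apprSeq hF (M ω))
  exact Measurable.measure_of_isPiSystem
    (BorelSpace.measurable_eq.trans borel_eq_generateFrom_isClosed) isPiSystem_isClosed h1
    (h1 _ isClosed_univ)

lemma measurable_dsq {a b : Ω → ℝ≥0∞} (ha : Measurable a) (hb : Measurable b) :
    Measurable fun ω => dsq (a ω) (b ω) :=
  (((continuous_uu.measurable.comp ha).sub (continuous_uu.measurable.comp hb)).pow_const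
    2).ennreal_ofReal

lemma tendsto_dsq {a : ℕ → ℝ≥0∞} {z : ℝ≥0∞} (h : Tendsto a atTop (𝓝 z)) (y : ℝ≥0∞) :
    Tendsto (fun n => dsq (a n) y) atTop (𝓝 (dsq z y)) :=
  ENNReal.tendsto_ofReal ((((continuous_uu.tendsto z).comp h).sub_const _).pow 2)

lemma ae_tendsto_zero {R : ℕ → Ω → ℝ≥0∞} (hR : ∀ n, Measurable (R n))
    (h : ∑' n, ∫⁻ ω, R n ω ∂P ≠ ∞) : ∀ᵐ ω ∂P, Tendsto (fun n => R n ω) atTop (𝓝 0) := by
  rw [← lintegral_tsum fun n => (hR n).aemeasurable] at h
  exact (ae_lt_top (Measurable.tsum hR) h).mono fun ω hω =>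
    ENNReal.tendsto_atTop_zero_of_tsum_ne_top hω.ne

lemma tsum_half : ∑' n : ℕ, (2⁻¹ : ℝ≥0∞) ^ n ≠ ∞ := by
  rw [ENNReal.tsum_geometric_two]
  exact ENNReal.ofNat_ne_top

lemma ae_converge {Z : ℕ → Ω → ℝ≥0∞} (hZ : ∀ n, Measurable (Z n)) {B : ℝ≥0∞} (hB : B ≠ ∞)
    (h1 : ∀ n, ∫⁻ ω, Z n ω ∂P ≤ B) (k : ℕ)
    (h2 : ∀ n ≥ k, ∫⁻ ω, dsq (Z (n + 1) ω) (Z n ω) ∂P ≤ (2⁻¹ ^ 3) ^ n) :
    ∀ᵐ ω ∂P, ∃ z ≠ ∞, Tendsto (fun n => Z n ω) atTop (𝓝 z) := by
  have hd : ∀ n, Measurable fun ω => dsq (Z (n + 1) ω) (Z n ω) := fun n =>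
    measurable_dsq (hZ _) (hZ _)
  have h3 := ae_tendsto_zero (P := P)
    (R := fun n ω => 4 ^ (n + k) * dsq (Z (n + k + 1) ω) (Z (n + k) ω))
    (fun n => (hd _).const_mul _) (by
      refine ne_top_of_le_ne_top tsum_half (ENNReal.tsum_le_tsum fun n => ?_)
      rw [lintegral_const_mul _ (hd _)]
      refine (mul_le_mul' le_rfl (h2 _ (Nat.le_add_left _ _))).trans ?_
      have h4 : (4 : ℝ≥0∞) * 2⁻¹ ^ 3 = 2⁻¹ := by
        rw [show (4 : ℝ≥0∞) = 2 ^ 2 by norm_num, pow_succ 2⁻¹ 2, ← mul_assoc, ← mul_pow,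
          ENNReal.mul_inv_cancel two_ne_zero ENNReal.ofNat_ne_top, one_pow, one_mul]
      rw [← mul_pow, h4]
      exact pow_le_pow_of_le_one zero_le (by simp) (Nat.le_add_right _ _))
  have h4 : ∫⁻ ω, liminf (fun n => Z n ω) atTop ∂P ≠ ∞ :=
    ne_top_of_le_ne_top hB ((lintegral_liminf_le hZ).trans
      (liminf_le_of_frequently_le' (Frequently.of_forall h1)))
  filter_upwards [h3, ae_lt_top (Measurable.liminf hZ) h4] with ω h5 h6
  have h7 : CauchySeq fun n => uu (Z (n + k) ω) := by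
    refine cauchySeq_of_summable_dist (Summable.of_norm_bounded_eventually_nat
      summable_geometric_two ?_)
    filter_upwards [h5.eventually (gt_mem_nhds zero_lt_one)] with n hn
    rw [dsq, show (4 : ℝ≥0∞) = ENNReal.ofReal 4 by simp, ← ENNReal.ofReal_pow (by norm_num),
      ← ENNReal.ofReal_mul (by positivity), ENNReal.ofReal_lt_one] at hn
    rw [Real.norm_eq_abs, abs_dist, Real.dist_eq, abs_sub_comm, Nat.succ_add]
    refine abs_le_of_sq_le_sq' ?_ (by positivity) |> abs_le.mpr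
    have h8 : (4 : ℝ) ^ n ≤ 4 ^ (n + k) := pow_le_pow_right₀ (by norm_num) (Nat.le_add_right _ _)
    have h9 : (((1 : ℝ) / 2) ^ n) ^ 2 * 4 ^ n = 1 := by
      rw [← pow_mul, mul_comm n, pow_mul, ← mul_pow]
      norm_num
    have h10 : (0 : ℝ) < 4 ^ n := by positivity
    refine le_of_mul_le_mul_right ?_ h10
    nlinarith [sq_nonneg (uu (Z (n + k + 1) ω) - uu (Z (n + k) ω))]
  obtain ⟨c, hc⟩ := cauchySeq_tendsto_of_complete h7
  have h8 := (tendsto_add_atTop_iff_nat (f := fun n => Z n ω) k).mp (tendsto_of_uu hc)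
  exact ⟨_, h8.liminf_eq ▸ h6.ne, h8⟩

omit [MeasurableSpace Ω] in
lemma lint_dens {Y : ℝ → Ω → ℝ} {ω : Ω} (hY : Measurable fun u => Y u ω) {f : ℝ → ℝ≥0∞}
    (hf : Measurable f) : ∫⁻ u, f u ∂(nu.withDensity fun u => ex (Y u ω)) = mass Y f ω := by
  rw [lintegral_withDensity_eq_lintegral_mul _ (f := fun u => ex (Y u ω))
    (measurable_ex.comp hY) hf]
  exact lintegral_congr fun u => mul_comm _ _

namespace Nest

variable {X : ℝ → ℝ → Ω → ℝ} {K : ℝ → ℝ → ℝ → ℝ} {v : ℝ → ℝ}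

lemma exists_seq (h : Nest P X K v) : ∃ e : ℕ → ℝ, Tendsto e atTop (𝓝[>] 0) ∧
    (∀ n, e n ∈ Ioc (0 : ℝ) 1) ∧ ∃ M : Ω → Measure ℝ, Measurable M ∧ (∀ ω, IsFiniteMeasure (M ω)) ∧
      ∀ᵐ ω ∂P, ∀ g : ℝ →ᵇ ℝ≥0, Tendsto (fun n => mass (X (e n)) (fun u => g u) ω) atTop
        (𝓝 (∫⁻ u, g u ∂M ω)) := by
  classical
  let f : ℕ → ℝ → ℝ≥0∞ := fun k u => ENNReal.ofReal (u ^ k)
  have hf : ∀ k, Measurable (f k) := fun k => by fun_prop
  have hf1 : ∀ k, ∫⁻ u, f k u ∂nu ≤ 1 := fun k =>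
    (lintegral_mono_ae (g := fun _ => 1) (ae_nu.mono fun u hu =>
      ENNReal.ofReal_le_one.mpr (pow_le_one₀ hu.1 hu.2.le))).trans (by simp)
  have hu : Tendsto (fun n : ℕ => 1 / ((n : ℝ) + 1)) atTop (𝓝[>] 0) :=
    tendsto_nhdsWithin_iff.mpr ⟨tendsto_one_div_add_atTop_nhds_zero_nat,
      Eventually.of_forall fun n => mem_Ioi.mpr Nat.one_div_pos_of_nat⟩
  obtain ⟨j, hj, hj1⟩ := extraction_forall_of_eventually fun n : ℕ => hu.eventually
    ((Finset.range (n + 1)).eventually_all.mpr fun k _ => h.cauchy (hf k)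
      (ne_top_of_le_ne_top ENNReal.one_ne_top (hf1 k)) (η := (2⁻¹ ^ 3) ^ n) (by simp))
  set e : ℕ → ℝ := fun n => 1 / ((j n : ℝ) + 1) with he
  have he1 : ∀ n, e n ∈ Ioc (0 : ℝ) 1 := fun n => ⟨Nat.one_div_pos_of_nat,
    (div_le_one (by positivity)).mpr (le_add_of_nonneg_left (Nat.cast_nonneg _))⟩
  have hF := fun n => h.fld _ (he1 n)
  have h1 : ∀ᵐ ω ∂P, (∀ n, mass (X (e n)) (f 0) ω < ∞) ∧
      ∀ k, ∃ z ≠ ∞, Tendsto (fun n => mass (X (e n)) (f k) ω) atTop (𝓝 z) := by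
    refine (ae_all_iff.mpr fun n => ae_lt_top ((hF n).meas_mass (hf 0)) (ne_top_of_le_ne_top
      ENNReal.one_ne_top (((hF n).lintegral_mass (hf 0)).trans_le (hf1 0)))).and
      (ae_all_iff.mpr fun k => ae_converge (fun n => (hF n).meas_mass (hf k)) ENNReal.one_ne_top
        (fun n => ((hF n).lintegral_mass (hf k)).trans_le (hf1 k)) k fun n hn =>
          hj1 n k (Finset.mem_range.mpr (Nat.lt_succ_of_le hn)) _ ⟨(he1 _).1, ?_⟩)
    exact Nat.one_div_le_one_div (hj.monotone (Nat.le_succ n))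
  obtain ⟨S, hS1, hS2, hS3⟩ := exists_measurable_superset_of_null (ae_iff.mp h1)
  have h2 : ∀ ω, ∃ M : FiniteMeasure ℝ, (ω ∈ S → M = 0) ∧ (ω ∉ S → ∀ g : ℝ →ᵇ ℝ≥0,
      Tendsto (fun n => mass (X (e n)) (fun u => g u) ω) atTop
        (𝓝 (∫⁻ u, g u ∂(M : Measure ℝ)))) := fun ω => by
    by_cases hω : ω ∈ S
    · exact ⟨0, fun _ => rfl, fun h => absurd hω h⟩
    obtain ⟨h3, h4⟩ := not_not.mp fun h => hω (hS1 h)
    have hd := fun n {g : ℝ → ℝ≥0∞} (hg : Measurable g) => lint_dens ((hF n).measX' ω) hg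
    let m : ℕ → FiniteMeasure ℝ := fun n => ⟨nu.withDensity fun u => ex (X (e n) u ω),
      ⟨by simpa [f] using (hd n (hf 0)).trans_lt (h3 n)⟩⟩
    have hs : ∀ n, ∀ᵐ u ∂(m n : Measure ℝ), u ∈ Icc (0 : ℝ) 1 := fun n =>
      (withDensity_absolutelyContinuous nu _).ae_le (ae_nu.mono fun u hu => Ico_subset_Icc_self hu)
    obtain ⟨M, hM⟩ := path_limit (m := m) hs fun k => by
      obtain ⟨z, hz, hz'⟩ := h4 k
      refine ⟨z.toReal, ((ENNReal.tendsto_toReal hz).comp hz').congr fun n => ?_⟩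
      rw [integral_eq_lintegral_of_nonneg_ae ((hs n).mono fun u hu => pow_nonneg hu.1 k)
        (by fun_prop)]
      exact congrArg ENNReal.toReal (hd n (hf k)).symm
    exact ⟨M, fun h => absurd h hω, fun _ g =>
      (FiniteMeasure.tendsto_iff_forall_lintegral_tendsto.mp hM g).congr fun n =>
        hd n g.continuous.measurable.coe_nnreal_ennreal⟩
  choose M hM0 hM using h2
  refine ⟨e, hu.comp hj.tendsto_atTop, he1, fun ω => M ω, measurable_of_bcf fun g => ?_,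
    fun ω => inferInstance, (measure_eq_zero_iff_ae_notMem.mp hS3).mono fun ω hω => hM ω hω⟩
  have h3 : (fun ω => ∫⁻ u, g u ∂(M ω : Measure ℝ)) = Sᶜ.indicator fun ω =>
      limsup (fun n => mass (X (e n)) (fun u => g u) ω) atTop := by
    funext ω
    by_cases hω : ω ∈ S
    · simp [hM0 ω hω, hω]
    · rw [indicator_of_mem (mem_compl hω), (hM ω hω g).limsup_eq]
  rw [h3]
  exact (Measurable.limsup fun n =>
    (hF n).meas_mass g.continuous.measurable.coe_nnreal_ennreal).indicator hS2.compl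

theorem exists_lim [IsProbabilityMeasure P] (h : Nest P X K v) :
    ∃ M : Ω → Measure ℝ, Lim P P X M := by
  obtain ⟨e, he, he1, M, hM, hfin, hlim⟩ := h.exists_seq
  have hI : ∀ {z : ℝ → ℝ≥0∞}, Measurable z → Measurable fun ω => ∫⁻ u, z u ∂M ω := fun hz =>
    (Measure.measurable_lintegral hz).comp hM
  have hmass : ∀ ε {z : ℝ → ℝ≥0∞}, Measurable z → Measurable (mass (X ε) z) := fun ε z hz =>
    ((hz.comp measurable_fst).mul (measurable_ex.comp (h.meas ε))).lintegral_prod_left'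
  have hg : ∀ g : ℝ →ᵇ ℝ≥0, Measurable fun u => (g u : ℝ≥0∞) := fun g =>
    g.continuous.measurable.coe_nnreal_ennreal
  have hd : ∀ (g : ℝ →ᵇ ℝ≥0) ε, Measurable fun ω =>
      dsq (∫⁻ u, g u ∂M ω) (mass (X ε) (fun u => g u) ω) := fun g ε =>
    measurable_dsq (hI (hg g)) (hmass ε (hg g))
  have key : ∀ (g : ℝ →ᵇ ℝ≥0) {η : ℝ≥0∞}, η ≠ 0 → ∀ᶠ ε in 𝓝[>] (0 : ℝ),
      ∫⁻ ω, dsq (∫⁻ u, g u ∂M ω) (mass (X ε) (fun u => g u) ω) ∂P ≤ η := fun g η hη => by
    filter_upwards [h.cauchy (hg g) (g.lintegral_lt_top_of_nnreal nu).ne hη, self_mem_nhdsWithin]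
      with ε h1 hε
    refine le_trans (lintegral_congr_ae (hlim.mono fun ω hω => ?_)).le
      ((lintegral_liminf_le (f := fun n ω => dsq (mass (X (e n)) (fun u => g u) ω)
        (mass (X ε) (fun u => g u) ω)) fun n =>
          measurable_dsq (hmass _ (hg g)) (hmass ε (hg g))).trans
        (liminf_le_of_frequently_le' ((he.eventually (Ioc_mem_nhdsGT hε)).mono
          fun n hn => h1 _ hn).frequently))
    exact (tendsto_dsq (hω g) _).liminf_eq.symm
  refine ⟨M, hM, Eventually.of_forall hfin, fun f => ?_⟩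
  have h1 : ∀ ε, Measurable fun ω => ∫ u, f u * Real.exp (X ε u ω) ∂nu := fun ε =>
    (StronglyMeasurable.integral_prod_left (f := fun u ω => f u * Real.exp (X ε u ω))
      ((f.continuous.measurable.comp measurable_fst).mul (h.meas ε).exp).stronglyMeasurable).measurable
  have h2 : ∀ ω, ∫ u, f u ∂M ω = (∫⁻ u, f.nnrealPart u ∂M ω).toReal -
      (∫⁻ u, (-f).nnrealPart u ∂M ω).toReal := fun ω =>
    integral_eq_lintegral_pos_part_sub_lintegral_neg_part (f.integrable _)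
  have h3 : Measurable fun ω => ∫ u, f u ∂M ω := by
    simp only [h2]
    exact (hI (hg _)).ennreal_toReal.sub (hI (hg _)).ennreal_toReal
  refine ⟨fun ε => (h1 ε).aemeasurable, h3.aemeasurable, tendsto_of_subseq_tendsto fun a ha => ?_⟩
  obtain ⟨j, -, hj⟩ := extraction_forall_of_eventually fun n : ℕ => ha.eventually
    ((key f.nnrealPart (η := 2⁻¹ ^ n) (by simp)).and
      ((key (-f).nnrealPart (η := 2⁻¹ ^ n) (by simp)).and (Ioc_mem_nhdsGT one_pos)))
  refine ⟨j, (tendstoInDistribution_of_ae_tendsto (fun n => (h1 (a (j n))).aemeasurable)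
    h3.aemeasurable ?_).tendsto⟩
  have hF := fun n => h.fld _ (hj n).2.2
  filter_upwards [ae_tendsto_zero (fun n => hd f.nnrealPart (a (j n)))
      (ne_top_of_le_ne_top tsum_half (ENNReal.tsum_le_tsum fun n => (hj n).1)),
    ae_tendsto_zero (fun n => hd (-f).nnrealPart (a (j n)))
      (ne_top_of_le_ne_top tsum_half (ENNReal.tsum_le_tsum fun n => (hj n).2.1)),
    ae_all_iff.mpr fun n => ae_lt_top ((hF n).meas_mass (f := fun _ => 1) measurable_const)
      (((hF n).lintegral_mass measurable_const).trans_ne (by simp))] with ω h4 h5 h6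
  rw [h2]
  refine (((ENNReal.tendsto_toReal (f.nnrealPart.lintegral_lt_top_of_nnreal _).ne).comp
    (tendsto_of_dsq h4)).sub ((ENNReal.tendsto_toReal
      ((-f).nnrealPart.lintegral_lt_top_of_nnreal _).ne).comp (tendsto_of_dsq h5))).congr
        fun n => ?_
  have h7 : Integrable (fun u => Real.exp (X (a (j n)) u ω)) nu := by
    refine (lintegral_ofReal_ne_top_iff_integrable ((hF n).measX' ω).exp.aestronglyMeasurable
      (Eventually.of_forall fun u => (Real.exp_pos _).le)).mp ?_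
    simpa [mass, ex] using (h6 n).ne
  rw [integral_eq_lintegral_pos_part_sub_lintegral_neg_part
    (h7.bdd_mul (c := ‖f‖) f.continuous.aestronglyMeasurable
      (Eventually.of_forall f.norm_coe_le_norm))]
  simp only [Function.comp, mass, ← neg_mul, ENNReal.ofReal_mul' (Real.exp_pos _).le]
  rfl

end Nest

end Pool.Agent.Lib.MP_e22585_pr
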