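import Pool.Agent.Lib.MP_e22585_pr.Limit
import Pool.Agent.Lib.MP_e22585_pr.Defs

/-!
# The covariance kernel of the problem, and the final identity
-/

set_option autoImplicit false

noncomputable section

open MeasureTheory ProbabilityTheory Filter Set
open scoped ENNReal NNReal Topology BoundedContinuousFunction

namespace Pool.Agent.Lib.MP_e22585_pr

variable {Ω Ω' : Type*} [MeasurableSpace Ω] [MeasurableSpace Ω'] {P : Measure Ω} {P' : Measure Ω'}
  {b : Bool} {μ ε d : ℝ} {r : ℝ → ℝ}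

lemma psd {X : ℝ → Ω → ℝ} (hg : IsGaussianProcess (fun t : Ico (0 : ℝ) 1 => X t) P)
    (t : Fin 3 → ℝ) (ht : ∀ i, t i ∈ Ico (0 : ℝ) 1) (c : Fin 3 → ℝ) :
    0 ≤ ∑ i, ∑ j, c i * c j * cov[X (t i), X (t j); P] := by
  have h1 := (hg.comp_right fun i => ⟨t i, ht i⟩).hasGaussianLaw Finset.univ
  obtain ⟨A, hA, -⟩ := exists_rep (V := fun i => X (t i))
    (h1.map (ContinuousLinearMap.pi fun i : Fin 3 =>
      (ContinuousLinearMap.proj (R := ℝ) (φ := fun _ : (Finset.univ : Finset (Fin 3)) => ℝ)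
        ⟨i, Finset.mem_univ i⟩)))
  simp only [← hA, ← sum_sq_gram]
  exact Finset.sum_nonneg fun _ _ => sq_nonneg _

namespace IsCutoffField

variable {X : ℝ → Ω → ℝ}

lemma diag (h : IsCutoffField b μ r P ε d X) (hε : 0 < ε) {t : ℝ} (ht : t ∈ Ico (0 : ℝ) 1) :
    cov[X t, X t; P] = μ * (-Real.log (r ε) + ε * deriv (fun x => Real.log (r x)) ε) + d := by
  simpa using h.near t ht t ht (by simpa using hε.le)

lemma three (h : IsCutoffField b μ r P ε d X) (hε : 0 < ε) {s t u : ℝ} (hs : s ∈ Ico (0 : ℝ) 1)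
    (ht : t ∈ Ico (0 : ℝ) 1) (hu : u ∈ Ico (0 : ℝ) 1) :
    |cov[X s, X t; P]| ≤ μ * (-Real.log (r ε) + ε * deriv (fun x => Real.log (r x)) ε) + d ∧
    2 * cov[X s, X u; P] + 2 * cov[X u, X t; P] -
      3 * (μ * (-Real.log (r ε) + ε * deriv (fun x => Real.log (r x)) ε) + d) ≤
      cov[X s, X t; P] := by
  have h0 : ∀ i, ![s, t, u] i ∈ Ico (0 : ℝ) 1 := fun i => by fin_cases i <;> assumption
  have h1 := psd h.gauss _ h0 ![1, 1, 0]
  have h2 := psd h.gauss _ h0 ![1, -1, 0]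
  have h3 := psd h.gauss _ h0 ![1, 1, -2]
  simp only [Fin.sum_univ_three, Matrix.cons_val_zero, Matrix.cons_val_one, Matrix.cons_val,
    h.diag hε hs, h.diag hε ht, h.diag hε hu, covariance_comm (X t) (X s),
    covariance_comm (X u) (X s), covariance_comm (X t) (X u)] at h1 h2 h3
  exact ⟨abs_le.mpr ⟨by linarith, by linarith⟩, by linarith⟩

lemma fld (h : IsCutoffField b μ r P ε d X) (hε : 0 < ε) : Fld P X (fun s t => cov[X s, X t; P])
    (μ * (-Real.log (r ε) + ε * deriv (fun x => Real.log (r x)) ε) + d) := by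
  have := h.gauss.isProbabilityMeasure
  have hm : ∀ t, Measurable (X t) := fun t => h.meas.comp (measurable_const.prodMk measurable_id)
  refine ⟨h.gauss, h.meas, fun t ht => ?_, fun _ _ _ _ => rfl, fun t ht => h.diag hε ht,
    fun s => ?_, _, fun s hs t ht => (h.three hε hs ht ht).1⟩
  · rw [h.mean t ht, ← covariance_self (hm t).aemeasurable, h.diag hε ht]
    ring
  · have h1 : Measurable fun t => ∫ ω, X t ω ∂P :=
      (h.meas.stronglyMeasurable.integral_prod_right).measurable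
    exact (StronglyMeasurable.integral_prod_right
      (f := fun t ω => (X s ω - ∫ ω, X s ω ∂P) * (X t ω - ∫ ω, X t ω ∂P))
      ((((hm s).comp measurable_snd).sub_const _).mul
        (h.meas.sub (h1.comp measurable_fst))).stronglyMeasurable).measurable

lemma far' (h : IsCutoffField b μ r P ε d X) (hr : Admissible b r) (hε : 0 < ε) {s t : ℝ}
    (hs : s ∈ Ico (0 : ℝ) 1) (ht : t ∈ Ico (0 : ℝ) 1) (hd : ε ≤ dd b s t) :
    cov[X s, X t; P] = -μ * Real.log (r (dd b s t)) + d := by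
  have h1 := hd.trans (dd_le b s t)
  have h2 : |s - t| ∈ Ioo (0 : ℝ) 1 := ⟨hε.trans_le h1, abs_lt_one' hs ht⟩
  have h3 : r (s - t) = r |s - t| := by
    rcases abs_choice (s - t) with h4 | h4
    · rw [h4]
    · rw [← hr.even _ h2, h4, neg_neg]
  rw [h.far s hs t ht h1, h3]
  · unfold dd
    split_ifs with hb
    · rcases min_choice |s - t| (1 - |s - t|) with h4 | h4 <;> rw [h4]
      rw [← hr.symm hb _ h2]
    · rfl
  · intro hb
    rw [dd, if_pos hb, le_min_iff] at hd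
    linarith [hd.2]

end IsCutoffField

lemma Admissible.log_bound (hr : Admissible b r) {η : ℝ} (hη : 0 < η) :
    ∀ᶠ e in 𝓝[>] (0 : ℝ), ∃ C, ∀ δ ∈ Ioc 0 e, |δ * deriv (fun x => Real.log (r x)) δ - 1| ≤ η ∧
      |Real.log (r δ) - Real.log δ| ≤ η * -Real.log δ + C := by
  obtain ⟨e0, he0, h0⟩ := (nhdsGT_basis (0 : ℝ)).eventually_iff.mp
    (hr.slope.eventually (Metric.closedBall_mem_nhds 1 hη))
  filter_upwards [Ioo_mem_nhdsGT he0, Ioo_mem_nhdsGT one_pos] with e he he1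
  have h1 : ∀ δ ∈ Ioc 0 e, |δ * deriv (fun x => Real.log (r x)) δ - 1| ≤ η := fun δ hδ =>
    h0 ⟨hδ.1, hδ.2.trans_lt he.2⟩
  have h2 : ∀ a : ℝ, ∀ δ ∈ Ioc 0 e, HasDerivAt (fun x => Real.log (r x) - a * Real.log x)
      (deriv (fun x => Real.log (r x)) δ - a * δ⁻¹) δ := fun a δ hδ => by
    have h3 : δ ∈ Ioo (0 : ℝ) 1 := ⟨hδ.1, hδ.2.trans_lt he1.2⟩
    exact ((hr.diff.differentiableAt (Ioo_mem_nhds h3.1 h3.2)).log
      (hr.pos δ h3).ne').hasDerivAt.sub ((Real.hasDerivAt_log hδ.1.ne').const_mul a)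
  have h4 : MonotoneOn (fun x => Real.log (r x) - (1 - η) * Real.log x) (Ioc 0 e) := by
    refine monotoneOn_of_deriv_nonneg (convex_Ioc _ _)
      (fun δ hδ => (h2 _ δ hδ).continuousAt.continuousWithinAt)
      (fun δ hδ => (h2 _ δ (interior_subset hδ)).differentiableAt.differentiableWithinAt)
      fun δ hδ => ?_
    have hδ' := interior_subset hδ
    rw [(h2 _ δ hδ').deriv, sub_nonneg, ← div_eq_mul_inv, div_le_iff₀ hδ'.1]
    linarith [(abs_le.mp (h1 δ hδ')).1]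
  have h5 : AntitoneOn (fun x => Real.log (r x) - (1 + η) * Real.log x) (Ioc 0 e) := by
    refine antitoneOn_of_deriv_nonpos (convex_Ioc _ _)
      (fun δ hδ => (h2 _ δ hδ).continuousAt.continuousWithinAt)
      (fun δ hδ => (h2 _ δ (interior_subset hδ)).differentiableAt.differentiableWithinAt)
      fun δ hδ => ?_
    have hδ' := interior_subset hδ
    rw [(h2 _ δ hδ').deriv, sub_nonpos, ← div_eq_mul_inv, le_div_iff₀ hδ'.1]
    linarith [(abs_le.mp (h1 δ hδ')).2]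
  refine ⟨|Real.log (r e) - (1 - η) * Real.log e| + |Real.log (r e) - (1 + η) * Real.log e|,
    fun δ hδ => ⟨h1 δ hδ, ?_⟩⟩
  have h6 := (h4 hδ ⟨he.1, le_rfl⟩ hδ.2).trans (le_abs_self _)
  have h7 := (neg_abs_le _).trans (h5 hδ ⟨he.1, le_rfl⟩ hδ.2)
  have h8 := abs_nonneg (Real.log (r e) - (1 - η) * Real.log e)
  have h9 := abs_nonneg (Real.log (r e) - (1 + η) * Real.log e)
  simp only at h6 h7
  exact abs_le.mpr ⟨by linarith, by linarith⟩

lemma fam {X : ℝ → ℝ → Ω → ℝ} {D : ℝ → ℝ} (hμ : 0 < μ) (hr : Admissible b r)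
    (hD : ∀ᶠ ε in 𝓝[>] (0 : ℝ), |D ε| ≤ 1)
    (hX : ∀ᶠ ε in 𝓝[>] (0 : ℝ), IsCutoffField b μ r P ε (D ε) (X ε)) :
    Fam b μ P X (fun ε s t => cov[X ε s, X ε t; P])
      fun ε => μ * (-Real.log (r ε) + ε * deriv (fun x => Real.log (r x)) ε) + D ε := by
  refine ⟨hμ, (hX.and ev_small).mono fun ε h => h.1.fld h.2.1, fun η hη => ?_⟩
  obtain ⟨e, ⟨C, hC⟩, he, hXe⟩ := ((hr.log_bound (lt_min (div_pos hη hμ) one_pos)).and
    (ev_small.and hX)).exists
  set ve := μ * (-Real.log (r e) + e * deriv (fun x => Real.log (r x)) e) + D e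
  have hle : 0 ≤ -Real.log e := neg_nonneg.mpr (Real.log_nonpos he.1.le he.2)
  refine ⟨μ * |C| + 6 * μ + |ve| + μ * -Real.log e + |D e| + 1, ?_⟩
  filter_upwards [hX, Ioc_mem_nhdsGT he.1, Ioc_mem_nhdsGT one_half_pos, hD] with
    ε h hε hε2 hDε s hs t ht
  have hD1 := abs_le.mp hDε
  have hD2 := abs_nonneg (D e)
  have hD3 := le_abs_self (D e)
  have hD4 := neg_abs_le (D e)
  have hL := LL_nonneg (b := b) hε.1 (hε.2.trans he.2) hs ht
  have h0 : ∀ δ ∈ Ioc 0 e, |μ * Real.log (r δ) - μ * Real.log δ| ≤ η * -Real.log δ + μ * |C| := by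
    intro δ hδ
    have h1 : 0 ≤ -Real.log δ := neg_nonneg.mpr (Real.log_nonpos hδ.1.le (hδ.2.trans he.2))
    have h2 := mul_le_mul_of_nonneg_right (min_le_left (η / μ) 1) h1
    rw [← mul_sub, abs_mul, abs_of_pos hμ]
    refine (mul_le_mul_of_nonneg_left ((hC δ hδ).2.trans (add_le_add h2 (le_abs_self C)))
      hμ.le).trans (le_of_eq ?_)
    field_simp
  have h1 := abs_nonneg ve
  have h2 := mul_nonneg hμ.le hle
  have h3 := mul_nonneg hμ.le (abs_nonneg C)
  rcases le_or_gt ε (dd b s t) with hd | hd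
  · have h4 : LL b ε s t = -Real.log (dd b s t) := by rw [LL, max_eq_left hd]
    rcases le_total (dd b s t) e with hd' | hd'
    · have h5 := abs_le.mp (h0 _ ⟨hε.1.trans_le hd, hd'⟩)
      rw [h.far' hr hε.1 hs ht hd, h4]
      exact abs_le.mpr ⟨by linarith, by linarith⟩
    · have h5 := abs_le.mp ((hXe.three he.1 hs ht ht).1.trans (le_abs_self ve))
      rw [hXe.far' hr he.1 hs ht hd'] at h5
      have h5' := h.far' hr hε.1 hs ht hd
      have h6 : μ * LL b ε s t ≤ μ * -Real.log e := by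
        rw [h4]
        exact mul_le_mul_of_nonneg_left (neg_le_neg (Real.log_le_log he.1 hd')) hμ.le
      have h7 := mul_nonneg hμ.le hL
      have h8 := mul_nonneg hη.le hL
      exact abs_le.mpr ⟨by linarith, by linarith⟩
  · have h4 : LL b ε s t = -Real.log ε := by rw [LL, max_eq_right hd.le]
    have h5 := abs_le.mp (h0 _ hε)
    have h6 := abs_le.mp ((hC ε hε).1.trans (min_le_right _ _))
    set c := ε * deriv (fun x => Real.log (r x)) ε
    have h7 : μ * c ≤ μ * 2 := mul_le_mul_of_nonneg_left (by linarith) hμ.le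
    have h8 : ∀ s ∈ Ico (0 : ℝ) 1, ∀ t ∈ Ico (0 : ℝ) 1, |s - t| ≤ ε →
        -(μ * Real.log (r ε)) + D ε ≤ cov[X ε s, X ε t; P] := fun s hs t ht hst => by
      rw [h.near s hs t ht hst]
      have h9 : 0 ≤ 1 - |s - t| / ε := sub_nonneg.mpr ((div_le_one hε.1).mpr hst)
      nlinarith [mul_nonneg hμ.le (mul_nonneg h9 (show 0 ≤ c by linarith))]
    have h9 : -(μ * Real.log (r ε)) - 6 * μ + D ε ≤ cov[X ε s, X ε t; P] := by
      rcases le_or_gt |s - t| ε with hst | hst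
      · linarith [h8 s hs t ht hst]
      have hb : b = true := by
        by_contra hb
        rw [dd, if_neg hb] at hd
        linarith
      rw [dd, if_pos hb, min_lt_iff] at hd
      replace hd := hd.resolve_left hst.not_gt
      wlog hlt : s ≤ t generalizing s t
      · rw [covariance_comm]
        rw [abs_sub_comm] at hst hd
        exact this t ht s hs (LL_symm b ε s t ▸ hL) (LL_symm b ε s t ▸ h4) hst hd
          (le_of_not_ge hlt)
      rw [abs_sub_comm, abs_of_nonneg (sub_nonneg.mpr hlt)] at hd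
      have hu : t - (1 - ε) ∈ Ico (0 : ℝ) 1 := ⟨by linarith [hs.1], by linarith [ht.2, hε2.2]⟩
      have h10 := h8 s hs _ hu (abs_le.mpr ⟨by linarith [hs.1, ht.2], by linarith [hε.1]⟩)
      have h11 : dd b (t - (1 - ε)) t = ε := by
        rw [dd, if_pos hb, sub_sub_cancel_left, abs_neg, abs_of_nonneg (by linarith [hε2.2]),
          sub_sub_cancel, min_eq_right (by linarith [hε2.2])]
      have h12 := h.far' hr hε.1 hu ht h11.ge
      rw [h11] at h12
      have h13 := (h.three hε.1 hs ht hu).2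
      linarith
    have h10 := (abs_le.mp (h.three hε.1 hs ht ht).1).2
    rw [h4]
    exact abs_le.mpr ⟨by linarith, by linarith⟩

theorem centered [IsProbabilityMeasure P] [IsProbabilityMeasure P'] {X : ℝ → ℝ → Ω → ℝ}
    {M : Ω' → Measure ℝ} (hμ : μ ∈ Ioo (0 : ℝ) 2) (hr : Admissible b r) {D : ℝ → ℝ}
    (hD : Tendsto D (𝓝[>] 0) (𝓝 0))
    (hX : ∀ᶠ ε in 𝓝[>] (0 : ℝ), IsCutoffField b μ r P ε (D ε) (X ε)) (hM : IsChaos P P' X M)
    {φ : ℝ → ℝ} (hφ : Measurable φ) (hφ0 : ∀ u ∈ Ioo (0 : ℝ) 1, 0 < φ u)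
    (hφ1 : BddAbove (φ '' Ioo 0 1)) {q : ℝ} (hq : q ∈ Ioo (-1 / μ - 1 / 2) (2 / μ)) :
    (∀ᵐ ω ∂P', ∫⁻ u in Ioo 0 1, ENNReal.ofReal (r u ^ (μ * q) * φ u) ∂M ω ∈ Ioo 0 ∞) ∧
    ∫⁻ ω, (∫⁻ u in Ioo 0 1, ENNReal.ofReal (r u ^ (μ * q) * φ u) ∂M ω) ^ q ∂P' < ∞ ∧
    Tendsto (fun ε => ENNReal.ofReal (Real.exp (μ * (Real.log (r ε) - 1) * (q * (q + 1) / 2))) *
      ∫⁻ ω, (∫⁻ u in Ioo 0 1, ENNReal.ofReal (φ u * Real.exp (X ε u ω - X ε 0 ω))) ^ q ∂P)
      (𝓝[>] 0)
      (𝓝 (∫⁻ ω, (∫⁻ u in Ioo 0 1, ENNReal.ofReal (r u ^ (μ * q) * φ u) ∂M ω) ^ q ∂P')) := by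
  classical
  have hnu : volume.restrict (Ioo (0 : ℝ) 1) = nu := Measure.restrict_congr_set Ioo_ae_eq_Ico
  have hD1 : ∀ᶠ ε in 𝓝[>] (0 : ℝ), |D ε| ≤ 1 :=
    (hD.eventually (Metric.closedBall_mem_nhds 0 one_pos)).mono fun ε h => by simpa using h
  have hF := fam hμ.1 hr hD1 hX
  have hL : Lim P P' X M := ⟨hM.meas, hM.fin, fun f => hnu ▸ hM.conv f⟩
  obtain ⟨A0, hA0⟩ := hφ1
  obtain ⟨A, hA⟩ := exists_le_ex (ENNReal.ofReal_ne_top (r := A0))
  let ψ : ℝ → ℝ≥0∞ := (Ioo 0 1).indicator fun u => ENNReal.ofReal (φ u)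
  have hψ : Measurable ψ := hφ.ennreal_ofReal.indicator measurableSet_Ioo
  have hψA : ∀ u, ψ u ≤ ex A := fun u => indicator_apply_le'
    (fun hu => (ENNReal.ofReal_le_ofReal (hA0 (mem_image_of_mem φ hu))).trans hA) fun _ => zero_le
  have hk : Measurable ((Ioo (0 : ℝ) 1).piecewise (fun u => -μ * Real.log (r u)) fun _ => 0) :=
    ContinuousOn.measurable_piecewise (continuousOn_const.mul (hr.diff.continuousOn.log
      fun u hu => (hr.pos u hu).ne')) continuousOn_const measurableSet_Ioo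
  have h1 := hL.main hF hμ.2 hk hD1 (φ := ψ) (A := A) (q := q) (by
    filter_upwards [hX, ev_small] with ε h hε u hu hd
    have h2 : |0 - u| = u := by rw [zero_sub, abs_neg, abs_of_nonneg hu.1]
    have h3 := hd.trans_le (dd_le b 0 u)
    have h4 : u ∈ Ioo (0 : ℝ) 1 := ⟨by linarith [hε.1], hu.2⟩
    rw [piecewise_eq_of_mem _ _ _ h4, h.far 0 ⟨le_rfl, one_pos⟩ u hu h3.le, zero_sub, hr.even u h4,
      add_sub_cancel_right]
    intro hb
    rw [dd, if_pos hb, lt_min_iff] at hd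
    linarith [hd.2]) hψ (fun u hu => by simpa [ψ, hu] using hφ0 u hu) (fun u _ => hψA u) (by
      have h2 := mul_lt_mul_of_pos_right hq.1 hμ.1
      rw [sub_mul, div_mul_cancel₀ _ hμ.1.ne'] at h2
      linarith) ((lt_div_iff₀' hμ.1).mp hq.2)
  have h2 : ∀ ω, ∫⁻ u in Ioo 0 1, ψ u * ex (-q *
      (Ioo (0 : ℝ) 1).piecewise (fun u => -μ * Real.log (r u)) (fun _ => 0) u) ∂M ω =
      ∫⁻ u in Ioo 0 1, ENNReal.ofReal (r u ^ (μ * q) * φ u) ∂M ω := fun ω =>
    setLIntegral_congr_fun measurableSet_Ioo fun u hu => by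
      simp only [ψ]
      rw [piecewise_eq_of_mem _ _ _ hu, indicator_of_mem hu, Real.rpow_def_of_pos (hr.pos u hu),
        ENNReal.ofReal_mul (Real.exp_pos _).le, mul_comm, ex]
      congr 3
      ring
  simp only [h2] at h1
  refine ⟨h1.1, h1.2.1, ?_⟩
  have h3 : Tendsto (fun ε => ex ((ε * deriv (fun x => Real.log (r x)) ε - 1) *
      (μ * (q * (q + 1) / 2)) + D ε * (q * (q + 1) / 2 - q * q))) (𝓝[>] 0) (𝓝 1) := by
    have h4 := (ENNReal.continuous_ofReal.tendsto _).comp ((Real.continuous_exp.tendsto _).comp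
      (((hr.slope.sub_const 1).mul_const (μ * (q * (q + 1) / 2))).add
        (hD.mul_const (q * (q + 1) / 2 - q * q))))
    simp only [sub_self, zero_mul, add_zero, Real.exp_zero, ENNReal.ofReal_one] at h4
    exact h4
  have h4 := ENNReal.Tendsto.mul h3 (Or.inl one_ne_zero) h1.2.2 (Or.inr ENNReal.one_ne_top)
  rw [one_mul] at h4
  refine h4.congr' (hF.fld.mono fun ε hf => ?_)
  have h5 : ∀ ω, (∫⁻ u in Ioo 0 1, ENNReal.ofReal (φ u * Real.exp (X ε u ω - X ε 0 ω))) ^ q =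
      ex (-q * X ε 0 ω) * mass (X ε) ψ ω ^ q := fun ω => by
    rw [neg_mul_comm, mul_comm q, ← ex_rpow, ← ex_mul_rpow, mass,
      ← lintegral_const_mul' _ _ (ex_ne_top _), ← hnu]
    congr 1
    refine setLIntegral_congr_fun measurableSet_Ioo fun u hu => ?_
    simp only [ψ]
    rw [indicator_of_mem hu, ENNReal.ofReal_mul (hφ0 u hu).le, mul_left_comm, ← ex_add,
      neg_add_eq_sub, ex]
  simp only [h5, mass_shift]
  rw [lintegral_const_mul' _ _ (ex_ne_top _), ← mul_assoc, ← ex_add, hf.girsanov ⟨le_rfl, one_pos⟩ (-q) hψ (ne_top_of_le_ne_top (ex_ne_top A)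
    ((lintegral_mono hψA).trans (by simp))) (Ψ := fun x => x ^ q) (measurable_id.pow_const q),
    ← mul_assoc (ENNReal.ofReal _), ← ex, ← ex_add]
  congr 2
  ring

end Pool.Agent.Lib.MP_e22585_pr
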