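import Pool.Agent.Lib.MP_e22585_pr.ExD
import Pool.Agent.Lib.MP_e22585_pr.Kernel

/-!
# The fields and the chaos exist for `r(t) = |t|`
-/

set_option autoImplicit false

noncomputable section

open MeasureTheory ProbabilityTheory Filter Set
open scoped ENNReal NNReal Topology

namespace Pool.Agent.Lib.MP_e22585_pr

lemma gauss_sub_const {Ω T : Type*} [MeasurableSpace Ω] {P : Measure Ω} {Y : T → Ω → ℝ}
    (h : IsGaussianProcess Y P) (c : T → ℝ) : IsGaussianProcess (fun t ω => Y t ω - c t) P := by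
  refine ⟨fun I => ⟨?_⟩⟩
  have h1 := h.hasGaussianLaw I
  have := h1.isGaussian_map
  have h2 : (fun ω => I.restrict fun t => Y t ω - c t) =
      (fun x => x - I.restrict c) ∘ fun ω => I.restrict fun t => Y t ω := rfl
  rw [h2, ← AEMeasurable.map_map_of_aemeasurable (by fun_prop) h1.aemeasurable]
  infer_instance

lemma deriv_log_abs {ε : ℝ} (hε : 0 < ε) : ε * deriv (fun x => Real.log |x|) ε = 1 := by
  simp only [Real.log_abs]
  rw [Real.deriv_log, mul_inv_cancel₀ hε.ne']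

lemma admissible_abs : Admissible false fun t => |t| where
  pos := fun t ht => abs_pos.mpr ht.1.ne'
  diff := fun t ht => (differentiableAt_abs ht.1.ne').differentiableWithinAt
  even := fun t _ => abs_neg t
  slope := tendsto_const_nhds.congr' (eventually_mem_nhdsWithin.mono fun t ht =>
    (deriv_log_abs ht).symm)
  symm := fun h => absurd h (by simp)

theorem exists_field {μ : ℝ} (hμ : 0 ≤ μ) :
    ∃ (X : ℝ → ℝ → (ℕ → ℝ) → ℝ) (M : (ℕ → ℝ) → Measure ℝ),
      (∀ ε ∈ Ioc (0 : ℝ) 1, IsCutoffField false μ (fun t => |t|) gs ε 0 (X ε)) ∧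
      IsChaos gs gs X M ∧ ∀ ε, Measurable (Function.uncurry (X ε)) := by
  classical
  obtain ⟨Y, hG, h0, hm, hc⟩ := exists_nested μ hμ
  let e : ℝ → ℝ := fun ε => if ε ∈ Ioc (0 : ℝ) 1 then ε else 1
  have he : ∀ ε, e ε ∈ Ioc (0 : ℝ) 1 := fun ε => by
    simp only [e]
    split_ifs with h
    exacts [h, ⟨one_pos, le_rfl⟩]
  have he1 : ∀ ε ∈ Ioc (0 : ℝ) 1, e ε = ε := fun ε h => if_pos h
  let X : ℝ → ℝ → (ℕ → ℝ) → ℝ := fun ε t ω => Y (e ε, t) ω - μ * (1 - Real.log ε) / 2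
  have hXG : IsGaussianProcess (fun z : ℝ × ℝ => X z.1 z.2) gs :=
    gauss_sub_const (hG.comp_right fun z : ℝ × ℝ => (e z.1, z.2))
      fun z => μ * (1 - Real.log z.1) / 2
  have hXm : ∀ ε, Measurable (Function.uncurry (X ε)) := fun ε => (hm _ (he ε)).sub_const _
  have hi : ∀ z, Integrable (Y z) gs := fun z => (hG.hasGaussianLaw_eval z).integrable
  have hcov : ∀ ε ∈ Ioc (0 : ℝ) 1, ∀ ε' ∈ Ioc (0 : ℝ) ε, ∀ s ∈ Ico (0 : ℝ) 1, ∀ t ∈ Ico (0 : ℝ) 1,
      cov[X ε s, X ε' t; gs] = μ * kk ε |s - t| := fun ε hε ε' hε' s hs t ht => by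
    simp only [X]
    rw [covariance_sub_const_left (hi _), covariance_sub_const_right (hi _), he1 ε hε,
      he1 ε' ⟨hε'.1, hε'.2.trans hε.2⟩, hc ε hε ε' hε' s hs t ht]
  have hF : ∀ ε ∈ Ioc (0 : ℝ) 1, IsCutoffField false μ (fun t => |t|) gs ε 0 (X ε) := by
    intro ε hε
    have h1 := hcov ε hε ε ⟨hε.1, le_rfl⟩
    refine ⟨hXG.comp_right fun t : Ico (0 : ℝ) 1 => (ε, (t : ℝ)), hXm ε, fun t ht => ?_,
      fun s hs t ht h _ => ?_, fun s hs t ht h => ?_⟩
    · rw [← covariance_self (hXG.aemeasurable (ε, t)), h1 t ht t ht, sub_self, abs_zero,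
        kk_near hε.1 hε.1.le]
      simp only [X]
      rw [integral_sub (hi _) (integrable_const _), h0]
      simp
      ring
    · rw [h1 s hs t ht, kk, if_pos h]
      ring
    · rw [h1 s hs t ht, kk_near hε.1 h, deriv_log_abs hε.1, Real.log_abs]
      ring
  have hN : Nest gs X (fun ε s t => cov[X ε s, X ε t; gs]) _ :=
    ⟨hXG, hXm, fun ε hε => (hF ε hε).fld hε.1, fun ε hε ε' hε' s hs t ht => by
      rw [hcov ε hε ε' hε' s hs t ht, hcov ε hε ε ⟨hε.1, le_rfl⟩ s hs t ht]⟩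
  obtain ⟨M, hM⟩ := hN.exists_lim
  have hnu : volume.restrict (Ioo (0 : ℝ) 1) = nu := Measure.restrict_congr_set Ioo_ae_eq_Ico
  exact ⟨X, M, hF, ⟨hM.meas, hM.fin, fun f => hnu ▸ hM.conv f⟩, hXm⟩

end Pool.Agent.Lib.MP_e22585_pr
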