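import Pool.Agent.Lib.MP_e22585_pr.PL

/-!
# Finite-dimensional Gaussian vectors: representation, tilting, lower tails
-/

set_option autoImplicit false

noncomputable section

open MeasureTheory ProbabilityTheory Matrix
open scoped ENNReal NNReal MatrixOrder

namespace Pool.Agent.Lib.MP_e22585_pr

/-- The exponential with values in `ℝ≥0∞`. -/
def ex (x : ℝ) : ℝ≥0∞ := ENNReal.ofReal (Real.exp x)

lemma ex_add (x y : ℝ) : ex (x + y) = ex x * ex y := by
  simp only [ex, Real.exp_add, ENNReal.ofReal_mul (Real.exp_pos _).le]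

@[simp] lemma ex_zero : ex 0 = 1 := by simp [ex]

lemma ex_ne_zero (x : ℝ) : ex x ≠ 0 := by simp [ex, Real.exp_pos]

lemma ex_ne_top (x : ℝ) : ex x ≠ ∞ := ENNReal.ofReal_ne_top

lemma ex_mono {x y : ℝ} (h : x ≤ y) : ex x ≤ ex y :=
  ENNReal.ofReal_le_ofReal (Real.exp_le_exp.mpr h)

lemma ex_sum {ι : Type*} (s : Finset ι) (x : ι → ℝ) : ex (∑ i ∈ s, x i) = ∏ i ∈ s, ex (x i) := by
  classical
  induction s using Finset.induction_on with
  | empty => simp
  | insert i s hi ih => rw [Finset.sum_insert hi, Finset.prod_insert hi, ex_add, ih]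

lemma ex_rpow (x p : ℝ) : ex x ^ p = ex (x * p) := by
  simp only [ex]
  rw [ENNReal.ofReal_rpow_of_pos (Real.exp_pos _), Real.exp_mul]

@[fun_prop] lemma measurable_ex : Measurable ex := by
  unfold ex
  fun_prop

lemma gauss_tilt (h : ℝ) :
    (gaussianReal 0 1).withDensity (fun z => ex (h * z - h ^ 2 / 2)) = gaussianReal h 1 := by
  rw [gaussianReal_of_var_ne_zero _ one_ne_zero, gaussianReal_of_var_ne_zero _ one_ne_zero,
    ← withDensity_mul _ (measurable_gaussianPDF _ _) (by fun_prop)]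
  congr 1
  funext z
  simp only [Pi.mul_apply, gaussianPDF, ex, gaussianPDFReal]
  rw [← ENNReal.ofReal_mul (by positivity), mul_assoc, ← Real.exp_add]
  congr 3
  push_cast
  ring

variable {ι : Type*} [Fintype ι]

/-- The standard Gaussian measure on `ι → ℝ`. -/
def gam (ι : Type*) [Fintype ι] : Measure (ι → ℝ) := Measure.pi fun _ => gaussianReal 0 1

instance : IsProbabilityMeasure (gam ι) := by
  unfold gam
  infer_instance

lemma gam_shift (h : ι → ℝ) {G : (ι → ℝ) → ℝ≥0∞} (hG : Measurable G) :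
    ∫⁻ z, ex (∑ i, (h i * z i - h i ^ 2 / 2)) * G z ∂gam ι =
      ∫⁻ z, G (fun i => z i + h i) ∂gam ι := by
  have h1 : (gam ι).map (fun z i => z i + h i) = Measure.pi fun i => gaussianReal (h i) 1 := by
    rw [gam, Measure.pi_map_pi (f := fun i z => z + h i) (fun i => by fun_prop)]
    congr 1
    funext i
    rw [gaussianReal_map_add_const, zero_add]
  have h2 : (Measure.pi fun i => gaussianReal (h i) 1) =
      (gam ι).withDensity fun z => ex (∑ i, (h i * z i - h i ^ 2 / 2)) := by
    refine Measure.pi_eq fun s hs => ?_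
    rw [withDensity_apply _ (MeasurableSet.univ_pi hs), ← lintegral_indicator
      (MeasurableSet.univ_pi hs)]
    have e : (Set.univ.pi s).indicator (fun z : ι → ℝ => ex (∑ i, (h i * z i - h i ^ 2 / 2))) =
        fun z => ∏ i, (s i).indicator (fun y => ex (h i * y - h i ^ 2 / 2)) (z i) := by
      funext z
      by_cases hz : z ∈ Set.univ.pi s
      · rw [Set.indicator_of_mem hz, ex_sum]
        exact Finset.prod_congr rfl fun i _ => by rw [Set.indicator_of_mem (hz i trivial)]
      · rw [Set.indicator_of_notMem hz]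
        simp only [Set.mem_pi, Set.mem_univ, true_imp_iff, not_forall] at hz
        obtain ⟨i, hi⟩ := hz
        exact (Finset.prod_eq_zero (Finset.mem_univ i) (Set.indicator_of_notMem hi _)).symm
    have hm : ∀ i, Measurable ((s i).indicator fun y => ex (h i * y - h i ^ 2 / 2)) := fun i =>
      Measurable.indicator (by fun_prop) (hs i)
    rw [e, gam, lintegral_prod_eq_prod_lintegral_of_indepFun _ _
      (iIndepFun_pi (fun i => (hm i).aemeasurable)) (fun i => (hm i).comp (measurable_pi_apply i))]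
    refine Finset.prod_congr rfl fun i _ => ?_
    rw [(measurePreserving_eval (fun _ => gaussianReal 0 1) i).lintegral_comp (hm i),
      lintegral_indicator (hs i), ← withDensity_apply _ (hs i), gauss_tilt]
  rw [← lintegral_map hG (by fun_prop), h1, h2, lintegral_withDensity_eq_lintegral_mul _
    (by fun_prop) hG]
  rfl

lemma tau_one {f g : ℝ → ℝ≥0∞} (hf : Measurable f) (hg : Measurable g) (c : ℝ≥0∞)
    (H : ∀ a b, f a * g b ≤ c * ex ((a - b) ^ 2 / 4)) :
    (∫⁻ a, f a ∂gaussianReal 0 1) * (∫⁻ b, g b ∂gaussianReal 0 1) ≤ c := by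
  have hp := measurable_gaussianPDF 0 1
  rw [gaussianReal_of_var_ne_zero _ one_ne_zero, lintegral_withDensity_eq_lintegral_mul _ hp hf,
    lintegral_withDensity_eq_lintegral_mul _ hp hg]
  have hc : (c ^ (1 / 2 : ℝ)) ^ 2 = c := by
    rw [← ENNReal.rpow_natCast, ← ENNReal.rpow_mul]
    norm_num
  have h := pl_one (f := gaussianPDF 0 1 * f) (g := gaussianPDF 0 1 * g)
    (h := fun a => c ^ (1 / 2 : ℝ) * gaussianPDF 0 1 a) (hp.mul hf) (hp.mul hg) (hp.const_mul _)
    (fun a b => by
      have e : gaussianPDF 0 1 a * gaussianPDF 0 1 b * ex ((a - b) ^ 2 / 4) =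
          gaussianPDF 0 1 ((a + b) / 2) ^ 2 := by
        simp only [gaussianPDF, ex, gaussianPDFReal]
        rw [← ENNReal.ofReal_mul (by positivity), ← ENNReal.ofReal_mul (by positivity),
          ← ENNReal.ofReal_pow (by positivity)]
        congr 1
        rw [mul_pow, ← Real.exp_nat_mul, mul_mul_mul_comm, ← Real.exp_add, mul_assoc,
          ← Real.exp_add, ← sq]
        congr 2
        push_cast
        ring
      calc (gaussianPDF 0 1 * f) a * (gaussianPDF 0 1 * g) b
          = gaussianPDF 0 1 a * gaussianPDF 0 1 b * (f a * g b) := by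
            simp only [Pi.mul_apply]; ring
        _ ≤ gaussianPDF 0 1 a * gaussianPDF 0 1 b * (c * ex ((a - b) ^ 2 / 4)) :=
            mul_le_mul' le_rfl (H a b)
        _ = _ := by rw [mul_pow, hc, ← e]; ring)
  rwa [lintegral_const_mul _ hp, lintegral_gaussianPDF_eq_one _ one_ne_zero, mul_one, hc] at h

omit [Fintype ι] in
lemma tau_marg [DecidableEq ι] (s : Finset ι) {F G : (ι → ℝ) → ℝ≥0∞} (hF : Measurable F)
    (hG : Measurable G) (x y : ι → ℝ) (c : ℝ≥0∞)
    (H : ∀ x' y', (∀ i ∉ s, x' i = x i) → (∀ i ∉ s, y' i = y i) →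
      F x' * G y' ≤ c * ex (∑ i ∈ s, (x' i - y' i) ^ 2 / 4)) :
    (∫⋯∫⁻_s, F ∂fun _ => gaussianReal 0 1) x * (∫⋯∫⁻_s, G ∂fun _ => gaussianReal 0 1) y ≤ c := by
  induction s using Finset.induction_on generalizing x y c with
  | empty => simpa using H x y (fun _ _ => rfl) (fun _ _ => rfl)
  | insert i s hi ih =>
    rw [lmarginal_insert _ hF hi, lmarginal_insert _ hG hi]
    refine tau_one ((hF.lmarginal _).comp (measurable_update x))
      ((hG.lmarginal _).comp (measurable_update y)) c fun a b => ?_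
    refine ih _ _ _ fun x' y' hx hy => ?_
    have hag : ∀ (x x' : ι → ℝ) (a : ℝ), (∀ j ∉ s, x' j = Function.update x i a j) →
        ∀ j ∉ insert i s, x' j = x j := by
      intro x x' a hx j hj
      rw [Finset.mem_insert, not_or] at hj
      rw [hx j hj.2, Function.update_of_ne hj.1]
    have := H x' y' (hag _ _ _ hx) (hag _ _ _ hy)
    rwa [Finset.sum_insert hi, ex_add, hx i hi, hy i hi, Function.update_self,
      Function.update_self, ← mul_assoc] at this

/-- Maurey's property (tau) for the standard Gaussian measure. -/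
lemma tau {F G : (ι → ℝ) → ℝ≥0∞} (hF : Measurable F) (hG : Measurable G) (c : ℝ≥0∞)
    (H : ∀ x y, F x * G y ≤ c * ex (∑ i, (x i - y i) ^ 2 / 4)) :
    (∫⁻ x, F x ∂gam ι) * (∫⁻ y, G y ∂gam ι) ≤ c := by
  classical
  rw [gam, lintegral_eq_lmarginal_univ 0, lintegral_eq_lmarginal_univ 0]
  exact tau_marg _ hF hG _ _ c fun x y _ _ => H x y

variable {Ω : Type*} [MeasurableSpace Ω] {P : Measure Ω}

/-- A Gaussian vector is an affine image of the standard Gaussian vector. -/
lemma exists_rep {V : ι → Ω → ℝ} (hV : HasGaussianLaw (fun ω i => V i ω) P) :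
    ∃ A : ι → ι → ℝ, (∀ i j, ∑ k, A i k * A j k = cov[V i, V j; P]) ∧
      ∀ G : (ι → ℝ) → ℝ≥0∞, Measurable G →
        ∫⁻ ω, G (fun i => V i ω) ∂P = ∫⁻ z, G (fun i => P[V i] + ∑ k, A i k * z k) ∂gam ι := by
  classical
  have := hV.isProbabilityMeasure
  have hL : ∀ i, MemLp (V i) 2 P := fun i => (hV.eval i).memLp_two
  let S : Matrix ι ι ℝ := fun i j => cov[V i, V j; P]
  have hbil : ∀ x y : EuclideanSpace ℝ ι,
      covarianceBilin (P.map fun ω => WithLp.toLp 2 (V · ω)) x y = x ⬝ᵥ S *ᵥ y := by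
    intro x y
    rw [covarianceBilin_apply_pi hL]
    simp only [dotProduct, mulVec, Finset.mul_sum, S]
    exact Finset.sum_congr rfl fun i _ => Finset.sum_congr rfl fun j _ => by ring
  have hS : S.PosSemidef := by
    rw [Matrix.posSemidef_iff_dotProduct_mulVec]
    refine ⟨?_, fun x => ?_⟩
    · ext i j
      simp [S, covariance_comm]
    · have := covarianceBilin_self_nonneg (μ := P.map fun ω => WithLp.toLp 2 (V · ω))
        (WithLp.toLp 2 x)
      rw [hbil] at this
      simpa using this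
  have hG := (hV.toLp_pi 2).isGaussian_map
  have hlaw : (P.map fun ω => WithLp.toLp 2 (V · ω)) =
      multivariateGaussian (WithLp.toLp 2 fun i => P[V i]) S := by
    refine IsGaussian.ext ?_ ?_
    · rw [integral_id_multivariateGaussian', integral_map (hV.toLp_pi 2).aemeasurable
        aestronglyMeasurable_id]
      ext i
      have h1 := (EuclideanSpace.proj (𝕜 := ℝ) i).integral_comp_comm
        (hV.toLp_pi 2).integrable
      simpa using h1.symm
    · ext x y
      rw [hbil, covarianceBilin_multivariateGaussian hS]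
  have hsq : CFC.sqrt S * CFC.sqrt S = S := CFC.sqrt_mul_sqrt_self _ hS.nonneg
  have hsym : ∀ i j, CFC.sqrt S i j = CFC.sqrt S j i := fun i j => by
    have h := (CFC.sqrt_nonneg S).isSelfAdjoint
    have := congrFun (congrFun h.star_eq j) i
    simpa [Matrix.star_apply] using this
  refine ⟨fun i k => CFC.sqrt S i k, fun i j => ?_, fun G hG => ?_⟩
  · have := congrFun (congrFun hsq i) j
    rw [Matrix.mul_apply] at this
    simp only [hsym j]
    exact this
  · have hG' : Measurable fun x : EuclideanSpace ℝ ι => G x.ofLp := by fun_prop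
    have e1 : ∫⁻ ω, G (fun i => V i ω) ∂P =
        ∫⁻ x, G x.ofLp ∂(P.map fun ω => WithLp.toLp 2 (V · ω)) := by
      rw [lintegral_map' hG'.aemeasurable (hV.toLp_pi 2).aemeasurable]
    rw [e1, hlaw, multivariateGaussian, lintegral_map hG' (by fun_prop), ← map_pi_eq_stdGaussian,
      lintegral_map (by fun_prop) (by fun_prop)]
    refine lintegral_congr fun z => ?_
    congr 1

lemma sum_sq_gram (A : ι → ι → ℝ) (c : ι → ℝ) :
    ∑ k, (∑ i, c i * A i k) ^ 2 = ∑ i, ∑ j, c i * c j * ∑ k, A i k * A j k := by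
  simp only [sq, Finset.sum_mul_sum]
  rw [Finset.sum_comm]
  refine Finset.sum_congr rfl fun i _ => ?_
  rw [Finset.sum_comm]
  refine Finset.sum_congr rfl fun j _ => ?_
  rw [Finset.mul_sum]
  exact Finset.sum_congr rfl fun k _ => by ring

/-- Cameron-Martin formula for a Gaussian vector. -/
lemma tilt {V : ι → Ω → ℝ} (hV : HasGaussianLaw (fun ω i => V i ω) P) (c : ι → ℝ)
    {G : (ι → ℝ) → ℝ≥0∞} (hG : Measurable G) :
    ∫⁻ ω, ex (∑ i, c i * V i ω) * G (fun i => V i ω) ∂P =
      ex (∑ i, c i * P[V i] + (∑ i, ∑ j, c i * c j * cov[V i, V j; P]) / 2) *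
        ∫⁻ ω, G (fun i => V i ω + ∑ j, cov[V i, V j; P] * c j) ∂P := by
  obtain ⟨A, hA, hrep⟩ := exists_rep hV
  rw [hrep (fun x => ex (∑ i, c i * x i) * G x) (by fun_prop),
    hrep (fun x => G fun i => x i + ∑ j, cov[V i, V j; P] * c j) (by fun_prop)]
  let h : ι → ℝ := fun k => ∑ i, c i * A i k
  have h1 : ∑ k, h k ^ 2 = ∑ i, ∑ j, c i * c j * cov[V i, V j; P] := by
    simp only [h, sum_sq_gram, hA]
  have h2 : ∀ i, ∑ k, A i k * h k = ∑ j, cov[V i, V j; P] * c j := by
    intro i
    simp only [h, ← hA, Finset.mul_sum, Finset.sum_mul]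
    rw [Finset.sum_comm]
    exact Finset.sum_congr rfl fun j _ => Finset.sum_congr rfl fun k _ => by ring
  have h3 := gam_shift h (G := fun z => G fun i => P[V i] + ∑ k, A i k * z k) (by fun_prop)
  simp only [mul_add, Finset.sum_add_distrib, h2, ← add_assoc] at h3
  rw [← h3, ← lintegral_const_mul _ (by fun_prop)]
  refine lintegral_congr fun z => ?_
  rw [← mul_assoc, ← ex_add, ← h1]
  congr 2
  have h4 : ∑ k, h k * z k = ∑ i, c i * ∑ k, A i k * z k := by
    simp only [h, Finset.mul_sum, Finset.sum_mul]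
    rw [Finset.sum_comm]
    exact Finset.sum_congr rfl fun j _ => Finset.sum_congr rfl fun k _ => by ring
  simp only [mul_add, Finset.sum_add_distrib, Finset.sum_sub_distrib, ← Finset.sum_div, h4]
  ring

/-- Lower tail of a sum of exponentials of a Gaussian vector. -/
lemma neg_fin {V : ι → Ω → ℝ} (hV : HasGaussianLaw (fun ω i => V i ω) P) (w : ι → ℝ)
    (hw : ∀ i, 0 ≤ w i) {a b p : ℝ} (ha : 0 < a) (hp : 0 ≤ p) {F : (ι → ℝ) → ℝ≥0∞}
    (hF : Measurable F) (hF1 : ∀ x, F x ≤ 1)
    (hFA : ∀ x, F x ≠ 0 → a ≤ ∑ i, w i * Real.exp (x i) ∧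
      ∑ i, ∑ j, w i * Real.exp (x i) * (w j * Real.exp (x j)) * cov[V i, V j; P] ≤ b * a ^ 2) :
    (∫⁻ ω, F (fun i => V i ω) ∂P) *
        ∫⁻ ω, ENNReal.ofReal (∑ i, w i * Real.exp (V i ω)) ^ (-p) ∂P ≤
      ENNReal.ofReal a ^ (-p) * ex (p ^ 2 * b) := by
  obtain ⟨A, hA, hrep⟩ := exists_rep hV
  rw [hrep F hF, hrep (fun x => ENNReal.ofReal (∑ i, w i * Real.exp (x i)) ^ (-p)) (by fun_prop)]
  refine tau (by fun_prop) (by fun_prop) _ fun z y => ?_
  by_cases h0 : F (fun i => P[V i] + ∑ k, A i k * z k) = 0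
  · rw [h0, zero_mul]
    exact zero_le
  obtain ⟨h1, h2⟩ := hFA _ h0
  set e : ι → ℝ := fun i => w i * Real.exp (P[V i] + ∑ k, A i k * z k) with he
  have he0 : ∀ i, 0 ≤ e i := fun i => mul_nonneg (hw i) (Real.exp_pos _).le
  set M := ∑ i, e i with hM
  have hM0 : 0 < M := ha.trans_le h1
  let g : ι → ℝ := fun k => (∑ i, e i * A i k) / M
  let c : ℝ := ∑ k, g k * (y k - z k)
  have hg : ∑ k, g k ^ 2 ≤ b := by
    have h3 : ∑ k, g k ^ 2 = (∑ i, ∑ j, e i * e j * cov[V i, V j; P]) / M ^ 2 := by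
      simp only [g, div_pow, ← Finset.sum_div, sum_sq_gram, hA]
    have h4 : 0 ≤ ∑ k, g k ^ 2 := Finset.sum_nonneg fun k _ => sq_nonneg _
    have hb : 0 ≤ b := by
      rw [h3] at h4
      have h5 := (div_nonneg_iff.mp h4).elim (fun h => h.1)
        (fun h => absurd h.2 (not_le.mpr (by positivity)))
      exact nonneg_of_mul_nonneg_left (h5.trans h2) (by positivity)
    rw [h3, div_le_iff₀ (by positivity)]
    exact h2.trans (mul_le_mul_of_nonneg_left (pow_le_pow_left₀ ha.le h1 2) hb)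
  have hc : ∑ i, e i * ∑ k, A i k * (y k - z k) = M * c := by
    simp only [c, g, Finset.mul_sum]
    rw [Finset.sum_comm]
    refine Finset.sum_congr rfl fun k _ => ?_
    rw [← mul_assoc, mul_div_cancel₀ _ hM0.ne', Finset.sum_mul]
    exact Finset.sum_congr rfl fun i _ => by ring
  have hJ : a * Real.exp c ≤ ∑ i, w i * Real.exp (P[V i] + ∑ k, A i k * y k) := by
    have h5 : ∀ i, e i * (Real.exp c * (1 + (∑ k, A i k * (y k - z k) - c))) ≤
        w i * Real.exp (P[V i] + ∑ k, A i k * y k) := by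
      intro i
      have h6 : w i * Real.exp (P[V i] + ∑ k, A i k * y k) =
          e i * (Real.exp c * Real.exp (∑ k, A i k * (y k - z k) - c)) := by
        simp only [he, mul_assoc, ← Real.exp_add, mul_sub, Finset.sum_sub_distrib]
        congr 2
        ring
      rw [h6]
      refine mul_le_mul_of_nonneg_left (mul_le_mul_of_nonneg_left ?_ (Real.exp_pos _).le) (he0 i)
      rw [add_comm]
      exact Real.add_one_le_exp _
    refine le_trans ?_ (Finset.sum_le_sum fun i _ => h5 i)
    have h7 : ∑ i, e i * (Real.exp c * (1 + (∑ k, A i k * (y k - z k) - c))) =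
        Real.exp c * (M + (∑ i, e i * ∑ k, A i k * (y k - z k) - M * c)) := by
      simp only [hM, Finset.sum_mul, ← Finset.sum_sub_distrib, ← Finset.sum_add_distrib]
      rw [Finset.mul_sum]
      exact Finset.sum_congr rfl fun i _ => by ring
    rw [h7, hc, sub_self, add_zero, mul_comm]
    exact mul_le_mul_of_nonneg_left h1 (Real.exp_pos _).le
  have hq : c * -p ≤ p ^ 2 * b + ∑ i, (z i - y i) ^ 2 / 4 := by
    have h8 : c * -p ≤ ∑ k, (p ^ 2 * g k ^ 2 + (z k - y k) ^ 2 / 4) := by
      simp only [c, Finset.sum_mul]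
      exact Finset.sum_le_sum fun k _ => by nlinarith [sq_nonneg (p * g k - (z k - y k) / 2)]
    rw [Finset.sum_add_distrib, ← Finset.mul_sum] at h8
    nlinarith [sq_nonneg p]
  calc _ ≤ 1 * (ENNReal.ofReal a * ex c) ^ (-p) := by
        refine mul_le_mul' (hF1 _) ?_
        rw [ex, ← ENNReal.ofReal_mul ha.le, ENNReal.rpow_neg, ENNReal.rpow_neg]
        exact ENNReal.inv_le_inv.mpr (ENNReal.rpow_le_rpow (ENNReal.ofReal_le_ofReal hJ) hp)
    _ = ENNReal.ofReal a ^ (-p) * ex (c * -p) := by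
        rw [one_mul, ENNReal.mul_rpow_of_ne_top ENNReal.ofReal_ne_top (ex_ne_top _), ex_rpow]
    _ ≤ _ := by
        rw [mul_assoc, ← ex_add]
        exact mul_le_mul' le_rfl (ex_mono hq)

end Pool.Agent.Lib.MP_e22585_pr
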