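import Pool.Agent.Lib.MP_e22585_pr.Sample

/-!
# The logarithmic scale function on the interval and on the circle
-/

set_option autoImplicit false

noncomputable section

open MeasureTheory ProbabilityTheory Filter Set
open scoped ENNReal NNReal Topology

namespace Pool.Agent.Lib.MP_e22585_pr

/-- Distance on the interval (`b = false`) or on the circle (`b = true`). -/
def dd (b : Bool) (s t : ℝ) : ℝ := if b then min |s - t| (1 - |s - t|) else |s - t|

/-- The logarithmic scale separating `s` and `t`, cut at `ε`. -/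
def LL (b : Bool) (ε s t : ℝ) : ℝ := -Real.log (max (dd b s t) ε)

/-- The ball of depth `x`. -/
def bl (b : Bool) (ε s x : ℝ) : Set ℝ := {u | x ≤ LL b ε s u}

variable {b : Bool} {ε s t u x : ℝ}

lemma dd_symm (b : Bool) (s t : ℝ) : dd b s t = dd b t s := by
  simp only [dd, abs_sub_comm s t]

lemma dd_le (b : Bool) (s t : ℝ) : dd b s t ≤ |s - t| := by
  unfold dd
  split_ifs
  exacts [min_le_left _ _, le_rfl]

lemma abs_lt_one' (hs : s ∈ Ico (0 : ℝ) 1) (ht : t ∈ Ico (0 : ℝ) 1) : |s - t| < 1 :=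
  abs_sub_lt_iff.mpr ⟨by linarith [hs.2, ht.1], by linarith [hs.1, ht.2]⟩

lemma dd_tri (hs : s ∈ Ico (0 : ℝ) 1) (ht : t ∈ Ico (0 : ℝ) 1) (hu : u ∈ Ico (0 : ℝ) 1) :
    dd b t u ≤ dd b s t + dd b s u := by
  obtain ⟨h1, h2⟩ := hs
  obtain ⟨h3, h4⟩ := ht
  obtain ⟨h5, h6⟩ := hu
  unfold dd
  split_ifs
  · rcases abs_cases (t - u) with h | h <;> rcases abs_cases (s - t) with h' | h' <;>
      rcases abs_cases (s - u) with h'' | h'' <;> rw [h.1, h'.1, h''.1] <;>
      simp only [min_def] <;> split_ifs <;> linarith [h.2, h'.2, h''.2]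
  · rw [abs_sub_comm s t]
    exact abs_sub_le _ _ _

lemma measurable_dd (b : Bool) (s : ℝ) : Measurable (dd b s) := by
  unfold dd
  split_ifs <;> fun_prop

lemma measurable_LL (b : Bool) (ε s : ℝ) : Measurable (LL b ε s) :=
  (((measurable_dd b s).max measurable_const).log).neg

lemma measurableSet_bl (b : Bool) (ε s x : ℝ) : MeasurableSet (bl b ε s x) :=
  measurableSet_le measurable_const (measurable_LL b ε s)

lemma LL_symm (b : Bool) (ε s t : ℝ) : LL b ε s t = LL b ε t s := by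
  simp only [LL, dd_symm b s t]

lemma le_LL (hε : 0 < ε) : x ≤ LL b ε s u ↔ dd b s u ≤ Real.exp (-x) ∧ ε ≤ Real.exp (-x) := by
  rw [LL, le_neg, Real.log_le_iff_le_exp (lt_max_of_lt_right hε), max_le_iff]

lemma LL_nonneg (hε : 0 < ε) (hε1 : ε ≤ 1) (hs : s ∈ Ico (0 : ℝ) 1) (hu : u ∈ Ico (0 : ℝ) 1) :
    0 ≤ LL b ε s u := by
  rw [le_LL hε, neg_zero, Real.exp_zero]
  exact ⟨(dd_le _ _ _).trans (abs_lt_one' hs hu).le, hε1⟩

lemma LL_le (hε : 0 < ε) : LL b ε s u ≤ -Real.log ε :=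
  neg_le_neg (Real.log_le_log hε (le_max_right _ _))

lemma two_le_e : (2 : ℝ) ≤ Real.exp 1 := by linarith [Real.add_one_le_exp (1 : ℝ)]

lemma LL_ultra (hε : 0 < ε) (hs : s ∈ Ico (0 : ℝ) 1) (ht : t ∈ Ico (0 : ℝ) 1)
    (hu : u ∈ Ico (0 : ℝ) 1) (h1 : x ≤ LL b ε s t) (h2 : x ≤ LL b ε s u) :
    x - 1 ≤ LL b ε t u := by
  rw [le_LL hε] at h1 h2 ⊢
  have h3 : 2 * Real.exp (-x) ≤ Real.exp (-(x - 1)) := by
    rw [show -(x - 1) = 1 + -x by ring, Real.exp_add]
    exact mul_le_mul_of_nonneg_right two_le_e (Real.exp_pos _).le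
  have h4 := Real.exp_pos (-x)
  exact ⟨by linarith [dd_tri (b := b) hs ht hu, h1.1, h2.1], by linarith [h1.2]⟩

lemma nu_le (S : Set ℝ) : nu S ≤ volume S := Measure.restrict_le_self S

lemma nu_bl_le (hε : 0 < ε) (hs : s ∈ Ico (0 : ℝ) 1) : nu (bl b ε s x) ≤ ex (2 - x) := by
  set ρ := Real.exp (-x) with hρ
  have hρ0 : 0 < ρ := Real.exp_pos _
  have h1 : bl b ε s x ≤ᵐ[nu] (Icc (s - ρ) (s + ρ) ∪ (Icc 0 ρ ∪ Icc (1 - ρ) 1) : Set ℝ) := by
    filter_upwards [ae_nu] with u hu hx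
    have h2 := ((le_LL hε).mp hx).1
    have h3 : |s - u| ≤ ρ ∨ 1 - |s - u| ≤ ρ := by
      unfold dd at h2
      split_ifs at h2
      exacts [min_le_iff.mp h2, Or.inl h2]
    rcases h3 with h3 | h3
    · exact Or.inl ⟨by linarith [(abs_le.mp h3).2], by linarith [(abs_le.mp h3).1]⟩
    · rcases abs_cases (s - u) with h | h
      · exact Or.inr (Or.inl ⟨hu.1, by linarith [hs.2, h.1]⟩)
      · exact Or.inr (Or.inr ⟨by linarith [hs.1, h.1], hu.2.le⟩)
  refine (measure_mono_ae h1).trans ((nu_le _).trans ((measure_union_le _ _).trans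
    ((add_le_add le_rfl (measure_union_le _ _)).trans ?_)))
  simp only [Real.volume_Icc]
  rw [← ENNReal.ofReal_add (by linarith) (by linarith),
    ← ENNReal.ofReal_add (by linarith) (by linarith)]
  refine ENNReal.ofReal_le_ofReal ?_
  rw [show 2 - x = 1 + 1 + -x by ring, Real.exp_add, Real.exp_add]
  nlinarith [two_le_e, mul_le_mul two_le_e two_le_e (by norm_num) (Real.exp_pos 1).le]

lemma le_nu_bl (hε : 0 < ε) (hs : s ∈ Ico (0 : ℝ) 1) (hx : 0 ≤ x) (hεx : ε ≤ Real.exp (-x)) :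
    ex (-1 - x) ≤ nu (bl b ε s x) := by
  set ρ := Real.exp (-x) with hρ
  have hρ0 : 0 < ρ := Real.exp_pos _
  have hρ1 : ρ ≤ 1 := Real.exp_le_one_iff.mpr (by linarith)
  obtain ⟨a, ha0, ha1, ha2, ha3⟩ : ∃ a : ℝ, 0 ≤ a ∧ a + ρ / 2 ≤ 1 ∧ s - ρ ≤ a ∧ a + ρ / 2 ≤ s + ρ := by
    rcases le_total s (1 / 2) with h | h
    · exact ⟨s, hs.1, by linarith, by linarith, by linarith⟩
    · exact ⟨s - ρ / 2, by linarith, by linarith [hs.2], by linarith, by linarith⟩
  have h1 : Ico a (a + ρ / 2) ⊆ bl b ε s x ∩ Ico 0 1 := fun u hu =>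
    ⟨(le_LL hε).mpr ⟨(dd_le _ _ _).trans (abs_le.mpr ⟨by linarith [hu.2], by linarith [hu.1]⟩),
      hεx⟩, by linarith [hu.1], by linarith [hu.2]⟩
  rw [nu, Measure.restrict_apply (measurableSet_bl _ _ _ _)]
  refine le_trans ?_ (measure_mono h1)
  rw [Real.volume_Ico]
  refine ENNReal.ofReal_le_ofReal ?_
  rw [show -1 - x = -x - 1 by ring, Real.exp_sub, add_sub_cancel_left]
  exact div_le_div_of_nonneg_left hρ0.le (by norm_num) two_le_e

/-- A net at depth `k`. -/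
lemma exists_net (hε : 0 < ε) (hx : 0 ≤ x) (hεx : ε ≤ Real.exp (-x)) :
    ∃ S : Finset ℝ, (S.card : ℝ≥0∞) ≤ ex (1 + x) ∧ (∀ c ∈ S, c ∈ Ico (0 : ℝ) 1) ∧
      ∀ s ∈ Ico (0 : ℝ) 1, ∃ c ∈ S, x ≤ LL b ε c s := by
  classical
  set n := ⌈Real.exp x⌉₊ with hn
  have h1 : 1 ≤ Real.exp x := Real.one_le_exp hx
  have hn1 : Real.exp x ≤ n := Nat.le_ceil _
  have hn2 : (n : ℝ) < Real.exp x + 1 := Nat.ceil_lt_add_one (by linarith)
  have hn0 : (0 : ℝ) < n := by linarith
  refine ⟨(Finset.range n).image fun j : ℕ => (j : ℝ) / n, ?_, ?_, ?_⟩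
  · refine (Nat.cast_le.mpr (Finset.card_image_le.trans (Finset.card_range n).le)).trans ?_
    rw [← ENNReal.ofReal_natCast]
    refine ENNReal.ofReal_le_ofReal ?_
    rw [Real.exp_add]
    nlinarith [two_le_e]
  · intro c hc
    obtain ⟨j, hj, rfl⟩ := Finset.mem_image.mp hc
    exact ⟨by positivity, (div_lt_one hn0).mpr (Nat.cast_lt.mpr (Finset.mem_range.mp hj))⟩
  · intro s hs
    have h2 : 0 ≤ s * n := mul_nonneg hs.1 hn0.le
    refine ⟨(⌊s * n⌋₊ : ℝ) / n, Finset.mem_image_of_mem _ (Finset.mem_range.mpr ?_), ?_⟩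
    · rw [Nat.floor_lt h2]
      nlinarith [hs.2]
    · refine (le_LL hε).mpr ⟨(dd_le _ _ _).trans ?_, hεx⟩
      have h3 := Nat.floor_le h2
      have h4 := Nat.lt_floor_add_one (s * n)
      have h5 : (⌊s * n⌋₊ : ℝ) / n - s = ((⌊s * n⌋₊ : ℝ) - s * n) / n := by field_simp
      rw [h5, abs_div, abs_of_pos hn0, Real.exp_neg, div_le_iff₀ hn0]
      have h6 : 1 ≤ (Real.exp x)⁻¹ * n := by
        rw [inv_mul_eq_div, le_div_iff₀ (Real.exp_pos _)]
        linarith
      exact abs_le.mpr ⟨by linarith, by linarith⟩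

lemma tsum_ex_ne_top {l : ℝ} (hl : 0 < l) : ∑' k : ℕ, ex (-(l * k)) ≠ ∞ := by
  have h1 : ∀ k : ℕ, ex (-(l * k)) = ex (-l) ^ k := fun k => by
    rw [← ENNReal.rpow_natCast, ex_rpow, neg_mul]
  simp only [h1, ENNReal.tsum_geometric]
  refine ENNReal.inv_ne_top.mpr (tsub_pos_iff_lt.mpr ?_).ne'
  exact ENNReal.ofReal_lt_one.mpr (Real.exp_lt_one_iff.mpr (by linarith))

lemma exists_le_ex {a : ℝ≥0∞} (ha : a ≠ ∞) : ∃ C : ℝ, a ≤ ex C :=
  ⟨a.toReal, (ENNReal.ofReal_toReal ha).ge.trans (ENNReal.ofReal_le_ofReal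
    (by linarith [Real.add_one_le_exp a.toReal]))⟩

/-- Logarithmic integrability at all scales. -/
lemma exists_int_LL : ∃ C : ℝ, ∀ (b : Bool) (ε s x : ℝ), 0 < ε → s ∈ Ico (0 : ℝ) 1 →
    ∫⁻ u, ENNReal.ofReal (LL b ε s u - x) ∂nu ≤ ex (C - x) := by
  obtain ⟨C, hC⟩ := exists_le_ex (tsum_ex_ne_top one_pos)
  refine ⟨C + 2, fun b ε s x hε hs => ?_⟩
  have h1 : ∀ u, ENNReal.ofReal (LL b ε s u - x) ≤
      ∑' k : ℕ, (bl b ε s (x + k)).indicator 1 u := by
    intro u
    set n := ⌈LL b ε s u - x⌉₊ with hn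
    refine le_trans ?_ (ENNReal.sum_le_tsum (Finset.range n))
    rw [Finset.sum_congr rfl (g := fun _ => 1), Finset.sum_const, Finset.card_range, nsmul_one,
      ← ENNReal.ofReal_natCast]
    · exact ENNReal.ofReal_le_ofReal (Nat.le_ceil _)
    · intro k hk
      have h2 := Nat.lt_ceil.mp (Finset.mem_range.mp hk)
      exact indicator_of_mem (show x + k ≤ LL b ε s u by linarith) (1 : ℝ → ℝ≥0∞)
  refine (lintegral_mono h1).trans ?_
  rw [lintegral_tsum fun k => (measurable_one.indicator (measurableSet_bl _ _ _ _)).aemeasurable]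
  calc _ ≤ ∑' k : ℕ, ex (-(1 * k)) * ex (2 - x) := by
        refine ENNReal.tsum_le_tsum fun k => ?_
        rw [lintegral_indicator_one (measurableSet_bl _ _ _ _), ← ex_add]
        exact (nu_bl_le hε hs).trans (ex_mono (by linarith))
    _ ≤ ex C * ex (2 - x) := by
        rw [ENNReal.tsum_mul_right]
        exact mul_le_mul' hC le_rfl
    _ = _ := by
        rw [← ex_add]
        congr 1
        ring

/-- Well spread points in a ball. -/
lemma exists_spread : ∃ C : ℝ, ∀ (b : Bool) (ε s x : ℝ), 0 < ε → s ∈ Ico (0 : ℝ) 1 → 0 ≤ x →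
    ε ≤ Real.exp (-x) → ∀ N : ℕ, ∃ t : Fin N → ℝ, (∀ i, t i ∈ Ico (0 : ℝ) 1 ∧ x ≤ LL b ε s (t i)) ∧
      ∑ i, ∑ j, LL b ε (t i) (t j) ≤ N * -Real.log ε + N ^ 2 * (x + C) := by
  obtain ⟨C, hC⟩ := exists_int_LL
  refine ⟨Real.exp (C + 1), fun b ε s x hε hs hx hεx N => ?_⟩
  induction N with
  | zero => exact ⟨Fin.elim0, fun i => i.elim0, by simp⟩
  | succ N ih =>
    obtain ⟨t, ht, hsum⟩ := ih
    have hlo := le_nu_bl (b := b) hε hs hx hεx
    have h0 : nu (bl b ε s x) ≠ 0 := fun h => ex_ne_zero _ (le_antisymm (h ▸ hlo) zero_le)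
    have hm : ∀ j, Measurable fun u => ENNReal.ofReal (LL b ε (t j) u - x) := fun j =>
      ((measurable_LL _ _ _).sub_const _).ennreal_ofReal
    obtain ⟨u, hu, hu1⟩ : ∃ u, (u ∈ Ico (0 : ℝ) 1 ∧ x ≤ LL b ε s u) ∧
        ∑ j, ENNReal.ofReal (LL b ε (t j) u - x) ≤ N * ex (C + 1) := by
      by_contra hcon
      simp only [not_exists, not_and, not_le, and_imp] at hcon
      have h2 : ∫⁻ _ in bl b ε s x, N * ex (C + 1) ∂nu <
          ∫⁻ u in bl b ε s x, ∑ j, ENNReal.ofReal (LL b ε (t j) u - x) ∂nu := by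
        refine lintegral_strict_mono (by simpa using h0)
          (Finset.measurable_sum _ fun j _ => hm j).aemeasurable ?_ ?_
        · simp only [lintegral_const, Measure.restrict_apply_univ]
          exact ENNReal.mul_ne_top (ENNReal.mul_ne_top (by simp) (ex_ne_top _)) (measure_ne_top _ _)
        · filter_upwards [ae_restrict_mem (measurableSet_bl b ε s x), ae_restrict_of_ae ae_nu]
            with u h3 h4 using hcon u h4 h3
      refine absurd h2 (not_lt.mpr ?_)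
      refine (setLIntegral_le_lintegral _ _).trans ?_
      rw [lintegral_finsetSum _ fun j _ => hm j, lintegral_const, Measure.restrict_apply_univ]
      refine (Finset.sum_le_sum fun j _ => hC b ε (t j) x hε (ht j).1).trans ?_
      rw [Finset.sum_const, Finset.card_univ, Fintype.card_fin, nsmul_eq_mul, mul_assoc]
      refine mul_le_mul' le_rfl (le_trans ?_ (mul_le_mul' le_rfl hlo))
      rw [← ex_add]
      exact ex_mono (by linarith)
    have h3 : ∑ j, LL b ε (t j) u ≤ N * (x + Real.exp (C + 1)) := by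
      have h4 : ENNReal.ofReal (∑ j, (LL b ε (t j) u - x)) ≤
          ENNReal.ofReal (N * Real.exp (C + 1)) := by
        rw [ENNReal.ofReal_mul (Nat.cast_nonneg _), ENNReal.ofReal_natCast]
        refine le_trans ?_ hu1
        refine (ENNReal.ofReal_le_ofReal (Finset.sum_le_sum fun j _ => le_max_left _ 0)).trans ?_
        rw [ENNReal.ofReal_sum_of_nonneg fun j _ => le_max_right _ _]
        exact Finset.sum_le_sum fun j _ => by simp [ENNReal.ofReal_max]
      rw [ENNReal.ofReal_le_ofReal_iff (by positivity), Finset.sum_sub_distrib, Finset.sum_const,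
        Finset.card_univ, Fintype.card_fin, nsmul_eq_mul] at h4
      linarith
    refine ⟨Fin.cons u t, fun i => Fin.cases hu ht i, ?_⟩
    simp only [Fin.sum_univ_succ, Fin.cons_zero, Fin.cons_succ, Finset.sum_add_distrib,
      LL_symm b ε u (t _)]
    have h5 := LL_le (b := b) (s := u) (u := u) hε
    have h6 := Real.exp_pos (C + 1)
    push_cast
    nlinarith

end Pool.Agent.Lib.MP_e22585_pr
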