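import Pool.Agent.Lib.MP_e22585_pr.Conv

/-!
# Passage to the limit for singular weights
-/

set_option autoImplicit false

noncomputable section

open MeasureTheory ProbabilityTheory Filter Set
open scoped ENNReal NNReal Topology BoundedContinuousFunction

namespace Pool.Agent.Lib.MP_e22585_pr

variable {Ω Ω' : Type*} [MeasurableSpace Ω] [MeasurableSpace Ω'] {P : Measure Ω} {P' : Measure Ω'}
  [IsProbabilityMeasure P] [IsProbabilityMeasure P']

/-- `M` is the limit in law of the regularized chaos measures. -/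
structure Lim (P : Measure Ω) (P' : Measure Ω') [IsProbabilityMeasure P] [IsProbabilityMeasure P']
    (X : ℝ → ℝ → Ω → ℝ) (M : Ω' → Measure ℝ) : Prop where
  meas : Measurable M
  fin : ∀ᵐ ω ∂P', IsFiniteMeasure (M ω)
  conv : ∀ f : ℝ →ᵇ ℝ, TendstoInDistribution (fun ε ω => ∫ u, f u * Real.exp (X ε u ω) ∂nu)
    (𝓝[>] 0) (fun ω => ∫ u, f u ∂M ω) (fun _ => P) P'

variable {X : ℝ → ℝ → Ω → ℝ} {K : ℝ → ℝ → ℝ → ℝ} {v : ℝ → ℝ} {M : Ω' → Measure ℝ}

lemma Lim.measI (h : Lim P P' X M) {z : ℝ → ℝ≥0∞} (hz : Measurable z) :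
    Measurable fun ω => ∫⁻ u, z u ∂M ω := (Measure.measurable_lintegral hz).comp h.meas

lemma Lim.cont (h : Lim P P' X M) (hf : ∀ᶠ ε in 𝓝[>] (0 : ℝ), Fld P (X ε) (K ε) (v ε))
    (g : ℝ →ᵇ ℝ) : Conv P P' (fun ε => mass (X ε) fun u => ENNReal.ofReal (g u))
      fun ω => ∫⁻ u, ENNReal.ofReal (g u) ∂M ω := by
  have h0 : ∀ u, 0 ≤ g⁺ u := fun u => le_max_right _ _
  have h1 : ∀ u, ENNReal.ofReal (g⁺ u) = ENNReal.ofReal (g u) := fun u => by
    show ENNReal.ofReal (max (g u) 0) = _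
    simp [ENNReal.ofReal_max]
  have hg : Measurable fun u => ENNReal.ofReal (g u) := g.continuous.measurable.ennreal_ofReal
  refine conv_of_distr (h.conv g⁺) (hf.mono fun ε hε => ?_) (h.fin.mono fun ω hω => ?_)
  · have h2 : ∫⁻ ω, mass (X ε) (fun u => ENNReal.ofReal (g u)) ω ∂P ≠ ∞ := by
      rw [hε.lintegral_mass hg]
      exact (g.integrable nu).lintegral_lt_top.ne
    filter_upwards [ae_lt_top (hε.meas_mass hg) h2] with ω hω
    have h3 : ∫⁻ u, ENNReal.ofReal (g⁺ u * Real.exp (X ε u ω)) ∂nu =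
        mass (X ε) (fun u => ENNReal.ofReal (g u)) ω :=
      lintegral_congr fun u => by rw [ENNReal.ofReal_mul (h0 u), h1, ex]
    have h4 : 0 ≤ᵐ[nu] fun u => g⁺ u * Real.exp (X ε u ω) :=
      Eventually.of_forall fun u => mul_nonneg (h0 u) (Real.exp_pos _).le
    exact (ofReal_integral_eq_lintegral_ofReal ((lintegral_ofReal_ne_top_iff_integrable
      (g⁺.continuous.measurable.mul (hε.measX' ω).exp).aestronglyMeasurable h4).mp
        (h3.trans_ne hω.ne)) h4).trans h3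
  · rw [ofReal_integral_eq_lintegral_ofReal (g⁺.integrable _) (Eventually.of_forall h0)]
    simp only [h1]

lemma Lim.intensity (h : Lim P P' X M) (hf : ∀ᶠ ε in 𝓝[>] (0 : ℝ), Fld P (X ε) (K ε) (v ε))
    {z : ℝ → ℝ≥0∞} (hz : Measurable z) : ∫⁻ ω, ∫⁻ u, z u ∂M ω ∂P' ≤ ∫⁻ u, z u ∂nu := by
  have h1 : ∀ g : ℝ →ᵇ ℝ≥0, ∫⁻ u, g u ∂P'.bind M ≤ ∫⁻ u, g u ∂nu := fun g => by
    have hg : Measurable fun u => (g u : ℝ≥0∞) := g.continuous.measurable.coe_nnreal_ennreal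
    have h2 := h.cont hf (g.comp NNReal.toReal NNReal.isometry_coe.lipschitz)
    simp only [BoundedContinuousFunction.comp_apply, ENNReal.ofReal_coe_nnreal] at h2
    rw [Measure.lintegral_bind h.meas.aemeasurable hg.aemeasurable]
    exact h2.fatou (h.measI hg) (hf.mono fun ε hε => (hε.lintegral_mass hg).le)
  have h2 : ∀ F, IsClosed F → P'.bind M F ≤ nu F := fun F hF =>
    ge_of_tendsto' (HasOuterApproxClosed.tendsto_lintegral_apprSeq hF nu) fun n =>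
      (HasOuterApproxClosed.measure_le_lintegral hF _ n).trans (h1 _)
  have : IsFiniteMeasure (P'.bind M) := ⟨(h2 _ isClosed_univ).trans_lt (measure_lt_top _ _)⟩
  rw [← Measure.lintegral_bind h.meas.aemeasurable hz.aemeasurable]
  refine lintegral_mono' (Measure.le_iff.mpr fun A hA => ?_) le_rfl
  rw [hA.measure_eq_iSup_isClosed_of_ne_top (measure_ne_top _ _)]
  exact iSup_le fun F => iSup_le fun hFA => iSup_le fun hF => (h2 F hF).trans (measure_mono hFA)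

omit [IsProbabilityMeasure P] in
lemma bdd_int {G : ℝ≥0∞ → ℝ≥0∞} {B : ℝ≥0∞} (hB : B ≠ ∞) (hGB : ∀ x, G x ≤ B) (W : Ω' → ℝ≥0∞) :
    ∫⁻ ω, G (W ω) ∂P' ≠ ∞ :=
  ne_top_of_le_ne_top hB ((lintegral_mono fun _ => hGB _).trans (by simp))

lemma Lim.integrable (h : Lim P P' X M) (hf : ∀ᶠ ε in 𝓝[>] (0 : ℝ), Fld P (X ε) (K ε) (v ε))
    {f : ℝ → ℝ≥0∞} (hm : Measurable f) (hne : ∀ u, f u ≠ ∞) (hfin : ∫⁻ u, f u ∂nu ≠ ∞) :
    Conv P P' (fun ε => mass (X ε) f) fun ω => ∫⁻ u, f u ∂M ω := by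
  intro G hG B hB hGB
  refine tendsto_of_approx (bdd_int hB hGB _) fun η hη => ?_
  obtain ⟨δ1, hδ1, h1⟩ := unif_near hG hB hGB hη
  obtain ⟨δ2, hδ2, h2⟩ := unif_near hG hB hGB hη
  obtain ⟨g, hg, -⟩ := (integrable_toReal_of_lintegral_ne_top hm.aemeasurable
    hfin).exists_boundedContinuous_lintegral_sub_le (ε := min δ1 δ2)
      (lt_min (pos_iff_ne_zero.mpr hδ1) (pos_iff_ne_zero.mpr hδ2)).ne'
  have hz : Measurable fun u => ‖(f u).toReal - g u‖ₑ :=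
    (hm.ennreal_toReal.sub g.continuous.measurable).enorm
  have h3 : ∀ u, f u ≤ ENNReal.ofReal (g u) + ‖(f u).toReal - g u‖ₑ ∧
      ENNReal.ofReal (g u) ≤ f u + ‖(f u).toReal - g u‖ₑ := fun u => by
    rw [← ofReal_norm, Real.norm_eq_abs]
    constructor
    · refine le_trans ?_ ENNReal.ofReal_add_le
      exact (ENNReal.ofReal_toReal (hne u)).ge.trans (ENNReal.ofReal_le_ofReal
        (by linarith [le_abs_self ((f u).toReal - g u)]))
    · refine le_trans ?_ (add_le_add (ENNReal.ofReal_toReal (hne u)).le le_rfl)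
      exact (ENNReal.ofReal_le_ofReal (by linarith [neg_abs_le ((f u).toReal - g u)])).trans
        ENNReal.ofReal_add_le
  refine ⟨_, _, h.cont hf g G hG B hB hGB, hf.mono fun ε hε => h1 P _ _ ⟨_, hε.meas_mass hz, ?_,
    fun ω => ?_⟩, h2 P' _ _ ⟨_, h.measI hz, ?_, fun ω => ?_⟩⟩
  · exact (lintegral_mono fun _ => min_le_left _ _).trans
      ((hε.lintegral_mass hz).trans_le (hg.trans (min_le_left _ _)))
  · have h4 := hz.mul (measurable_ex.comp (hε.measX' ω))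
    simp only [mass]
    constructor <;> refine le_trans (lintegral_mono fun u => ?_) (lintegral_add_right _ h4).le
    · exact (mul_le_mul' (h3 u).1 le_rfl).trans_eq (add_mul _ _ _)
    · exact (mul_le_mul' (h3 u).2 le_rfl).trans_eq (add_mul _ _ _)
  · exact (lintegral_mono fun _ => min_le_left _ _).trans
      ((h.intensity hf hz).trans (hg.trans (min_le_right _ _)))
  · exact ⟨(lintegral_mono fun u => (h3 u).1).trans (lintegral_add_right _ hz).le,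
      (lintegral_mono fun u => (h3 u).2).trans (lintegral_add_right _ hz).le⟩

lemma dd_pos {b : Bool} {u : ℝ} (hu : u ∈ Ioo (0 : ℝ) 1) : 0 < dd b 0 u := by
  unfold dd
  rw [zero_sub, abs_neg, abs_of_pos hu.1]
  split_ifs
  exacts [lt_min hu.1 (sub_pos.mpr hu.2), hu.1]

lemma Lim.singular (h : Lim P P' X M) {b : Bool} {μ : ℝ} (hF : Fam b μ P X K v) (hμ : μ < 2)
    {k : ℝ → ℝ} (hk : Measurable k) {d : ℝ → ℝ} (hd : ∀ᶠ ε in 𝓝[>] (0 : ℝ), |d ε| ≤ 1)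
    (hKk : ∀ᶠ ε in 𝓝[>] (0 : ℝ), ∀ u ∈ Ico (0 : ℝ) 1, ε < dd b 0 u → K ε 0 u - d ε = k u)
    {φ : ℝ → ℝ≥0∞} (hφ : Measurable φ) {A : ℝ} (hA : ∀ u ∈ Ico (0 : ℝ) 1, φ u ≤ ex A) {κ : ℝ}
    (hκ : κ * μ < 1 + μ / 2) :
    Conv P P' (fun ε => mass (X ε) fun u => φ u * ex (κ * (K ε 0 u - d ε)))
      fun ω => ∫⁻ u in Ioo 0 1, φ u * ex (κ * k u) ∂M ω := by
  have hμ0 := hF.pos
  have h00 : (0 : ℝ) ∈ Ico (0 : ℝ) 1 := ⟨le_rfl, one_pos⟩
  obtain ⟨θ, hθ0, hθ1, hθ⟩ : ∃ θ : ℝ, 0 < θ ∧ θ ≤ 1 ∧ κ * μ < 1 - μ * (θ - 1) / 2 := by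
    refine ⟨min 1 (1 + μ / 2 - κ * μ), lt_min one_pos (by linarith), min_le_left _ _, ?_⟩
    nlinarith [min_le_right 1 (1 + μ / 2 - κ * μ), lt_min one_pos (sub_pos.mpr hκ)]
  obtain ⟨a, ha, C, hC⟩ := hF.wmoment hθ0 (by nlinarith) κ hθ
  let F : ℕ → Set ℝ := fun n => Ioo 0 1 ∩ {u | Real.exp (-n) < dd b 0 u}
  have hFm : ∀ n, MeasurableSet (F n) := fun n =>
    measurableSet_Ioo.inter (measurableSet_lt measurable_const (measurable_dd b 0))
  have hw : Measurable fun u => φ u * ex (κ * k u) := hφ.mul (measurable_ex.comp (hk.const_mul κ))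
  have hev : ∀ n : ℕ, ∀ᶠ ε in 𝓝[>] (0 : ℝ), 0 < ε ∧ ε ≤ Real.exp (-n) := fun n =>
    (Ioc_mem_nhdsGT (Real.exp_pos _) : Ioc (0 : ℝ) _ ∈ _)
  have h1 : ∀ n : ℕ, Conv P P' (fun ε => mass (X ε) ((F n).indicator fun u => φ u * ex (κ * k u)))
      fun ω => ∫⁻ u, (F n).indicator (fun u => φ u * ex (κ * k u)) u ∂M ω := by
    intro n
    obtain ⟨ε, hε, hf, hKε⟩ := ((hev n).and (hF.fld.and hKk)).exists
    obtain ⟨B, hB⟩ : ∃ B, ∀ u ∈ Ico (0 : ℝ) 1, |K ε 0 u - d ε| ≤ B := by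
      obtain ⟨B, hB⟩ := hf.bdd
      exact ⟨B + |d ε|, fun u hu => (abs_sub _ _).trans (add_le_add (hB 0 h00 u hu) le_rfl)⟩
    have h2 : ∀ u, (F n).indicator (fun u => φ u * ex (κ * k u)) u ≤ ex (A + |κ| * B) := fun u => by
      refine indicator_apply_le' (fun hu => ?_) fun _ => zero_le
      have hu' := Ioo_subset_Ico_self hu.1
      rw [ex_add, ← hKε u hu' (hε.2.trans_lt hu.2)]
      exact mul_le_mul' (hA u hu') (ex_mono ((le_abs_self _).trans ((abs_mul _ _).trans_le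
        (mul_le_mul_of_nonneg_left (hB u hu') (abs_nonneg _)))))
    exact h.integrable hF.fld (hw.indicator (hFm n))
      (fun u => ne_top_of_le_ne_top (ex_ne_top _) (h2 u))
      (ne_top_of_le_ne_top (ex_ne_top (A + |κ| * B)) ((lintegral_mono h2).trans (by simp)))
  intro G hG B hB hGB
  have hfin := bdd_int (P' := P') hB hGB fun ω => ∫⁻ u in Ioo 0 1, φ u * ex (κ * k u) ∂M ω
  have h2 : Tendsto (fun n : ℕ => ∫⁻ ω,
      G (∫⁻ u, (F n).indicator (fun u => φ u * ex (κ * k u)) u ∂M ω) ∂P') atTop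
      (𝓝 (∫⁻ ω, G (∫⁻ u in Ioo 0 1, φ u * ex (κ * k u) ∂M ω) ∂P')) := by
    refine tendsto_lintegral_of_dominated_convergence (fun _ => B)
      (fun n => hG.measurable.comp (h.measI (hw.indicator (hFm n))))
      (fun n => Eventually.of_forall fun ω => hGB _) (by simpa using hB)
      (Eventually.of_forall fun ω => (hG.tendsto _).comp ?_)
    rw [← lintegral_indicator measurableSet_Ioo]
    refine lintegral_tendsto_of_tendsto_of_monotone
      (fun n => (hw.indicator (hFm n)).aemeasurable) (Eventually.of_forall fun u m n hmn => ?_)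
      (Eventually.of_forall fun u => ?_)
    · exact indicator_le_indicator_of_subset (s := F m) (t := F n)
        (fun u hu => ⟨hu.1, (Real.exp_le_exp.mpr (neg_le_neg (Nat.cast_le.mpr hmn))).trans_lt
          (show Real.exp (-m) < dd b 0 u from hu.2)⟩) (fun _ => zero_le) u
    · by_cases hu : u ∈ Ioo (0 : ℝ) 1
      · refine tendsto_const_nhds.congr' ?_
        filter_upwards [(Real.tendsto_exp_neg_atTop_nhds_zero.comp
          tendsto_natCast_atTop_atTop).eventually (gt_mem_nhds (dd_pos (b := b) hu))] with n hn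
        rw [indicator_of_mem hu, indicator_of_mem (show u ∈ F n from ⟨hu, hn⟩)]
      · simp [F, hu]
  refine tendsto_of_approx hfin fun η hη => ?_
  obtain ⟨δ, hδ, h3⟩ := unif_near hG hB hGB hη
  obtain ⟨D, hD⟩ := exists_ex_le hδ
  obtain ⟨n, hn1, hn2⟩ := (((ENNReal.tendsto_nhds hfin).mp h2 η (pos_iff_ne_zero.mpr hη)).and
    ((tendsto_natCast_atTop_atTop (R := ℝ)).eventually_ge_atTop
      (((A + |κ|) * θ + C - D) / a))).exists
  refine ⟨_, _, h1 n G hG B hB hGB, ?_, tsub_le_iff_right.mp hn1.1, hn1.2⟩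
  filter_upwards [hF.fld, hev n, hC, hKk, hd] with ε hf hε hW hKε hdε
  have hb : Measurable fun u => (bl b ε 0 n).indicator 1 u * ex (κ * K ε 0 u) :=
    (measurable_one.indicator (measurableSet_bl _ _ _ _)).mul
      (measurable_ex.comp ((hf.measK 0).const_mul κ))
  refine h3 P _ _ ⟨fun ω => ex (A + |κ|) * mass (X ε)
    (fun u => (bl b ε 0 n).indicator 1 u * ex (κ * K ε 0 u)) ω,
    (hf.meas_mass hb).const_mul _, ?_, fun ω => ⟨?_, le_add_right (mass_mono (fun u hu => ?_) ω)⟩⟩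
  · have h4 : ∀ z : ℝ≥0∞, min z 1 ≤ z ^ θ := fun z => by
      rcases le_total z 1 with hz | hz
      · exact (min_le_left _ _).trans ((ENNReal.rpow_one z).ge.trans
          (ENNReal.rpow_le_rpow_of_exponent_ge hz hθ1))
      · exact (min_le_right _ _).trans (ENNReal.one_le_rpow hz hθ0)
    refine (lintegral_mono fun ω => h4 _).trans ?_
    simp only [ENNReal.mul_rpow_of_nonneg _ _ hθ0.le, ex_rpow]
    rw [lintegral_const_mul' _ _ (ex_ne_top _)]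
    refine (mul_le_mul' le_rfl (hW 0 h00 n (Nat.cast_nonneg n))).trans (le_trans ?_ hD)
    rw [← ex_add]
    rw [div_le_iff₀ ha] at hn2
    exact ex_mono (by linarith)
  · simp only [mass]
    rw [← lintegral_const_mul' _ _ (ex_ne_top _)]
    refine le_trans (lintegral_mono_ae (ae_nu.mono fun u hu => ?_)) (lintegral_add_left
      ((hw.indicator (hFm n)).mul (measurable_ex.comp (hf.measX' ω))) _).le
    by_cases hb : u ∈ bl b ε 0 n
    · refine le_add_left ?_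
      rw [indicator_of_mem hb, Pi.one_apply, one_mul, ← mul_assoc, ex_add, mul_assoc (ex A),
        ← ex_add]
      refine mul_le_mul' (mul_le_mul' (hA u hu) (ex_mono ?_)) le_rfl
      have h4 := neg_abs_le (κ * d ε)
      rw [abs_mul] at h4
      nlinarith [abs_nonneg κ]
    · have h4 : Real.exp (-n) < dd b 0 u := not_le.mp fun h5 => hb ((le_LL hε.1).mpr ⟨h5, hε.2⟩)
      have h5 : u ∈ F n := by
        refine ⟨⟨hu.1.lt_of_ne ?_, hu.2⟩, h4⟩
        rintro rfl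
        exact absurd (h4.trans_le (dd_le _ _ _)) (by simpa using (Real.exp_pos _).le)
      refine le_add_right (le_of_eq ?_)
      simp only [Pi.mul_apply, Function.comp_apply]
      rw [indicator_of_mem h5, hKε u hu (hε.2.trans_lt h4)]
  · refine indicator_apply_le' (fun h5 => le_of_eq ?_) fun _ => zero_le
    rw [hKε u hu (hε.2.trans_lt h5.2)]

lemma ex_mul_rpow (x : ℝ) (y : ℝ≥0∞) (p : ℝ) : (ex x * y) ^ p = ex x ^ p * y ^ p := by
  simp [ENNReal.mul_rpow_eq_ite, ex_ne_zero, ex_ne_top]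

omit [IsProbabilityMeasure P] in
lemma Fam.pos_moment {b : Bool} {μ : ℝ} (hF : Fam b μ P X K v) {φ : ℝ → ℝ≥0∞} {A : ℝ}
    (hA : ∀ u ∈ Ico (0 : ℝ) 1, φ u ≤ ex A) {κ p : ℝ} (hp : 0 < p) (hp2 : μ * p < 2)
    (hκ : κ * μ < 1 - μ * (p - 1) / 2) : ∃ C, ∀ᶠ ε in 𝓝[>] (0 : ℝ),
      ∫⁻ ω, mass (X ε) (fun u => φ u * ex (κ * K ε 0 u)) ω ^ p ∂P ≤ ex C := by
  have h00 : (0 : ℝ) ∈ Ico (0 : ℝ) 1 := ⟨le_rfl, one_pos⟩
  obtain ⟨a, -, C, hC⟩ := hF.wmoment hp hp2 κ hκ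
  refine ⟨A * p + (C - a * 0), ?_⟩
  filter_upwards [ev_small, hC] with ε hε hW
  rw [ex_add, ← ex_rpow]
  refine le_trans ?_ (mul_le_mul' le_rfl (hW 0 h00 0 le_rfl))
  rw [ex_rpow, ← lintegral_const_mul' _ _ (ex_ne_top _), ← ex_rpow]
  refine lintegral_mono fun ω => ?_
  rw [← ENNReal.mul_rpow_of_nonneg _ _ hp.le]
  refine ENNReal.rpow_le_rpow ?_ hp.le
  simp only [mass]
  rw [← lintegral_const_mul' _ _ (ex_ne_top _)]
  refine lintegral_mono_ae (ae_nu.mono fun u hu => ?_)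
  rw [indicator_of_mem (show u ∈ bl b ε 0 0 from LL_nonneg hε.1 hε.2 h00 hu), Pi.one_apply,
    one_mul, ← mul_assoc]
  exact mul_le_mul' (mul_le_mul' (hA u hu) le_rfl) le_rfl

omit [IsProbabilityMeasure P] in
lemma Fam.neg_moment' {b : Bool} {μ : ℝ} (hF : Fam b μ P X K v) (hμ : μ < 2) {φ : ℝ → ℝ≥0∞}
    (hφ : Measurable φ) (hφ0 : ∀ u ∈ Ioo (0 : ℝ) 1, φ u ≠ 0) (κ : ℝ) {p : ℝ} (hp : 0 ≤ p) :
    ∃ C, ∀ᶠ ε in 𝓝[>] (0 : ℝ),
      ∫⁻ ω, mass (X ε) (fun u => φ u * ex (κ * K ε 0 u)) ω ^ (-p) ∂P ≤ ex C := by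
  have h00 : (0 : ℝ) ∈ Ico (0 : ℝ) 1 := ⟨le_rfl, one_pos⟩
  have hμ0 := hF.pos
  obtain ⟨m, hm⟩ : ∃ m : ℕ, nu (Icc (1 / 4) (3 / 4) ∩ {u | ex (-m) ≤ φ u}) ≠ 0 := by
    by_contra hcon
    simp only [not_exists, not_not] at hcon
    have h1 : nu (Icc (1 / 4) (3 / 4)) = 0 := by
      refine measure_mono_null (fun u hu => ?_) (measure_iUnion_null hcon)
      obtain ⟨A, hA⟩ := exists_ex_le (hφ0 u ⟨by linarith [hu.1], by linarith [hu.2]⟩)
      exact mem_iUnion.mpr ⟨⌈-A⌉₊, hu, (ex_mono (by linarith [Nat.le_ceil (-A)])).trans hA⟩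
    rw [nu, Measure.restrict_apply measurableSet_Icc, inter_eq_left.mpr
      (Icc_subset_Ico_iff (by norm_num) |>.mpr ⟨by norm_num, by norm_num⟩), Real.volume_Icc] at h1
    norm_num at h1
  obtain ⟨C, hC⟩ := hF.neg_moment hμ (measurableSet_Icc.inter
    (measurableSet_le measurable_const hφ)) hm hp
  obtain ⟨C1, hC1⟩ := hF.ker 1 one_pos
  refine ⟨(-m - |κ| * ((μ + 1) * 3 + C1)) * -p + C, ?_⟩
  filter_upwards [ev_small, hC, hC1] with ε hε hW hK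
  rw [ex_add]
  refine le_trans ?_ (mul_le_mul' le_rfl hW)
  rw [← lintegral_const_mul' _ _ (ex_ne_top _), ← ex_rpow]
  refine lintegral_mono fun ω => ?_
  rw [← ex_mul_rpow, ENNReal.rpow_neg, ENNReal.rpow_neg, ENNReal.inv_le_inv]
  refine ENNReal.rpow_le_rpow ?_ hp
  simp only [mass]
  rw [← lintegral_const_mul' _ _ (ex_ne_top _)]
  refine lintegral_mono_ae (ae_nu.mono fun u hu => ?_)
  rw [← mul_assoc]
  refine mul_le_mul' ?_ le_rfl
  by_cases hD : u ∈ Icc (1 / 4 : ℝ) (3 / 4) ∩ {u | ex (-m) ≤ φ u}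
  swap
  · rw [indicator_of_notMem hD, mul_zero]
    exact zero_le
  rw [indicator_of_mem hD, Pi.one_apply, mul_one, sub_eq_add_neg, ex_add]
  refine mul_le_mul' hD.2 (ex_mono ?_)
  have h1 : LL b ε 0 u ≤ 3 := by
    have h2 : 1 / 4 ≤ dd b 0 u := by
      unfold dd
      rw [zero_sub, abs_neg, abs_of_nonneg hu.1]
      split_ifs
      exacts [le_min hD.1.1 (by linarith [hD.1.2]), hD.1.1]
    have h3 := Real.log_le_log (by norm_num) (le_max_of_le_left (c := ε) h2)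
    have h4 := Real.one_sub_inv_le_log_of_pos (show (0 : ℝ) < 1 / 4 by norm_num)
    unfold LL
    norm_num at h3 h4 ⊢
    linarith
  have h2 := LL_nonneg (b := b) hε.1 hε.2 h00 hu
  have h3 := abs_le.mp (hK 0 h00 u hu)
  have h4 : |K ε 0 u| ≤ (μ + 1) * 3 + C1 := abs_le.mpr ⟨by nlinarith, by nlinarith⟩
  have h5 := neg_abs_le (κ * K ε 0 u)
  rw [abs_mul] at h5
  nlinarith [abs_nonneg κ]

omit [MeasurableSpace Ω] in
lemma mass_shift (Y : ℝ → Ω → ℝ) (φ : ℝ → ℝ≥0∞) (κ c p : ℝ) (L : ℝ → ℝ) (ω : Ω) :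
    mass Y (fun u => φ u * ex (κ * (L u - c))) ω ^ p =
      ex (-(κ * c) * p) * mass Y (fun u => φ u * ex (κ * L u)) ω ^ p := by
  rw [← ex_rpow, ← ex_mul_rpow]
  congr 1
  simp only [mass]
  rw [← lintegral_const_mul' _ _ (ex_ne_top _)]
  refine lintegral_congr fun u => ?_
  rw [show κ * (L u - c) = -(κ * c) + κ * L u by ring, ex_add]
  ring

omit [IsProbabilityMeasure P] in
lemma bound_shift {d : ℝ → ℝ} (hd : ∀ᶠ ε in 𝓝[>] (0 : ℝ), |d ε| ≤ 1) {φ : ℝ → ℝ≥0∞} {κ p : ℝ}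
    (h : ∃ C, ∀ᶠ ε in 𝓝[>] (0 : ℝ),
      ∫⁻ ω, mass (X ε) (fun u => φ u * ex (κ * K ε 0 u)) ω ^ p ∂P ≤ ex C) :
    ∃ C, ∀ᶠ ε in 𝓝[>] (0 : ℝ),
      ∫⁻ ω, mass (X ε) (fun u => φ u * ex (κ * (K ε 0 u - d ε))) ω ^ p ∂P ≤ ex C := by
  obtain ⟨C, hC⟩ := h
  refine ⟨|κ * p| + C, ?_⟩
  filter_upwards [hC, hd] with ε h1 h2
  simp only [mass_shift]
  rw [lintegral_const_mul' _ _ (ex_ne_top _), ex_add]
  refine mul_le_mul' (ex_mono ?_) h1
  have h3 := neg_abs_le (κ * p * d ε)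
  rw [abs_mul] at h3
  nlinarith [abs_nonneg (κ * p)]

theorem Lim.main (h : Lim P P' X M) {b : Bool} {μ : ℝ} (hF : Fam b μ P X K v) (hμ : μ < 2)
    {k : ℝ → ℝ} (hk : Measurable k) {d : ℝ → ℝ} (hd : ∀ᶠ ε in 𝓝[>] (0 : ℝ), |d ε| ≤ 1)
    (hKk : ∀ᶠ ε in 𝓝[>] (0 : ℝ), ∀ u ∈ Ico (0 : ℝ) 1, ε < dd b 0 u → K ε 0 u - d ε = k u)
    {φ : ℝ → ℝ≥0∞} (hφ : Measurable φ) (hφ0 : ∀ u ∈ Ioo (0 : ℝ) 1, φ u ≠ 0) {A : ℝ}
    (hA : ∀ u ∈ Ico (0 : ℝ) 1, φ u ≤ ex A) {q : ℝ} (hq1 : -q * μ < 1 + μ / 2) (hq2 : μ * q < 2) :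
    (∀ᵐ ω ∂P', 0 < ∫⁻ u in Ioo 0 1, φ u * ex (-q * k u) ∂M ω ∧
      ∫⁻ u in Ioo 0 1, φ u * ex (-q * k u) ∂M ω < ∞) ∧
    ∫⁻ ω, (∫⁻ u in Ioo 0 1, φ u * ex (-q * k u) ∂M ω) ^ q ∂P' < ∞ ∧
    Tendsto (fun ε => ∫⁻ ω, mass (X ε) (fun u => φ u * ex (-q * (K ε 0 u - d ε))) ω ^ q ∂P)
      (𝓝[>] 0) (𝓝 (∫⁻ ω, (∫⁻ u in Ioo 0 1, φ u * ex (-q * k u) ∂M ω) ^ q ∂P')) := by
  have hμ0 := hF.pos
  have hc := h.singular hF hμ hk hd hKk hφ hA hq1
  have hW : Measurable fun ω => ∫⁻ u in Ioo 0 1, φ u * ex (-q * k u) ∂M ω := by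
    simp only [← lintegral_indicator measurableSet_Ioo]
    exact h.measI ((hφ.mul (measurable_ex.comp (hk.const_mul _))).indicator measurableSet_Ioo)
  refine ⟨?_, ?_⟩
  · obtain ⟨C1, h1⟩ := bound_shift hd (hF.neg_moment' hμ hφ hφ0 (-q) zero_le_one)
    obtain ⟨C2, h2⟩ := bound_shift hd (hF.pos_moment hA (κ := -q) (p := min 1 (1 + μ / 2 - -q * μ))
      (lt_min one_pos (by linarith)) (by nlinarith [min_le_left 1 (1 + μ / 2 - -q * μ)])
      (by nlinarith [min_le_right 1 (1 + μ / 2 - -q * μ), lt_min one_pos (sub_pos.mpr hq1)]))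
    filter_upwards [ae_lt_top (hW.pow_const _) (ne_top_of_le_ne_top (ex_ne_top _)
      ((hc.rpow _).fatou (hW.pow_const _) h1)), ae_lt_top (hW.pow_const _)
      (ne_top_of_le_ne_top (ex_ne_top _) ((hc.rpow _).fatou (hW.pow_const _) h2))] with ω h3 h4
    refine ⟨by simpa [ENNReal.rpow_neg_one] using h3, lt_top_iff_ne_top.mpr fun h5 => ?_⟩
    rw [h5, ENNReal.top_rpow_of_pos (lt_min one_pos (by linarith))] at h4
    exact lt_irrefl _ h4
  obtain ⟨r, hr, C, hC⟩ : ∃ r : ℝ, 1 < r ∧ ∃ C, ∀ᶠ ε in 𝓝[>] (0 : ℝ),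
      ∫⁻ ω, mass (X ε) (fun u => φ u * ex (-q * (K ε 0 u - d ε))) ω ^ (q * r) ∂P ≤ ex C := by
    rcases le_or_gt q 0 with hq | hq
    · refine ⟨2, one_lt_two, bound_shift hd ?_⟩
      simpa only [neg_neg] using hF.neg_moment' hμ hφ hφ0 (-q) (p := -(q * 2)) (by linarith)
    · have h1 : 0 < μ * q := mul_pos hμ0 hq
      have h2 : μ * (q * ((μ * q + 2) / (2 * (μ * q)))) = (μ * q + 2) / 2 := by field_simp
      refine ⟨(μ * q + 2) / (2 * (μ * q)), (one_lt_div (by linarith)).mpr (by linarith),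
        bound_shift hd (hF.pos_moment hA (by positivity) (by linarith) (by nlinarith))⟩
  have h3 := (hc.rpow q).ui (hW.pow_const q) hr (C := C) (by
    filter_upwards [hC, hF.fld] with ε h4 hf
    refine ⟨(hf.meas_mass (hφ.mul (measurable_ex.comp
      (((hf.measK 0).sub_const _).const_mul _)))).pow_const q, ?_⟩
    simpa only [ENNReal.rpow_mul] using h4)
  exact ⟨h3.1.lt_top, h3.2⟩

end Pool.Agent.Lib.MP_e22585_pr
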