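import Pool.Agent.Lib.MP_e22585_pr.Geo

/-!
# Uniform positive moments of the regularized chaos
-/

set_option autoImplicit false

noncomputable section

open MeasureTheory ProbabilityTheory Filter Set
open scoped ENNReal NNReal Topology

namespace Pool.Agent.Lib.MP_e22585_pr

variable {Ω : Type*} [MeasurableSpace Ω] {P : Measure Ω}

lemma sum_moment (P : Measure Ω) {p δ : ℝ} (hp : 0 < p) (hδ : 0 < δ) :
    ∃ C : ℝ, ∀ (Y : ℕ → Ω → ℝ≥0∞) (A : ℝ), (∀ k, Measurable (Y k)) →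
      (∀ k : ℕ, ∫⁻ ω, Y k ω ^ p ∂P ≤ ex (A - δ * k)) →
      ∫⁻ ω, (∑' k, Y k ω) ^ p ∂P ≤ ex (A + C) := by
  obtain ⟨C1, h1⟩ := exists_le_ex (tsum_ex_ne_top (l := δ / 2 / p) (by positivity))
  obtain ⟨C2, h2⟩ := exists_le_ex (tsum_ex_ne_top (l := δ / 2) (by positivity))
  refine ⟨C1 * p + C2, fun Y A hY hA => ?_⟩
  have h3 : ∀ ω, (∑' k, Y k ω) ^ p ≤ ex (C1 * p) * ∑' j : ℕ, ex (δ / 2 * j) * Y j ω ^ p := by
    intro ω
    set S := ∑' j : ℕ, ex (δ / 2 * j) * Y j ω ^ p with hS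
    have h4 : ∀ k : ℕ, Y k ω ≤ ex (-(δ / 2 / p * k)) * S ^ p⁻¹ := by
      intro k
      have h5 : (ex (δ / 2 / p * k) * Y k ω) ^ p ≤ S := by
        rw [ENNReal.mul_rpow_of_nonneg _ _ hp.le, ex_rpow,
          show δ / 2 / p * k * p = δ / 2 * k by field_simp]
        exact ENNReal.le_tsum (f := fun j : ℕ => ex (δ / 2 * j) * Y j ω ^ p) k
      rw [← ENNReal.le_rpow_inv_iff hp] at h5
      refine le_trans ?_ (mul_le_mul' le_rfl h5)
      rw [← mul_assoc, ← ex_add, neg_add_cancel, ex_zero, one_mul]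
    refine (ENNReal.rpow_le_rpow ((ENNReal.tsum_le_tsum h4).trans
      (ENNReal.tsum_mul_right.trans_le (mul_le_mul' h1 le_rfl))) hp.le).trans ?_
    rw [ENNReal.mul_rpow_of_nonneg _ _ hp.le, ex_rpow, ENNReal.rpow_inv_rpow hp.ne']
  refine (lintegral_mono h3).trans ?_
  rw [lintegral_const_mul' _ _ (ex_ne_top _),
    lintegral_tsum fun j => (((hY j).pow_const _).const_mul _).aemeasurable]
  calc _ ≤ ex (C1 * p) * ∑' j : ℕ, ex (-(δ / 2 * j)) * ex A := by
        refine mul_le_mul' le_rfl (ENNReal.tsum_le_tsum fun j => ?_)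
        rw [lintegral_const_mul' _ _ (ex_ne_top _)]
        refine (mul_le_mul' le_rfl (hA j)).trans ?_
        rw [← ex_add, ← ex_add]
        exact ex_mono (by linarith)
    _ ≤ ex (C1 * p) * (ex C2 * ex A) := by
        rw [ENNReal.tsum_mul_right]
        exact mul_le_mul' le_rfl (mul_le_mul' h2 le_rfl)
    _ = _ := by
        rw [← ex_add, ← ex_add]
        congr 1
        ring

namespace Fld

variable {X : ℝ → Ω → ℝ} {K : ℝ → ℝ → ℝ} {v : ℝ}

lemma base (h : Fld P X K v) {p : ℝ} (hp0 : 0 < p) (hp1 : p < 1) {B : Set ℝ}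
    (hB : MeasurableSet B) {N : ℕ} (hN : 0 < N) (t : Fin N → ℝ) (ht : ∀ i, t i ∈ Ico (0 : ℝ) 1)
    {c V : ℝ} (hc : ∀ u ∈ B, u ∈ Ico (0 : ℝ) 1 → ∀ i, c ≤ K (t i) u)
    (hV : ∑ i, ∑ j, K (t i) (t j) ≤ N ^ 2 * V) :
    ∫⁻ ω, mass X (B.indicator 1) ω ^ p ∂P ≤ nu B ^ p * ex (-(p * (1 - p) * (c - V / 2))) := by
  have := h.gauss.isProbabilityMeasure
  have hN' : (0 : ℝ) < N := Nat.cast_pos.mpr hN
  have hi : Measurable (B.indicator (1 : ℝ → ℝ≥0∞)) := measurable_one.indicator hB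
  have hZ : ∀ a : ℝ, Measurable fun ω => ex (∑ i, a * X (t i) ω) := fun a =>
    measurable_ex.comp (Finset.measurable_sum _ fun i _ => (h.measX _).const_mul _)
  have hQ : ∀ a : ℝ, ∑ i, ∑ j, a / N * (a / N) * K (t i) (t j) ≤ a ^ 2 * V := fun a => by
    simp only [← Finset.mul_sum]
    refine (mul_le_mul_of_nonneg_left hV (mul_self_nonneg _)).trans (le_of_eq ?_)
    field_simp
  have h1 : ∀ ω, mass X (B.indicator 1) ω ^ p =
      (mass X (B.indicator 1) ω * ex (∑ i, -(1 - p) / N * X (t i) ω)) ^ p *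
        ex (∑ i, p / N * X (t i) ω) ^ (1 - p) := fun ω => by
    rw [ENNReal.mul_rpow_of_nonneg _ _ hp0.le, ex_rpow, ex_rpow, mul_assoc, ← ex_add,
      ← Finset.mul_sum, ← Finset.mul_sum]
    rw [show -(1 - p) / N * (∑ i, X (t i) ω) * p + p / N * (∑ i, X (t i) ω) * (1 - p) = 0 by ring,
      ex_zero, mul_one]
  have h2 : ∫⁻ ω, ex (∑ i, p / N * X (t i) ω) ∂P ≤ ex (-(p * (v / 2)) + p ^ 2 * V / 2) := by
    rw [h.mgf t ht fun _ => p / N]
    refine ex_mono ?_
    rw [Finset.sum_const, Finset.card_univ, Fintype.card_fin, nsmul_eq_mul,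
      mul_div_cancel₀ _ hN'.ne']
    linarith [hQ p]
  have h3 : ∫⁻ ω, mass X (B.indicator 1) ω * ex (∑ i, -(1 - p) / N * X (t i) ω) ∂P ≤
      nu B * ex ((1 - p) * (v / 2) - (1 - p) * c + (1 - p) ^ 2 * V / 2) := by
    have h4 : ∀ ω, mass X (B.indicator 1) ω * ex (∑ i, -(1 - p) / N * X (t i) ω) =
        ∫⁻ u, B.indicator 1 u * ex (X u ω) * ex (∑ i, -(1 - p) / N * X (t i) ω) ∂nu := fun ω =>
      (lintegral_mul_const _ (hi.mul (measurable_ex.comp (h.measX' ω)))).symm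
    simp only [h4]
    rw [← lintegral_lintegral_swap
      ((h.meas_int hi).mul ((hZ _).comp measurable_snd)).aemeasurable,
      ← lintegral_indicator_one hB, ← lintegral_mul_const _ hi]
    refine lintegral_mono_ae (ae_nu.mono fun u hu => ?_)
    by_cases huB : u ∈ B
    swap
    · simp [huB]
    have h5 := h.mgf (ι := Option (Fin N)) (fun o => o.elim u t)
      (fun o => by cases o; exacts [hu, ht _]) (fun o => o.elim 1 fun _ => -(1 - p) / N)
    simp only [Fintype.sum_option, Option.elim_none, Option.elim_some, one_mul, mul_one,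
      h.diag u hu, Finset.sum_add_distrib, h.symm hu (ht _)] at h5
    simp only [indicator_of_mem huB, Pi.one_apply, one_mul, ← ex_add]
    rw [h5]
    refine ex_mono ?_
    have h6 : ∑ i, -(1 - p) / N * K (t i) u ≤ -((1 - p) * c) := by
      refine (Finset.sum_le_sum (g := fun _ => -(1 - p) / N * c) fun i _ => ?_).trans (le_of_eq ?_)
      · exact mul_le_mul_of_nonpos_left (hc u huB hu i)
          (div_nonpos_of_nonpos_of_nonneg (by linarith) hN'.le)
      · rw [Finset.sum_const, Finset.card_univ, Fintype.card_fin, nsmul_eq_mul]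
        field_simp
    have h7 := hQ (-(1 - p))
    rw [Finset.sum_const, Finset.card_univ, Fintype.card_fin, nsmul_eq_mul,
      mul_div_cancel₀ _ hN'.ne']
    linarith
  simp only [h1]
  refine (ENNReal.lintegral_mul_norm_pow_le ((h.meas_mass hi).mul (hZ _)).aemeasurable
    (hZ _).aemeasurable hp0.le (by linarith) (by ring)).trans ?_
  refine (mul_le_mul' (ENNReal.rpow_le_rpow h3 hp0.le)
    (ENNReal.rpow_le_rpow h2 (by linarith))).trans (le_of_eq ?_)
  rw [ENNReal.mul_rpow_of_nonneg _ _ hp0.le, ex_rpow, ex_rpow, mul_assoc, ← ex_add]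
  congr 2
  ring

lemma step (h : Fld P X K v) {p : ℝ} (hp : 0 < p) {B : Set ℝ} (hB : MeasurableSet B) {A : ℝ≥0∞}
    (hA : ∀ t ∈ B, t ∈ Ico (0 : ℝ) 1 →
      ∫⁻ ω, mass X (fun u => B.indicator 1 u * ex (1 * K t u)) ω ^ p ∂P ≤ A) :
    ∫⁻ ω, mass X (B.indicator 1) ω ^ (p + 1) ∂P ≤ nu B * A := by
  have := h.gauss.isProbabilityMeasure
  have hi : Measurable (B.indicator (1 : ℝ → ℝ≥0∞)) := measurable_one.indicator hB
  have h4 : ∀ ω, mass X (B.indicator 1) ω ^ (p + 1) =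
      ∫⁻ u, B.indicator 1 u * ex (X u ω) * mass X (B.indicator 1) ω ^ p ∂nu := fun ω => by
    rw [ENNReal.rpow_add_of_nonneg _ _ hp.le zero_le_one, ENNReal.rpow_one, mul_comm]
    exact (lintegral_mul_const _ (hi.mul (measurable_ex.comp (h.measX' ω)))).symm
  simp only [h4]
  rw [← lintegral_lintegral_swap
    ((h.meas_int hi).mul (((h.meas_mass hi).pow_const p).comp measurable_snd)).aemeasurable,
    ← lintegral_indicator_one hB, ← lintegral_mul_const _ hi]
  refine lintegral_mono_ae (ae_nu.mono fun u hu => ?_)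
  by_cases huB : u ∈ B
  swap
  · simp [huB]
  have h5 := h.girsanov hu 1 hi ind_fin (Ψ := fun x => x ^ p) (measurable_id.pow_const p)
  simp only [one_mul, sub_self, zero_mul, zero_div, ex_zero] at h5 hA
  simp only [indicator_of_mem huB, Pi.one_apply, one_mul]
  exact h5.trans_le (hA u huB hu)

lemma mass_tsum (h : Fld P X K v) (c : ℕ → ℝ) {f : ℕ → ℝ → ℝ≥0∞} (hf : ∀ k, Measurable (f k))
    (ω : Ω) : mass X (fun u => ∑' k, ex (c k) * f k u) ω = ∑' k, ex (c k) * mass X (f k) ω := by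
  unfold mass
  simp only [← ENNReal.tsum_mul_right, mul_assoc]
  rw [lintegral_tsum (f := fun k u => ex (c k) * (f k u * ex (X u ω))) fun k =>
    (((hf k).mul (measurable_ex.comp (h.measX' ω))).const_mul _).aemeasurable]
  simp only [lintegral_const_mul' _ _ (ex_ne_top _)]

end Fld

/-- A family of fields whose covariance is asymptotically `μ` times the logarithmic scale. -/
structure Fam (b : Bool) (μ : ℝ) (P : Measure Ω) (X : ℝ → ℝ → Ω → ℝ) (K : ℝ → ℝ → ℝ → ℝ)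
    (v : ℝ → ℝ) : Prop where
  pos : 0 < μ
  fld : ∀ᶠ ε in 𝓝[>] (0 : ℝ), Fld P (X ε) (K ε) (v ε)
  ker : ∀ η > 0, ∃ C, ∀ᶠ ε in 𝓝[>] (0 : ℝ), ∀ s ∈ Ico (0 : ℝ) 1, ∀ t ∈ Ico (0 : ℝ) 1,
    |K ε s t - μ * LL b ε s t| ≤ η * LL b ε s t + C

/-- Exponential decay at rate `a`, uniformly in the cutoff and in the center. -/
def Bd (F : ℝ → ℝ → ℝ → ℝ≥0∞) (a : ℝ) : Prop :=
  ∀ η > 0, ∃ C, ∀ᶠ ε in 𝓝[>] (0 : ℝ), ∀ s ∈ Ico (0 : ℝ) 1, ∀ x ≥ 0, F ε s x ≤ ex (C - (a - η) * x)

lemma ev_small : ∀ᶠ ε in 𝓝[>] (0 : ℝ), 0 < ε ∧ ε ≤ 1 :=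
  (Ioc_mem_nhdsGT one_pos : Ioc (0 : ℝ) 1 ∈ _)

namespace Fam

variable {b : Bool} {μ : ℝ} {X : ℝ → ℝ → Ω → ℝ} {K : ℝ → ℝ → ℝ → ℝ} {v : ℝ → ℝ}

lemma base (h : Fam b μ P X K v) {p : ℝ} (hp0 : 0 < p) (hp1 : p ≤ 1) :
    Bd (fun ε s x => ∫⁻ ω, mass (X ε) ((bl b ε s x).indicator 1) ω ^ p ∂P)
      (p * (1 - μ * (p - 1) / 2)) := by
  intro η hη
  rcases hp1.eq_or_lt with rfl | hp1
  · refine ⟨2, ?_⟩
    filter_upwards [h.fld, ev_small] with ε hf hε s hs x hx
    simp only [ENNReal.rpow_one]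
    rw [hf.lintegral_mass (measurable_one.indicator (measurableSet_bl _ _ _ _)),
      lintegral_indicator_one (measurableSet_bl _ _ _ _)]
    exact (nu_bl_le hε.1 hs).trans (ex_mono (by nlinarith))
  have hμ := h.pos
  obtain ⟨C, hC⟩ := h.ker (min η μ) (lt_min hη hμ)
  obtain ⟨C', hC'⟩ := exists_spread
  set e := min η μ
  have he1 : e ≤ η := min_le_left _ _
  have he2 : e ≤ μ := min_le_right _ _
  have he0 : 0 < e := lt_min hη hμ
  refine ⟨2 * p + p * (1 - p) * ((μ - e) + C + ((μ + e) * (1 + C') + C) / 2), ?_⟩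
  filter_upwards [h.fld, ev_small, hC] with ε hf hε hK s hs x hx
  by_cases hεx : ε ≤ Real.exp (-x)
  swap
  · have h0 : bl b ε s x = ∅ := eq_empty_of_forall_notMem fun u hu => hεx ((le_LL hε.1).mp hu).2
    simp [h0, mass, hp0]
  set N := ⌈-Real.log ε⌉₊ + 1 with hN
  have hN0 : 0 < N := Nat.succ_pos _
  have hN1 : -Real.log ε ≤ N := (Nat.le_ceil _).trans (Nat.cast_le.mpr (Nat.le_succ _))
  have hN2 : (0 : ℝ) < N := Nat.cast_pos.mpr hN0
  obtain ⟨t, ht, hsum⟩ := hC' b ε s x hε.1 hs hx hεx N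
  refine (hf.base hp0 hp1 (measurableSet_bl _ _ _ _) hN0 t (fun i => (ht i).1)
    (c := (μ - e) * (x - 1) - C) (V := (μ + e) * (1 + x + C') + C) (fun u hu hu' i => ?_) ?_).trans ?_
  · have h1 := LL_ultra hε.1 hs (ht i).1 hu' (ht i).2 hu
    have h2 := (abs_le.mp (hK _ (ht i).1 _ hu')).1
    nlinarith
  · have h1 : ∑ i, ∑ j, K ε (t i) (t j) ≤ ∑ i, ∑ j, ((μ + e) * LL b ε (t i) (t j) + C) :=
      Finset.sum_le_sum fun i _ => Finset.sum_le_sum fun j _ => by
        linarith [(abs_le.mp (hK _ (ht i).1 _ (ht j).1)).2]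
    simp only [Finset.sum_add_distrib, ← Finset.mul_sum, Finset.sum_const, Finset.card_univ,
      Fintype.card_fin, nsmul_eq_mul] at h1
    have h2 : ∑ i, ∑ j, LL b ε (t i) (t j) ≤ N ^ 2 * (1 + x + C') := by nlinarith
    nlinarith [mul_le_mul_of_nonneg_left h2 (by linarith : 0 ≤ μ + e)]
  · refine (mul_le_mul' (ENNReal.rpow_le_rpow (nu_bl_le hε.1 hs) hp0.le) le_rfl).trans ?_
    rw [ex_rpow, ← ex_add]
    refine ex_mono ?_
    have h1 : p * (1 - p) * (3 / 2 * e) ≤ η := by nlinarith [sq_nonneg (p - 1 / 2)]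
    nlinarith [mul_le_mul_of_nonneg_right h1 hx]

lemma weight (h : Fam b μ P X K v) {p a : ℝ} (hp : 0 < p) (κ : ℝ) (ha : p * κ * μ < a)
    (hB : Bd (fun ε s x => ∫⁻ ω, mass (X ε) ((bl b ε s x).indicator 1) ω ^ p ∂P) a) :
    Bd (fun ε s x => ∫⁻ ω,
      mass (X ε) (fun u => (bl b ε s x).indicator 1 u * ex (κ * K ε s u)) ω ^ p ∂P)
      (a - p * κ * μ) := by
  intro η hη
  have hμ := h.pos
  set δ := (a - p * κ * μ) / 2 with hδ
  have hδ0 : 0 < δ := by linarith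
  have hk := abs_nonneg κ
  set e := min η δ / (1 + p * |κ|) with he
  have he0 : 0 < e := div_pos (lt_min hη hδ0) (by positivity)
  have he1 : e * (1 + p * |κ|) = min η δ := div_mul_cancel₀ _ (by positivity)
  obtain ⟨C1, h1⟩ := h.ker e he0
  obtain ⟨C2, h2⟩ := hB e he0
  obtain ⟨C3, h3⟩ := sum_moment P hp hδ0
  refine ⟨(|κ| * μ + |κ| * (e + C1)) * p + C2 + C3, ?_⟩
  filter_upwards [h.fld, h1, h2] with ε hf hK hM s hs x hx
  let w : ℕ → ℝ := fun k => κ * μ * (x + k) + |κ| * μ + |κ| * (e * (x + k + 1) + C1)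
  have hi : ∀ k : ℕ, Measurable ((bl b ε s (x + k)).indicator (1 : ℝ → ℝ≥0∞)) := fun k =>
    measurable_one.indicator (measurableSet_bl _ _ _ _)
  have h4 : ∀ ω, mass (X ε) (fun u => (bl b ε s x).indicator 1 u * ex (κ * K ε s u)) ω ≤
      ∑' k, ex (w k) * mass (X ε) ((bl b ε s (x + k)).indicator 1) ω := fun ω => by
    rw [← hf.mass_tsum w hi]
    refine mass_mono (fun u hu => ?_) ω
    by_cases hux : u ∈ bl b ε s x
    swap
    · simp [hux]
    have h5 : 0 ≤ LL b ε s u - x := sub_nonneg.mpr hux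
    have h6 := Nat.floor_le h5
    have h7 := Nat.lt_floor_add_one (LL b ε s u - x)
    refine le_trans ?_ (ENNReal.le_tsum ⌊LL b ε s u - x⌋₊)
    set k := ⌊LL b ε s u - x⌋₊
    rw [indicator_of_mem hux, indicator_of_mem (show u ∈ bl b ε s (x + k) from by
      show x + k ≤ LL b ε s u
      linarith), Pi.one_apply, one_mul, mul_one]
    refine ex_mono ?_
    have h8 : κ * (K ε s u - μ * LL b ε s u) ≤ |κ| * (e * (x + k + 1) + C1) := by
      refine (le_abs_self _).trans ((abs_mul _ _).trans_le (mul_le_mul_of_nonneg_left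
        ((hK s hs u hu).trans ?_) hk))
      nlinarith
    have h9 : κ * (LL b ε s u - (x + k)) ≤ |κ| := by
      refine (le_abs_self _).trans ((abs_mul _ _).trans_le (mul_le_of_le_one_right hk ?_))
      exact abs_le.mpr ⟨by linarith, by linarith⟩
    simp only [w]
    nlinarith
  refine (lintegral_mono fun ω => ENNReal.rpow_le_rpow (h4 ω) hp.le).trans
    ((h3 _ ((|κ| * μ + |κ| * (e + C1)) * p + C2 - (a - p * κ * μ - min η δ) * x)
      (fun k => (hf.meas_mass (hi k)).const_mul _) fun k => ?_).trans (ex_mono ?_))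
  · simp only [ENNReal.mul_rpow_of_nonneg _ _ hp.le, ex_rpow]
    rw [lintegral_const_mul' _ _ (ex_ne_top _)]
    refine (mul_le_mul' le_rfl (hM s hs (x + k) (by positivity))).trans ?_
    rw [← ex_add]
    refine ex_mono ?_
    have h5 : min η δ * k ≤ δ * k :=
      mul_le_mul_of_nonneg_right (min_le_right _ _) (Nat.cast_nonneg _)
    have h6 : a = 2 * δ + p * κ * μ := by linarith
    rw [← he1] at h5 ⊢
    simp only [w]
    nlinarith
  · nlinarith [mul_le_mul_of_nonneg_right (min_le_left η δ) hx]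

lemma moment (h : Fam b μ P X K v) (n : ℕ) : ∀ {p : ℝ}, 0 < p → p ≤ n + 1 → μ * p < 2 →
    Bd (fun ε s x => ∫⁻ ω, mass (X ε) ((bl b ε s x).indicator 1) ω ^ p ∂P)
      (p * (1 - μ * (p - 1) / 2)) := by
  induction n with
  | zero => exact fun hp0 hp1 _ => h.base hp0 (by simpa using hp1)
  | succ n ih =>
    intro p hp0 hp1 hp2
    rcases le_or_gt p 1 with hp | hp
    · exact h.base hp0 hp
    obtain ⟨θ, rfl⟩ : ∃ θ, p = θ + 1 := ⟨p - 1, by ring⟩
    have hθ : 0 < θ := by linarith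
    have hμ := h.pos
    have h1 := h.weight hθ 1 (by nlinarith)
      (ih hθ (by push_cast at hp1; linarith) (by nlinarith))
    intro η hη
    obtain ⟨C, hC⟩ := h1 η hη
    set a := θ * (1 - μ * (θ - 1) / 2) - θ * 1 * μ - η with ha
    refine ⟨2 + C + |a|, ?_⟩
    filter_upwards [h.fld, ev_small, hC] with ε hf hε hW s hs x hx
    refine (hf.step hθ (measurableSet_bl _ _ _ _) (A := ex (C - a * x + |a|))
      fun t ht ht' => ?_).trans ?_
    · refine le_trans (lintegral_mono fun ω => ENNReal.rpow_le_rpow (mass_mono (fun u hu =>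
        mul_le_mul' ?_ le_rfl) ω) hθ.le) ((hW t ht' (max (x - 1) 0) (le_max_right _ _)).trans
          (ex_mono ?_))
      · by_cases hux : u ∈ bl b ε s x
        swap
        · simp [hux]
        rw [indicator_of_mem hux, indicator_of_mem (show u ∈ bl b ε t (max (x - 1) 0) from
          max_le (LL_ultra hε.1 hs ht' hu ht hux) (LL_nonneg hε.1 hε.2 ht' hu))]
      · have h2 : a * (x - max (x - 1) 0) ≤ |a| := by
          refine (le_abs_self _).trans ((abs_mul _ _).trans_le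
            (mul_le_of_le_one_right (abs_nonneg _) (abs_le.mpr ⟨?_, ?_⟩)))
          · linarith [max_le (show x - 1 ≤ x by linarith) hx]
          · linarith [le_max_left (x - 1) 0]
        linarith
    · refine (mul_le_mul' (nu_bl_le hε.1 hs) le_rfl).trans ?_
      rw [← ex_add]
      exact ex_mono (le_of_eq (by rw [ha]; ring))

lemma wmoment (h : Fam b μ P X K v) {p : ℝ} (hp : 0 < p) (hp2 : μ * p < 2) (κ : ℝ)
    (hκ : κ * μ < 1 - μ * (p - 1) / 2) :
    ∃ a > 0, ∃ C, ∀ᶠ ε in 𝓝[>] (0 : ℝ), ∀ s ∈ Ico (0 : ℝ) 1, ∀ x ≥ 0, ∫⁻ ω,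
      mass (X ε) (fun u => (bl b ε s x).indicator 1 u * ex (κ * K ε s u)) ω ^ p ∂P ≤
        ex (C - a * x) := by
  have h1 : p * κ * μ < p * (1 - μ * (p - 1) / 2) := by nlinarith
  obtain ⟨C, hC⟩ := h.weight hp κ h1
    (h.moment ⌈p⌉₊ hp (by linarith [Nat.le_ceil p]) hp2) _ (half_pos (sub_pos.mpr h1))
  exact ⟨_, by linarith, C, hC⟩

end Fam

end Pool.Agent.Lib.MP_e22585_pr
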