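import Pool.Agent.Lib.MP_e22585_pr.Moments

/-!
# Uniform negative moments of the regularized chaos
-/

set_option autoImplicit false

noncomputable section

open MeasureTheory ProbabilityTheory Filter Set
open scoped ENNReal NNReal Topology

namespace Pool.Agent.Lib.MP_e22585_pr

variable {Ω : Type*} [MeasurableSpace Ω] {P : Measure Ω}

lemma ex_two (y : ℝ) : ex (y - 1) + ex (y - 1) ≤ ex y := by
  unfold ex
  rw [← ENNReal.ofReal_add (Real.exp_pos _).le (Real.exp_pos _).le]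
  refine ENNReal.ofReal_le_ofReal ?_
  rw [show y = 1 + (y - 1) by ring, Real.exp_add, add_sub_cancel_left]
  nlinarith [two_le_e, Real.exp_pos (y - 1)]

lemma ex_le_of {y : ℝ} {Z : ℝ≥0∞} (h : ex y ≤ ex (y - 1) + Z) : ex (y - 1) ≤ Z :=
  (ENNReal.add_le_add_iff_left (ex_ne_top _)).mp ((ex_two y).trans h)

lemma le_of_ex_mul {y z : ℝ} {Z : ℝ≥0∞} (h : ex y * Z ≤ ex z) : Z ≤ ex (z - y) := by
  have h1 := mul_le_mul' (le_refl (ex (-y))) h
  rwa [← mul_assoc, ← ex_add, ← ex_add, neg_add_cancel, ex_zero, one_mul, neg_add_eq_sub] at h1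

lemma le_of_ex_le {y z : ℝ} {Z : ℝ≥0∞} (h : ex z ≤ ex y * Z) : ex (z - y) ≤ Z := by
  have h1 := mul_le_mul' (le_refl (ex (-y))) h
  rwa [← mul_assoc, ← ex_add, ← ex_add, neg_add_cancel, ex_zero, one_mul, neg_add_eq_sub] at h1

lemma exists_ex_le {a : ℝ≥0∞} (ha : a ≠ 0) : ∃ A : ℝ, ex A ≤ a := by
  obtain ⟨C, hC⟩ := exists_le_ex (ENNReal.inv_ne_top.mpr ha)
  refine ⟨-C, ?_⟩
  rw [← ENNReal.inv_le_inv]
  refine hC.trans (le_of_eq (ENNReal.eq_inv_of_mul_eq_one_left ?_))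
  rw [← ex_add, add_neg_cancel, ex_zero]

lemma rpow_sum_le {J : Type*} (S : Finset J) (f : J → ℝ≥0∞) {p : ℝ} (hp0 : 0 < p) (hp1 : p ≤ 1) :
    (∑ j ∈ S, f j) ^ p ≤ ∑ j ∈ S, f j ^ p := by
  classical
  induction S using Finset.induction_on with
  | empty => simp [hp0]
  | insert j S hj ih =>
    rw [Finset.sum_insert hj, Finset.sum_insert hj]
    exact (ENNReal.rpow_add_le_add_rpow _ _ hp0.le hp1).trans (add_le_add le_rfl ih)

lemma paley {M : Ω → ℝ≥0∞} [IsProbabilityMeasure P] (hM : Measurable M) {A C p : ℝ} (hp : 1 < p)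
    (h1 : ex A ≤ ∫⁻ ω, M ω ∂P) (h2 : ∫⁻ ω, M ω ^ p ∂P ≤ ex C) :
    ex (A - 1 - (C - A + 2) / (p - 1)) ≤ P {ω | ex (A - 2) < M ω} := by
  set Λ := (C - A + 2) / (p - 1) with hΛ
  have hS : MeasurableSet {ω | ex (A - 2) < M ω} := measurableSet_lt measurable_const hM
  have h3 : ∀ ω, M ω ≤ ex (A - 2) + M ω ^ p * ex (Λ * (1 - p)) +
      ex Λ * {ω | ex (A - 2) < M ω}.indicator 1 ω := by
    intro ω
    rcases le_or_gt (M ω) (ex (A - 2)) with h | h
    · exact h.trans (le_self_add.trans le_self_add)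
    rcases le_or_gt (M ω) (ex Λ) with h' | h'
    · rw [indicator_of_mem (show ω ∈ {ω | ex (A - 2) < M ω} from h), Pi.one_apply, mul_one]
      exact h'.trans le_add_self
    refine le_trans ?_ (le_add_self.trans le_self_add)
    have h4 : M ω ^ p = M ω * M ω ^ (p - 1) := by
      conv_lhs => rw [show p = 1 + (p - 1) by ring]
      rw [ENNReal.rpow_add_of_nonneg _ _ zero_le_one (by linarith), ENNReal.rpow_one]
    rw [h4, mul_assoc]
    refine le_mul_of_one_le_right' ?_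
    refine le_trans ?_ (mul_le_mul' (ENNReal.rpow_le_rpow h'.le (by linarith)) le_rfl)
    rw [ex_rpow, ← ex_add, show Λ * (p - 1) + Λ * (1 - p) = 0 by ring, ex_zero]
  refine le_of_ex_le (ex_le_of (h1.trans ((lintegral_mono h3).trans ?_)))
  rw [lintegral_add_right _ ((measurable_one.indicator hS).const_mul _),
    lintegral_add_left measurable_const, lintegral_const_mul' _ _ (ex_ne_top _),
    lintegral_indicator_one hS, lintegral_mul_const' _ _ (ex_ne_top _), lintegral_const,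
    measure_univ, mul_one]
  refine add_le_add (le_trans (add_le_add (ex_mono (by linarith)) ?_) (ex_two (A - 1))) le_rfl
  refine (mul_le_mul' h2 le_rfl).trans ?_
  rw [← ex_add]
  refine ex_mono (le_of_eq ?_)
  have h5 : Λ * (p - 1) = C - A + 2 := div_mul_cancel₀ _ (by linarith)
  linarith

namespace Fam

variable {b : Bool} {μ : ℝ} {X : ℝ → ℝ → Ω → ℝ} {K : ℝ → ℝ → ℝ → ℝ} {v : ℝ → ℝ}

lemma neg_moment (h : Fam b μ P X K v) (hμ2 : μ < 2) {D : Set ℝ} (hD : MeasurableSet D)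
    (hD0 : nu D ≠ 0) {q : ℝ} (hq : 0 ≤ q) :
    ∃ C, ∀ᶠ ε in 𝓝[>] (0 : ℝ), ∫⁻ ω, mass (X ε) (D.indicator 1) ω ^ (-q) ∂P ≤ ex C := by
  classical
  have hμ := h.pos
  obtain ⟨p, hp1, hp2, hp3⟩ : ∃ p : ℝ, 1 < p ∧ p ≤ 2 ∧ μ * p < 2 := by
    rcases lt_or_ge μ 1 with h1 | h1
    · exact ⟨2, by norm_num, le_rfl, by linarith⟩
    · refine ⟨(μ + 2) / (2 * μ), ?_, ?_, ?_⟩
      · rw [lt_div_iff₀ (by linarith)]
        linarith
      · rw [div_le_iff₀ (by linarith)]
        linarith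
      · rw [show μ * ((μ + 2) / (2 * μ)) = (μ + 2) / 2 by field_simp]
        linarith
  set η := (p - 1) * (1 - μ * p / 2) / 2 with hη
  have hη0 : 0 < η := by
    have := mul_pos (sub_pos.mpr hp1) (show 0 < 1 - μ * p / 2 by linarith)
    linarith
  obtain ⟨C, hC⟩ := h.moment ⌈p⌉₊ (by linarith) (by linarith [Nat.le_ceil p]) hp3 η hη0
  rw [show p * (1 - μ * (p - 1) / 2) - η = 1 + η by rw [hη]; ring] at hC
  obtain ⟨C1, hC1⟩ := h.ker 1 one_pos
  obtain ⟨C2, hC2⟩ := exists_le_ex (tsum_ex_ne_top hη0)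
  obtain ⟨A, hA⟩ := exists_ex_le hD0
  set y := A - 1 - (C - A + 2) / (p - 1) with hy
  set β := (C2 + (C + 2 + η) - (y - 1)) / (p / 2) with hβ
  set c := 2 * max (μ + 1) C1 with hc
  have hc0 : 0 ≤ max (μ + 1) C1 := le_max_of_le_left (by linarith)
  refine ⟨(A - 2) * -q + q ^ 2 * (c * Real.exp β / Real.exp (A - 2) ^ 2) - (y - 1), ?_⟩
  filter_upwards [h.fld, ev_small, hC, hC1] with ε hf hε hM hK
  have := hf.gauss.isProbabilityMeasure
  have hi : ∀ {D : Set ℝ}, MeasurableSet D → Measurable (D.indicator (1 : ℝ → ℝ≥0∞)) :=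
    fun hD => measurable_one.indicator hD
  set n := ⌊-Real.log ε⌋₊ + 1 with hn
  have hT : 0 ≤ -Real.log ε := neg_nonneg.mpr (Real.log_nonpos hε.1.le hε.2)
  have hnet : ∀ k : ℕ, ∃ S : Finset ℝ, k ∈ Finset.range n → (S.card : ℝ≥0∞) ≤ ex (1 + k) ∧
      (∀ c ∈ S, c ∈ Ico (0 : ℝ) 1) ∧ ∀ s ∈ Ico (0 : ℝ) 1, ∃ c ∈ S, (k : ℝ) ≤ LL b ε c s := by
    intro k
    by_cases hk : k ∈ Finset.range n
    · have h1 : (k : ℝ) ≤ -Real.log ε :=
        (Nat.le_floor_iff hT).mp (Nat.lt_succ_iff.mp (Finset.mem_range.mp hk))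
      obtain ⟨S, hS⟩ := exists_net (b := b) hε.1 (Nat.cast_nonneg k)
        ((Real.log_le_iff_le_exp hε.1).mp (by linarith))
      exact ⟨S, fun _ => hS⟩
    · exact ⟨∅, fun h => absurd h hk⟩
  choose S hS using hnet
  let B : (Σ _ : ℕ, ℝ) → Set ℝ := fun j => bl b ε j.2 (max (j.1 - 1) 0)
  have hB : ∀ j, MeasurableSet (B j) := fun j => measurableSet_bl _ _ _ _
  have hdom : ∀ s ∈ Ico (0 : ℝ) 1, ∀ t ∈ Ico (0 : ℝ) 1, K ε s t ≤
      c * ∑ j ∈ (Finset.range n).sigma S, (B j).indicator 1 s * (B j).indicator 1 t := by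
    intro s hs t ht
    have h0 := LL_nonneg (b := b) hε.1 hε.2 hs ht
    have hnn : ∀ j, (0 : ℝ) ≤ (B j).indicator 1 s * (B j).indicator 1 t := fun j =>
      mul_nonneg (indicator_nonneg (fun _ _ => zero_le_one) _)
        (indicator_nonneg (fun _ _ => zero_le_one) _)
    have h1 : (⌊LL b ε s t⌋₊ + 1 : ℝ) ≤
        ∑ j ∈ (Finset.range n).sigma S, (B j).indicator 1 s * (B j).indicator 1 t := by
      have hsub : Finset.range (⌊LL b ε s t⌋₊ + 1) ⊆ Finset.range n :=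
        Finset.range_mono (Nat.succ_le_succ (Nat.floor_le_floor (LL_le hε.1)))
      rw [Finset.sum_sigma]
      refine le_trans ?_ (Finset.sum_le_sum_of_subset_of_nonneg hsub
        fun k _ _ => Finset.sum_nonneg fun _ _ => hnn _)
      refine le_trans (le_of_eq (by simp)) (Finset.sum_le_sum (f := fun _ => (1 : ℝ)) fun k hk => ?_)
      obtain ⟨c, hc, hcs⟩ := (hS k (hsub hk)).2.2 s hs
      have hc' := (hS k (hsub hk)).2.1 c hc
      have h2 : (k : ℝ) ≤ LL b ε s t :=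
        (Nat.le_floor_iff h0).mp (Nat.lt_succ_iff.mp (Finset.mem_range.mp hk))
      refine le_trans (le_of_eq ?_) (Finset.single_le_sum
        (f := fun c => (B ⟨k, c⟩).indicator (1 : ℝ → ℝ) s * (B ⟨k, c⟩).indicator 1 t)
        (fun _ _ => hnn _) hc)
      have h3 : s ∈ B ⟨k, c⟩ := max_le (by linarith) (LL_nonneg hε.1 hε.2 hc' hs)
      have h4 : t ∈ B ⟨k, c⟩ :=
        max_le (LL_ultra hε.1 hs hc' ht (LL_symm b ε c s ▸ hcs) h2) (LL_nonneg hε.1 hε.2 hc' ht)
      simp [h3, h4]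
    have h2 := Nat.lt_floor_add_one (LL b ε s t)
    have h3 : (0 : ℝ) ≤ ⌊LL b ε s t⌋₊ := Nat.cast_nonneg _
    have h4 := (abs_le.mp (hK s hs t ht)).2
    have h5 := le_max_left (μ + 1) C1
    have h6 := le_max_right (μ + 1) C1
    refine le_trans ?_ (mul_le_mul_of_nonneg_left h1 (by linarith))
    nlinarith
  have hE : Measurable fun ω => ∑ j ∈ (Finset.range n).sigma S, mass (X ε) ((B j).indicator 1) ω ^ 2 :=
    Finset.measurable_sum _ fun j _ => (hf.meas_mass (hi (hB j))).pow_const _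
  have hen : P {ω | ex β ≤ ∑ j ∈ (Finset.range n).sigma S, mass (X ε) ((B j).indicator 1) ω ^ 2} ≤
      ex (y - 1) := by
    have h1 := mul_meas_ge_le_lintegral (μ := P) (hE.pow_const (p / 2)) (ex β ^ (p / 2))
    simp only [ENNReal.rpow_le_rpow_iff (show 0 < p / 2 by linarith)] at h1
    rw [ex_rpow, hβ, div_mul_cancel₀ _ (by linarith)] at h1
    refine (le_of_ex_mul (z := C2 + (C + 2 + η)) (h1.trans ?_)).trans (ex_mono (by linarith))
    refine (lintegral_mono fun ω => rpow_sum_le _ _ (by linarith) (by linarith)).trans ?_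
    rw [lintegral_finsetSum _ fun j _ => ((hf.meas_mass (hi (hB j))).pow_const _).pow_const _,
      Finset.sum_sigma, ex_add]
    refine le_trans ?_ (mul_le_mul' hC2 le_rfl)
    rw [← ENNReal.tsum_mul_right]
    refine le_trans (Finset.sum_le_sum fun k hk => ?_) (ENNReal.sum_le_tsum (Finset.range n))
    refine (Finset.sum_le_card_nsmul _ _ (ex (C + 1 + η - (1 + η) * k)) fun c hc => ?_).trans ?_
    · simp only [← ENNReal.rpow_two, ← ENNReal.rpow_mul, show 2 * (p / 2) = p by ring]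
      refine (hM c ((hS k hk).2.1 c hc) _ (le_max_right _ _)).trans (ex_mono ?_)
      nlinarith [le_max_left ((k : ℝ) - 1) 0]
    · rw [nsmul_eq_mul]
      refine (mul_le_mul' (hS k hk).1 le_rfl).trans ?_
      rw [← ex_add, ← ex_add]
      exact ex_mono (le_of_eq (by ring))
  have hpz := paley (P := P) (hf.meas_mass (hi hD)) hp1 (A := A) (C := C)
    (by rwa [hf.lintegral_mass (hi hD), lintegral_indicator_one hD]) (by
      have h0 : (0 : ℝ) ∈ Ico (0 : ℝ) 1 := ⟨le_rfl, one_pos⟩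
      refine le_trans (lintegral_mono fun ω => ENNReal.rpow_le_rpow (mass_mono (fun u hu => ?_) ω)
        (by linarith)) ((hM 0 h0 0 le_rfl).trans (by simp))
      rw [indicator_of_mem (show u ∈ bl b ε 0 0 from LL_nonneg hε.1 hε.2 h0 hu)]
      exact indicator_le_self' (fun _ _ => zero_le) u)
  have h7 := hf.neg_cont hD ((Finset.range n).sigma S) B hB (by linarith) hdom
    (a := Real.exp (A - 2)) (b := Real.exp β) (Real.exp_pos _) hq
  refine le_of_ex_mul (le_trans (mul_le_mul' (ex_le_of (hpz.trans ?_)) le_rfl) (h7.trans ?_))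
  · refine le_trans (measure_mono fun ω hω => ?_)
      ((measure_union_le _ _).trans (add_le_add hen le_rfl))
    rcases le_or_gt (ex β)
      (∑ j ∈ (Finset.range n).sigma S, mass (X ε) ((B j).indicator 1) ω ^ 2) with h8 | h8
    exacts [Or.inl h8, Or.inr ⟨hω, h8⟩]
  · rw [ex_add, ← ex_rpow (A - 2)]
    rfl

end Fam

end Pool.Agent.Lib.MP_e22585_pr
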