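import Pool.Agent.Lib.MP_e22585_pr.Gauss

/-!
# Gaussian fields on `[0,1)`: sampling, Girsanov formula, lower tails
-/

set_option autoImplicit false

noncomputable section

open MeasureTheory ProbabilityTheory Filter Set
open scoped ENNReal NNReal Topology BoundedContinuousFunction

namespace Pool.Agent.Lib.MP_e22585_pr

/-- Lebesgue measure on `[0,1)`. -/
def nu : Measure ℝ := volume.restrict (Ico 0 1)

instance : IsProbabilityMeasure nu := ⟨by simp [nu]⟩

lemma ae_nu : ∀ᵐ u ∂nu, u ∈ Ico (0 : ℝ) 1 := ae_restrict_mem measurableSet_Ico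

/-- The law of an i.i.d. sequence of uniform points. -/
def nus : Measure (ℕ → ℝ) := Measure.infinitePi fun _ => nu

instance : IsProbabilityMeasure nus := by
  unfold nus
  infer_instance

lemma ae_nus : ∀ᵐ u ∂nus, ∀ i, u i ∈ Ico (0 : ℝ) 1 :=
  ae_all_iff.mpr fun i =>
    (measurePreserving_eval_infinitePi (fun _ => nu) i).quasiMeasurePreserving.ae ae_nu

variable {Ω : Type*} [MeasurableSpace Ω] {P : Measure Ω}

lemma sample [SFinite P] {H : ℝ → Ω → ℝ≥0∞} (hH : Measurable (Function.uncurry H))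
    (hfin : ∫⁻ ω, ∫⁻ u, H u ω ∂nu ∂P ≠ ∞) :
    ∀ᵐ u ∂nus, ∀ᵐ ω ∂P, Tendsto (fun N : ℕ => (∑ i : Fin N, H (u i) ω) / N) atTop
      (𝓝 (∫⁻ u, H u ω ∂nu)) := by
  have hI : Measurable fun ω => ∫⁻ u, H u ω ∂nu := hH.lintegral_prod_left'
  rw [Measure.ae_ae_comm]
  · filter_upwards [ae_lt_top hI hfin] with ω hω
    have hm : Measurable fun u => H u ω := hH.comp (measurable_id.prodMk measurable_const)
    have hev := fun i : ℕ => measurePreserving_eval_infinitePi (fun _ : ℕ => nu) i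
    have hint := integrable_toReal_of_lintegral_ne_top hm.aemeasurable hω.ne
    have h1 := strong_law_ae_real (μ := nus) (fun i u => (H (u i) ω).toReal)
      ((hev 0).integrable_comp_of_integrable hint)
      (fun i j hij => (iIndepFun_infinitePi (X := fun _ u => (H u ω).toReal)
        (fun _ => hm.ennreal_toReal)).indepFun hij)
      (fun i => by
        refine IdentDistrib.comp (u := fun u => (H u ω).toReal) ?_ hm.ennreal_toReal
        exact ⟨(hev i).aemeasurable, (hev 0).aemeasurable, (hev i).map_eq.trans (hev 0).map_eq.symm⟩)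
    have h2 : ∀ᵐ u ∂nus, ∀ i, H (u i) ω < ∞ := ae_all_iff.mpr fun i =>
      (hev i).quasiMeasurePreserving.ae (ae_lt_top hm hω.ne)
    have h3 : ∫ u, (H (u 0) ω).toReal ∂nus = (∫⁻ u, H u ω ∂nu).toReal := by
      rw [← integral_toReal hm.aemeasurable (ae_lt_top hm hω.ne), ← (hev 0).map_eq,
        integral_map (hev 0).aemeasurable hm.ennreal_toReal.aestronglyMeasurable]
      rfl
    filter_upwards [h1, h2] with u hu hu'
    rw [h3] at hu
    have h4 := ENNReal.tendsto_ofReal hu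
    rw [ENNReal.ofReal_toReal hω.ne] at h4
    refine h4.congr' ?_
    filter_upwards [eventually_gt_atTop 0] with N hN
    rw [ENNReal.ofReal_div_of_pos (Nat.cast_pos.mpr hN), ENNReal.ofReal_natCast,
      ENNReal.ofReal_sum_of_nonneg (fun _ _ => ENNReal.toReal_nonneg), Finset.sum_range]
    simp only [ENNReal.ofReal_toReal (hu' _).ne]
  · refine measurableSet_tendsto_fun (fun N => ?_) (hI.comp measurable_snd)
    refine Measurable.div_const (Finset.measurable_sum _ fun i _ => ?_) _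
    exact hH.comp (f := fun x : (ℕ → ℝ) × Ω => (x.1 i, x.2)) (by fun_prop)

/-- A jointly measurable Gaussian field on `[0,1)` with variance `v`, mean `-v/2` and bounded
covariance kernel `K`. -/
structure Fld (P : Measure Ω) (X : ℝ → Ω → ℝ) (K : ℝ → ℝ → ℝ) (v : ℝ) : Prop where
  gauss : IsGaussianProcess (fun t : Ico (0 : ℝ) 1 => X t) P
  meas : Measurable (Function.uncurry X)
  mean : ∀ t ∈ Ico (0 : ℝ) 1, P[X t] = -(v / 2)
  cov : ∀ s ∈ Ico (0 : ℝ) 1, ∀ t ∈ Ico (0 : ℝ) 1, cov[X s, X t; P] = K s t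
  diag : ∀ t ∈ Ico (0 : ℝ) 1, K t t = v
  measK : ∀ s, Measurable (K s)
  bdd : ∃ B, ∀ s ∈ Ico (0 : ℝ) 1, ∀ t ∈ Ico (0 : ℝ) 1, |K s t| ≤ B

/-- The mass of the weight `f` under the regularized chaos. -/
def mass (X : ℝ → Ω → ℝ) (f : ℝ → ℝ≥0∞) (ω : Ω) : ℝ≥0∞ := ∫⁻ u, f u * ex (X u ω) ∂nu

omit [MeasurableSpace Ω] in
lemma mass_mono {X : ℝ → Ω → ℝ} {f g : ℝ → ℝ≥0∞} (h : ∀ u ∈ Ico (0 : ℝ) 1, f u ≤ g u) (ω : Ω) :
    mass X f ω ≤ mass X g ω :=
  lintegral_mono_ae (ae_nu.mono fun u hu => mul_le_mul' (h u hu) le_rfl)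

namespace Fld

variable {X : ℝ → Ω → ℝ} {K : ℝ → ℝ → ℝ} {v : ℝ}

lemma measX (h : Fld P X K v) (t : ℝ) : Measurable (X t) :=
  h.meas.comp (measurable_const.prodMk measurable_id)

lemma measX' (h : Fld P X K v) (ω : Ω) : Measurable fun u => X u ω :=
  h.meas.comp (measurable_id.prodMk measurable_const)

lemma meas_int (h : Fld P X K v) {f : ℝ → ℝ≥0∞} (hf : Measurable f) :
    Measurable (Function.uncurry fun u ω => f u * ex (X u ω)) :=
  (hf.comp measurable_fst).mul (measurable_ex.comp h.meas)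

lemma meas_mass (h : Fld P X K v) {f : ℝ → ℝ≥0∞} (hf : Measurable f) : Measurable (mass X f) :=
  (h.meas_int hf).lintegral_prod_left'

lemma vec (h : Fld P X K v) {ι : Type} [Fintype ι] (t : ι → ℝ) (ht : ∀ i, t i ∈ Ico (0 : ℝ) 1) :
    HasGaussianLaw (fun ω i => X (t i) ω) P := by
  have h1 := (h.gauss.comp_right fun i => ⟨t i, ht i⟩).hasGaussianLaw Finset.univ
  exact h1.map (ContinuousLinearMap.pi fun i : ι =>
    (ContinuousLinearMap.proj (R := ℝ) (φ := fun _ : (Finset.univ : Finset ι) => ℝ)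
      ⟨i, Finset.mem_univ i⟩))

lemma tilt' (h : Fld P X K v) {ι : Type} [Fintype ι] (t : ι → ℝ) (ht : ∀ i, t i ∈ Ico (0 : ℝ) 1)
    (c : ι → ℝ) {G : (ι → ℝ) → ℝ≥0∞} (hG : Measurable G) :
    ∫⁻ ω, ex (∑ i, c i * X (t i) ω) * G (fun i => X (t i) ω) ∂P =
      ex (-((∑ i, c i) * (v / 2)) + (∑ i, ∑ j, c i * c j * K (t i) (t j)) / 2) *
        ∫⁻ ω, G (fun i => X (t i) ω + ∑ j, K (t i) (t j) * c j) ∂P := by
  rw [tilt (h.vec t ht) c hG]
  simp only [h.mean _ (ht _), h.cov _ (ht _) _ (ht _), mul_neg, Finset.sum_neg_distrib,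
    ← Finset.sum_mul]

lemma mgf (h : Fld P X K v) {ι : Type} [Fintype ι] (t : ι → ℝ) (ht : ∀ i, t i ∈ Ico (0 : ℝ) 1)
    (c : ι → ℝ) : ∫⁻ ω, ex (∑ i, c i * X (t i) ω) ∂P =
      ex (-((∑ i, c i) * (v / 2)) + (∑ i, ∑ j, c i * c j * K (t i) (t j)) / 2) := by
  have := h.gauss.isProbabilityMeasure
  simpa using h.tilt' t ht c (G := fun _ => 1) measurable_const

lemma mgf_one (h : Fld P X K v) {s : ℝ} (hs : s ∈ Ico (0 : ℝ) 1) (a : ℝ) :
    ∫⁻ ω, ex (a * X s ω) ∂P = ex (a * (a - 1) * v / 2) := by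
  have h1 := h.mgf (fun _ : Unit => s) (fun _ => hs) fun _ => a
  simp only [Finset.univ_unique, Finset.sum_singleton, h.diag s hs] at h1
  rw [h1]
  congr 1
  ring

lemma lintegral_mass (h : Fld P X K v) {f : ℝ → ℝ≥0∞} (hf : Measurable f) :
    ∫⁻ ω, mass X f ω ∂P = ∫⁻ u, f u ∂nu := by
  have := h.gauss.isProbabilityMeasure
  unfold mass
  rw [← lintegral_lintegral_swap (h.meas_int hf).aemeasurable]
  refine lintegral_congr_ae (ae_nu.mono fun u hu => ?_)
  have h1 := h.mgf_one hu 1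
  simp only [one_mul, sub_self, zero_mul, zero_div, ex_zero] at h1
  show ∫⁻ ω, f u * ex (X u ω) ∂P = f u
  rw [lintegral_const_mul _ (f := fun ω => ex (X u ω)) (measurable_ex.comp (h.measX u)), h1,
    mul_one]

lemma symm (h : Fld P X K v) {s t : ℝ} (hs : s ∈ Ico (0 : ℝ) 1) (ht : t ∈ Ico (0 : ℝ) 1) :
    K s t = K t s := by
  rw [← h.cov s hs t ht, ← h.cov t ht s hs, covariance_comm]

lemma sample_mass (h : Fld P X K v) {f : ℝ → ℝ≥0∞} (hf : Measurable f)
    (hfin : ∫⁻ u, f u ∂nu ≠ ∞) :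
    ∀ᵐ u ∂nus, ∀ᵐ ω ∂P, Tendsto (fun N : ℕ => (∑ i : Fin N, f (u i) * ex (X (u i) ω)) / N) atTop
      (𝓝 (mass X f ω)) := by
  have := h.gauss.isProbabilityMeasure
  exact sample (h.meas_int hf) ((h.lintegral_mass hf).trans_ne hfin)

/-- Girsanov's formula. -/
lemma girsanov (h : Fld P X K v) {s : ℝ} (hs : s ∈ Ico (0 : ℝ) 1) (a : ℝ) {f : ℝ → ℝ≥0∞}
    (hf : Measurable f) (hfin : ∫⁻ u, f u ∂nu ≠ ∞) {Ψ : ℝ≥0∞ → ℝ≥0∞} (hΨ : Measurable Ψ) :
    ∫⁻ ω, ex (a * X s ω) * Ψ (mass X f ω) ∂P =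
      ex (a * (a - 1) * v / 2) * ∫⁻ ω, Ψ (mass X (fun u => f u * ex (a * K s u)) ω) ∂P := by
  have := h.gauss.isProbabilityMeasure
  have hf' : Measurable fun u => f u * ex (a * K s u) :=
    hf.mul (measurable_ex.comp ((h.measK s).const_mul a))
  have hfin' : ∫⁻ u, f u * ex (a * K s u) ∂nu ≠ ∞ := by
    obtain ⟨B, hB⟩ := h.bdd
    refine ne_top_of_le_ne_top (ENNReal.mul_ne_top hfin (ex_ne_top (|a| * B))) ?_
    rw [← lintegral_mul_const _ hf]
    refine lintegral_mono_ae (ae_nu.mono fun u hu => mul_le_mul' le_rfl (ex_mono ?_))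
    exact (le_abs_self _).trans ((abs_mul _ _).trans_le
      (mul_le_mul_of_nonneg_left (hB s hs u hu) (abs_nonneg a)))
  have hρ : Measurable fun ω => ex (a * X s ω) := measurable_ex.comp ((h.measX s).const_mul a)
  have hfinQ : IsFiniteMeasure (P.withDensity fun ω => ex (a * X s ω)) :=
    isFiniteMeasure_withDensity ((h.mgf_one hs a).trans_ne (ex_ne_top _))
  obtain ⟨u, hu0, hu1, hu2⟩ :=
    (ae_nus.and ((h.sample_mass hf hfin).and (h.sample_mass hf' hfin'))).exists
  have key : (P.withDensity fun ω => ex (a * X s ω)).map (mass X f) =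
      (ex (a * (a - 1) * v / 2) • P).map (mass X fun u => f u * ex (a * K s u)) := by
    refine ext_of_forall_lintegral_eq_of_IsFiniteMeasure fun g => ?_
    have hg : Continuous fun x => (g x : ℝ≥0∞) := ENNReal.continuous_coe.comp g.continuous
    have hgb : ∀ x, (g x : ℝ≥0∞) ≤ nndist g 0 := fun x =>
      ENNReal.coe_le_coe.mpr (BoundedContinuousFunction.NNReal.upper_bound g x)
    rw [lintegral_map hg.measurable (h.meas_mass hf), lintegral_map hg.measurable (h.meas_mass hf'),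
      lintegral_withDensity_eq_lintegral_mul _ hρ (g := fun ω => g (mass X f ω))
        (hg.measurable.comp (h.meas_mass hf)),
      lintegral_smul_measure, smul_eq_mul]
    have hS : ∀ {f : ℝ → ℝ≥0∞} (N : ℕ),
        Measurable fun ω => (g ((∑ i : Fin N, f (u i) * ex (X (u i) ω)) / N) : ℝ≥0∞) :=
      fun N => hg.measurable.comp (Measurable.div_const (Finset.measurable_sum _ fun i _ =>
        (measurable_ex.comp (h.measX _)).const_mul _) _)
    have l1 := tendsto_lintegral_of_dominated_convergence (μ := P)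
      (F := fun N ω => ex (a * X s ω) * g ((∑ i : Fin N, f (u i) * ex (X (u i) ω)) / N))
      (f := fun ω => ex (a * X s ω) * g (mass X f ω)) (fun ω => ex (a * X s ω) * nndist g 0)
      (fun N => hρ.mul (hS N)) (fun N => Eventually.of_forall fun ω => mul_le_mul' le_rfl (hgb _))
      (by
        rw [lintegral_mul_const _ hρ, h.mgf_one hs]
        exact ENNReal.mul_ne_top (ex_ne_top _) ENNReal.coe_ne_top)
      (hu1.mono fun ω hω => ENNReal.Tendsto.const_mul ((hg.tendsto _).comp hω)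
        (Or.inr (ex_ne_top _)))
    have l2 := tendsto_lintegral_of_dominated_convergence (μ := P)
      (F := fun N ω => g ((∑ i : Fin N, f (u i) * ex (a * K s (u i)) * ex (X (u i) ω)) / N))
      (f := fun ω => g (mass X (fun u => f u * ex (a * K s u)) ω)) (fun _ => nndist g 0)
      (fun N => hS (f := fun u => f u * ex (a * K s u)) N)
      (fun N => Eventually.of_forall fun ω => hgb _) (by simp)
      (hu2.mono fun ω hω => (hg.tendsto _).comp hω)
    refine tendsto_nhds_unique l1 ((ENNReal.Tendsto.const_mul l2 (Or.inr (ex_ne_top _))).congr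
      fun N => ?_)
    have h1 := h.tilt' (ι := Option (Fin N)) (fun o => o.elim s fun i => u i)
      (fun o => by cases o; exacts [hs, hu0 _]) (fun o => o.elim a fun _ => 0)
      (G := fun x => g ((∑ i : Fin N, f (u i) * ex (x (some i))) / N))
      (hg.measurable.comp (by fun_prop))
    simp only [Fintype.sum_option, Option.elim_none, Option.elim_some, zero_mul, mul_zero,
      Finset.sum_const_zero, add_zero, h.diag s hs] at h1
    rw [h1]
    congr 1
    · congr 1
      ring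
    · refine lintegral_congr fun ω => ?_
      congr 3
      refine Finset.sum_congr rfl fun i _ => ?_
      rw [ex_add, h.symm (hu0 i) hs, mul_comm (K _ _) a]
      ring
  have e := congrArg (fun m : Measure ℝ≥0∞ => ∫⁻ x, Ψ x ∂m) key
  rwa [lintegral_map hΨ (h.meas_mass hf), lintegral_map hΨ (h.meas_mass hf'),
    lintegral_withDensity_eq_lintegral_mul _ hρ (g := fun ω => Ψ (mass X f ω))
      (hΨ.comp (h.meas_mass hf)),
    lintegral_smul_measure, smul_eq_mul] at e

lemma ind_fin {D : Set ℝ} : ∫⁻ u, D.indicator (1 : ℝ → ℝ≥0∞) u ∂nu ≠ ∞ := by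
  refine ne_top_of_le_ne_top (b := ∫⁻ _, 1 ∂nu) (by simp) (lintegral_mono fun u => ?_)
  exact indicator_le_self' (fun _ _ => zero_le) u

/-- Lower tail of the mass of a set. -/
lemma neg_cont (h : Fld P X K v) {D : Set ℝ} (hD : MeasurableSet D) {J : Type} (S : Finset J)
    (B : J → Set ℝ) (hB : ∀ j, MeasurableSet (B j)) {c : ℝ} (hc : 0 ≤ c)
    (hK : ∀ s ∈ Ico (0 : ℝ) 1, ∀ t ∈ Ico (0 : ℝ) 1,
      K s t ≤ c * ∑ j ∈ S, (B j).indicator 1 s * (B j).indicator 1 t)
    {a b p : ℝ} (ha : 0 < a) (hp : 0 ≤ p) :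
    P {ω | ENNReal.ofReal a < mass X (D.indicator 1) ω ∧
        ∑ j ∈ S, mass X ((B j).indicator 1) ω ^ 2 < ENNReal.ofReal b} *
      ∫⁻ ω, mass X (D.indicator 1) ω ^ (-p) ∂P ≤
      ENNReal.ofReal a ^ (-p) * ex (p ^ 2 * (c * b / a ^ 2)) := by
  have hi : ∀ {D : Set ℝ}, MeasurableSet D → Measurable (D.indicator (1 : ℝ → ℝ≥0∞)) :=
    fun hD => measurable_one.indicator hD
  obtain ⟨u, hu0, hu1, hu2⟩ := (ae_nus.and ((h.sample_mass (hi hD) ind_fin).and
    ((eventually_all_finset S).mpr fun j _ => h.sample_mass (hi (hB j)) ind_fin))).exists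
  replace hu2 := (eventually_all_finset S).mpr hu2
  let R : Set ℝ → (N : ℕ) → (Fin N → ℝ) → ℝ := fun D N x =>
    ∑ i : Fin N, D.indicator 1 (u i) / N * Real.exp (x i)
  have hw : ∀ (D : Set ℝ) (N : ℕ) (y : ℝ), (0 : ℝ) ≤ D.indicator 1 y / N := fun D N y =>
    div_nonneg (indicator_nonneg (fun _ _ => zero_le_one) _) (Nat.cast_nonneg _)
  have hR0 : ∀ D N x, 0 ≤ R D N x := fun D N x =>
    Finset.sum_nonneg fun i _ => mul_nonneg (hw _ _ _) (Real.exp_pos _).le
  have hR : ∀ (D : Set ℝ) (N : ℕ) (x : Fin N → ℝ), 0 < N →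
      (∑ i : Fin N, D.indicator 1 (u i) * ex (x i)) / N = ENNReal.ofReal (R D N x) := by
    intro D N x hN
    rw [ENNReal.ofReal_sum_of_nonneg fun i _ => mul_nonneg (hw _ _ _) (Real.exp_pos _).le,
      ENNReal.div_eq_inv_mul, Finset.mul_sum]
    refine Finset.sum_congr rfl fun i _ => ?_
    rw [ENNReal.ofReal_mul (hw _ _ _), ENNReal.ofReal_div_of_pos (Nat.cast_pos.mpr hN),
      ENNReal.ofReal_natCast, ENNReal.div_eq_inv_mul, mul_assoc]
    by_cases hu : u i ∈ D <;> simp [hu, ex]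
  have hRm : ∀ D N, Measurable (R D N) := fun D N => by fun_prop
  have hT : ∀ {D : Set ℝ} {ω : Ω}, Tendsto (fun N : ℕ =>
      (∑ i : Fin N, D.indicator 1 (u i) * ex (X (u i) ω)) / N) atTop
        (𝓝 (mass X (D.indicator 1) ω)) →
      Tendsto (fun N : ℕ => ENNReal.ofReal (R D N fun i => X (u i) ω)) atTop
        (𝓝 (mass X (D.indicator 1) ω)) := fun hω =>
    hω.congr' ((eventually_gt_atTop 0).mono fun N hN => hR _ _ _ hN)
  let A : (N : ℕ) → Set (Fin N → ℝ) := fun N => {x | a < R D N x ∧ ∑ j ∈ S, R (B j) N x ^ 2 < b}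
  have hA : ∀ N, MeasurableSet (A N) := fun N =>
    (measurableSet_lt measurable_const (hRm _ _)).inter
      (measurableSet_lt (Finset.measurable_sum _ fun j _ => (hRm _ _).pow_const _)
        measurable_const)
  have hV : ∀ N : ℕ, Measurable fun ω (i : Fin N) => X (u i) ω := fun N =>
    measurable_pi_lambda _ fun i => h.measX _
  have h1 : P {ω | ENNReal.ofReal a < mass X (D.indicator 1) ω ∧
        ∑ j ∈ S, mass X ((B j).indicator 1) ω ^ 2 < ENNReal.ofReal b} ≤
      liminf (fun N => ∫⁻ ω, (A N).indicator 1 (fun i : Fin N => X (u i) ω) ∂P) atTop := by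
    refine le_trans ?_ (lintegral_liminf_le fun N => (measurable_one.indicator (hA N)).comp (hV N))
    refine (lintegral_indicator_one ((measurableSet_lt measurable_const
      (h.meas_mass (hi hD))).inter (measurableSet_lt (Finset.measurable_sum _ fun j _ =>
        (h.meas_mass (hi (hB j))).pow_const _) measurable_const))).ge.trans ?_
    refine lintegral_mono_ae ?_
    filter_upwards [hu1, hu2] with ω hω1 hω2
    refine indicator_apply_le' (fun hω => ?_) fun _ => zero_le
    refine le_liminf_of_le (h := ?_)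
    have h3 : Tendsto (fun N : ℕ => ∑ j ∈ S, ENNReal.ofReal (R (B j) N fun i => X (u i) ω) ^ 2)
        atTop (𝓝 (∑ j ∈ S, mass X ((B j).indicator 1) ω ^ 2)) :=
      tendsto_finsetSum _ fun j hj => ENNReal.Tendsto.pow (hT (hω2 j hj))
    filter_upwards [(hT hω1).eventually (lt_mem_nhds hω.1), h3.eventually (gt_mem_nhds hω.2)]
      with N h4 h5
    refine (indicator_of_mem (s := A N) ⟨?_, ?_⟩ (1 : (Fin N → ℝ) → ℝ≥0∞)).ge
    · exact (ENNReal.ofReal_lt_ofReal_iff'.mp h4).1
    · simp only [← ENNReal.ofReal_pow (hR0 _ _ _)] at h5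
      rw [← ENNReal.ofReal_sum_of_nonneg fun j _ => sq_nonneg _] at h5
      exact (ENNReal.ofReal_lt_ofReal_iff'.mp h5).1
  have h2 : ∫⁻ ω, mass X (D.indicator 1) ω ^ (-p) ∂P ≤
      liminf (fun N => ∫⁻ ω, ENNReal.ofReal (R D N fun i => X (u i) ω) ^ (-p) ∂P) atTop := by
    refine le_trans ?_ (lintegral_liminf_le fun N =>
      (((hRm D N).comp (hV N)).ennreal_ofReal.pow_const _))
    refine lintegral_mono_ae (hu1.mono fun ω hω => ?_)
    exact ((ENNReal.continuous_rpow_const.tendsto _).comp (hT hω)).liminf_eq.ge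
  refine ENNReal.mul_le_of_forall_lt fun x hx y hy => ?_
  obtain ⟨N, hN1, hN2⟩ := ((eventually_lt_of_lt_liminf (hx.trans_le h1)).and
    (eventually_lt_of_lt_liminf (hy.trans_le h2))).exists
  refine (mul_le_mul' hN1.le hN2.le).trans ?_
  refine neg_fin (h.vec (fun i : Fin N => u i) fun i => hu0 i) (fun i => D.indicator 1 (u i) / N)
    (fun i => hw _ _ _) ha hp (measurable_one.indicator (hA N))
    (fun x => indicator_le_self' (fun _ _ => zero_le) x) fun x hx => ?_
  have hx' : x ∈ A N := by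
    by_contra hn
    exact hx (indicator_of_notMem hn _)
  refine ⟨hx'.1.le, ?_⟩
  rw [div_mul_cancel₀ _ (by positivity)]
  refine le_trans ?_ (mul_le_mul_of_nonneg_left hx'.2.le hc)
  have h3 : ∀ y : ℝ, D.indicator (1 : ℝ → ℝ) y ≤ 1 := fun y =>
    indicator_le_self' (fun _ _ => zero_le_one) y
  calc _ ≤ ∑ i : Fin N, ∑ k : Fin N, 1 / N * Real.exp (x i) * (1 / N * Real.exp (x k)) *
        (c * ∑ j ∈ S, (B j).indicator 1 (u i) * (B j).indicator 1 (u k)) := by
        refine Finset.sum_le_sum fun i _ => Finset.sum_le_sum fun k _ => ?_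
        rw [h.cov _ (hu0 i) _ (hu0 k)]
        have h4 : (0 : ℝ) ≤ c * ∑ j ∈ S, (B j).indicator 1 (u i) * (B j).indicator 1 (u k) :=
          mul_nonneg hc (Finset.sum_nonneg fun j _ => mul_nonneg
            (indicator_nonneg (fun _ _ => zero_le_one) _)
            (indicator_nonneg (fun _ _ => zero_le_one) _))
        refine (mul_le_mul_of_nonneg_left (hK _ (hu0 i) _ (hu0 k)) (mul_nonneg
          (mul_nonneg (hw _ _ _) (Real.exp_pos _).le)
          (mul_nonneg (hw _ _ _) (Real.exp_pos _).le))).trans ?_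
        have h5 := h3 (u i)
        have h6 := h3 (u k)
        have h7 := hw D N (u k)
        gcongr
    _ = _ := by
        simp only [R, sq, Finset.sum_mul_sum]
        simp only [Finset.mul_sum]
        rw [Finset.sum_comm (s := S)]
        refine Finset.sum_congr rfl fun i _ => ?_
        rw [Finset.sum_comm (s := S)]
        exact Finset.sum_congr rfl fun k _ => Finset.sum_congr rfl fun j _ => by ring

end Fld

end Pool.Agent.Lib.MP_e22585_pr
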