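import Pool.Agent.Lib.MP_e22585_pr.ExE

/-!
# The identity fails for an unbounded integrable weight
-/

set_option autoImplicit false

noncomputable section

open MeasureTheory ProbabilityTheory Filter Set
open scoped ENNReal NNReal Topology

namespace Pool.Agent.Lib.MP_e22585_pr

variable {Ω Ω' : Type*} [MeasurableSpace Ω] [MeasurableSpace Ω'] {P : Measure Ω} {P' : Measure Ω'}

lemma jensen {ν : Measure ℝ} [IsProbabilityMeasure ν] {Y : ℝ → ℝ} (hY : Measurable Y) {q : ℝ}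
    (hq : q < 0) : (∫⁻ u, ex (Y u) ∂ν) ^ q ≤ ∫⁻ u, ex (q * Y u) ∂ν := by
  have h0 : 0 < 1 - q := by linarith
  have h1 := ENNReal.lintegral_mul_norm_pow_le (μ := ν) (f := fun u => ex (Y u))
    (g := fun u => ex (q * Y u)) (measurable_ex.comp hY).aemeasurable
    (measurable_ex.comp (hY.const_mul q)).aemeasurable (p := -q / (1 - q)) (q := 1 / (1 - q))
    (div_nonneg (by linarith) h0.le) (by positivity) (by field_simp; ring)
  have h2 : ∀ u, ex (Y u) ^ (-q / (1 - q)) * ex (q * Y u) ^ (1 / (1 - q)) = 1 := fun u => by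
    rw [ex_rpow, ex_rpow, ← ex_add, ← ex_zero]
    congr 1
    ring
  simp only [h2, lintegral_const, measure_univ, mul_one] at h1
  have h3 := ENNReal.rpow_le_rpow h1 h0.le
  rw [ENNReal.one_rpow, ENNReal.mul_rpow_of_nonneg _ _ h0.le, ← ENNReal.rpow_mul,
    ← ENNReal.rpow_mul, div_mul_cancel₀ _ h0.ne', div_mul_cancel₀ _ h0.ne', ENNReal.rpow_one] at h3
  rw [← neg_neg q, ENNReal.rpow_neg, neg_neg]
  refine (ENNReal.inv_le_iff_le_mul (fun _ h => ?_) fun _ h => ?_).mpr h3 <;> simp [h] at h3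

lemma rpow_anti {x y : ℝ≥0∞} (h : x ≤ y) {q : ℝ} (hq : q < 0) : y ^ q ≤ x ^ q := by
  have h1 := ENNReal.inv_le_inv.mpr (ENNReal.rpow_le_rpow h (neg_nonneg.mpr hq.le))
  rwa [← ENNReal.rpow_neg, ← ENNReal.rpow_neg, neg_neg] at h1

/-- The spikes of the weight. -/
def spike (L : ℝ) (k : ℕ) : Set ℝ :=
  Ioc (Real.exp (-(k + 1))) (Real.exp (-(k + 1)) + Real.exp (-(L * (k + 1))))

lemma measurableSet_spike (L : ℝ) (k : ℕ) : MeasurableSet (spike L k) := measurableSet_Ioc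

lemma spike_sub {L : ℝ} (hL : 1 ≤ L) (k : ℕ) :
    spike L k ⊆ Ioo (Real.exp (-(k + 1))) (Real.exp (-k)) := fun u hu => by
  refine ⟨hu.1, hu.2.trans_lt ?_⟩
  have h0 : (0 : ℝ) ≤ k := Nat.cast_nonneg k
  have h1 : Real.exp (-(L * (k + 1))) ≤ Real.exp (-(k + 1)) := Real.exp_le_exp.mpr (by nlinarith)
  have h2 : Real.exp (-k) = Real.exp 1 * Real.exp (-(k + 1)) := by
    rw [← Real.exp_add]
    congr 1
    ring
  nlinarith [Real.add_one_lt_exp (one_ne_zero (α := ℝ)), Real.exp_pos (-((k : ℝ) + 1))]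

lemma spike_sub' {L : ℝ} (hL : 1 ≤ L) (k : ℕ) : spike L k ⊆ Ioo 0 1 := fun _ hu =>
  ⟨(Real.exp_pos _).trans (spike_sub hL k hu).1, (spike_sub hL k hu).2.trans_le
    (Real.exp_le_one_iff.mpr (neg_nonpos.mpr (Nat.cast_nonneg k)))⟩

lemma vol_spike (L : ℝ) (k : ℕ) : volume (spike L k) = ex (-(L * (k + 1))) := by
  rw [spike, Real.volume_Ioc, add_sub_cancel_left, ex]

/-- The sum of the spikes. -/
def spikes (L θ : ℝ) (u : ℝ) : ℝ≥0∞ :=
  ∑' k : ℕ, ex (L * (k + 1) - θ * k) * (spike L k).indicator 1 u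

lemma meas_spike (L c : ℝ) (k : ℕ) :
    Measurable fun u => ex c * (spike L k).indicator (1 : ℝ → ℝ≥0∞) u :=
  (measurable_one.indicator measurableSet_Ioc).const_mul _

lemma measurable_spikes (L θ : ℝ) : Measurable (spikes L θ) :=
  Measurable.tsum fun k => meas_spike L _ k

lemma lint_sum (L : ℝ) (c : ℕ → ℝ) (m : Measure ℝ) :
    ∫⁻ u, ∑' k : ℕ, ex (c k) * (spike L k).indicator 1 u ∂m = ∑' k : ℕ, ex (c k) * m (spike L k) := by
  rw [lintegral_tsum fun k => (meas_spike L _ k).aemeasurable]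
  refine tsum_congr fun k => ?_
  rw [lintegral_const_mul' _ _ (ex_ne_top _), lintegral_indicator_one (measurableSet_spike L k)]

lemma lint_spikes (L : ℝ) {θ : ℝ} (hθ : 0 < θ) : ∫⁻ u, spikes L θ u ≠ ∞ := by
  unfold spikes
  rw [lint_sum]
  simp only [vol_spike, ← ex_add]
  convert tsum_ex_ne_top hθ using 4
  ring

lemma lhs_le {X : ℝ → Ω → ℝ} {μ ε L θ q : ℝ} (hμ : 0 ≤ μ) (hε : 0 < ε)
    (h : IsCutoffField false μ (fun t => |t|) P ε 0 X) (hL : 1 ≤ L) (hθ : 0 < θ) (hq : q < 0)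
    {k : ℕ} (hk : Real.exp (-k) ≤ ε) :
    ∫⁻ ω, (∫⁻ u in Ioo 0 1,
      ENNReal.ofReal ((1 + (spikes L θ u).toReal) * Real.exp (X u ω - X 0 ω))) ^ q ∂P ≤
      ex (-(θ * k) * q + μ * q ^ 2) := by
  have hf := h.fld hε
  have := h.gauss.isProbabilityMeasure
  let ν : Measure ℝ := ex (L * (k + 1)) • volume.restrict (spike L k)
  have hν : IsProbabilityMeasure ν := ⟨by
    simp only [ν, Measure.smul_apply, Measure.restrict_apply_univ, vol_spike, smul_eq_mul]
    rw [← ex_add, add_neg_cancel, ex_zero]⟩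
  have hae : ∀ᵐ u ∂ν, u ∈ spike L k := Measure.ae_smul_measure (ae_restrict_mem measurableSet_Ioc) _
  have h1 : ∀ ω, ex (-(θ * k)) * ∫⁻ u, ex (X u ω - X 0 ω) ∂ν ≤ ∫⁻ u in Ioo 0 1,
      ENNReal.ofReal ((1 + (spikes L θ u).toReal) * Real.exp (X u ω - X 0 ω)) := fun ω => by
    rw [lintegral_smul_measure, smul_eq_mul, ← mul_assoc, ← ex_add,
      ← lintegral_const_mul' _ _ (ex_ne_top _)]
    refine le_trans (lintegral_mono_ae ?_) (lintegral_mono_set (spike_sub' hL k))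
    filter_upwards [ae_restrict_mem measurableSet_Ioc, ae_restrict_of_ae
      (ae_lt_top (measurable_spikes L θ) (lint_spikes L hθ))] with u hu hfin
    rw [ENNReal.ofReal_mul' (Real.exp_pos _).le, ENNReal.ofReal_add zero_le_one
      ENNReal.toReal_nonneg, ENNReal.ofReal_toReal hfin.ne]
    refine mul_le_mul' (le_add_left (le_trans (le_of_eq ?_) (ENNReal.le_tsum k))) le_rfl
    rw [indicator_of_mem hu, Pi.one_apply, mul_one, neg_add_eq_sub]
  have hm : Measurable (Function.uncurry fun ω u => ex (q * (X u ω - X 0 ω))) :=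
    measurable_ex.comp (((hf.meas.comp measurable_swap).sub
      ((hf.measX 0).comp measurable_fst)).const_mul q)
  calc _ ≤ ∫⁻ ω, ex (-(θ * k) * q) * ∫⁻ u, ex (q * (X u ω - X 0 ω)) ∂ν ∂P := by
        refine lintegral_mono fun ω => ?_
        refine le_trans ?_ (mul_le_mul' le_rfl (jensen ((hf.measX' ω).sub_const _) hq))
        rw [← ex_rpow, ← ex_mul_rpow]
        exact rpow_anti (h1 ω) hq
    _ ≤ _ := by
        rw [lintegral_const_mul' _ _ (ex_ne_top _), ex_add, lintegral_lintegral_swap hm.aemeasurable]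
        refine mul_le_mul' le_rfl ((lintegral_mono_ae (g := fun _ => ex (μ * q ^ 2))
          (hae.mono fun u hu => ?_)).trans (by simp))
        have hu1 := Ioo_subset_Ico_self (spike_sub' hL k hu)
        have h00 : (0 : ℝ) ∈ Ico (0 : ℝ) 1 := ⟨le_rfl, one_pos⟩
        have h2 := hf.mgf ![u, 0] (fun i => by fin_cases i <;> assumption) ![q, -q]
        have h3 : |u - 0| ≤ ε := by
          rw [sub_zero, abs_of_nonneg hu1.1]
          exact (spike_sub hL k hu).2.le.trans hk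
        simp only [Fin.sum_univ_two, Matrix.cons_val_zero, Matrix.cons_val_one,
          h.diag hε hu1, h.diag hε h00, covariance_comm (X 0) (X u), h.near u hu1 0 h00 h3,
          deriv_log_abs hε] at h2
        refine ((lintegral_congr fun ω => congrArg ex (by ring)).trans h2).trans_le (ex_mono ?_)
        have h4 := mul_le_mul_of_nonneg_left ((div_le_one hε).mpr h3) (mul_nonneg hμ (sq_nonneg q))
        nlinarith

lemma spikes_fin [IsProbabilityMeasure P] [IsProbabilityMeasure P'] {X : ℝ → ℝ → Ω → ℝ}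
    {K : ℝ → ℝ → ℝ → ℝ} {v : ℝ → ℝ} {M : Ω' → Measure ℝ} {μ q θ : ℝ} (hF : Fam false μ P X K v)
    (hM : Lim P P' X M) (hq : q < -1) (hθ : 0 < θ) :
    ∀ᵐ ω ∂P', ∑' k : ℕ, ex (-8 * q * (k + 1) - θ * k - μ * q * (k + 1)) *
      M ω (spike (-8 * q) k) < ∞ := by
  have hμ := hF.pos
  have hL : 1 ≤ -8 * q := by linarith
  obtain ⟨C, hC⟩ := hF.base (p := 1 / 2) one_half_pos (by norm_num) (μ / 16) (by positivity)
  obtain ⟨C', hC'⟩ := sum_moment P' one_half_pos (half_pos hθ)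
  have hi : ∀ k, Measurable ((spike (-8 * q) k).indicator (1 : ℝ → ℝ≥0∞)) := fun k =>
    measurable_one.indicator measurableSet_Ioc
  have hY : ∀ k, Measurable fun ω => M ω (spike (-8 * q) k) := fun k =>
    (Measure.measurable_coe measurableSet_Ioc).comp hM.meas
  have h1 := hC' (fun k ω => ex (-8 * q * (k + 1) - θ * k - μ * q * (k + 1)) *
    M ω (spike (-8 * q) k)) C (fun k => (hY k).const_mul _) fun k => by
      have h0 : (0 : ℝ) ≤ k := Nat.cast_nonneg k
      have h2 := ((hM.integrable hF.fld (hi k) (fun u => ne_top_of_le_ne_top ENNReal.one_ne_top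
        (indicator_le_self' (fun _ _ => zero_le) u)) Fld.ind_fin).rpow (1 / 2)).fatou
        ((hM.measI (hi k)).pow_const _)
        (A := ex (C - (1 / 2 * (1 - μ * (1 / 2 - 1) / 2) - μ / 16) * (-8 * q * (k + 1)))) (by
          filter_upwards [hC, Ioc_mem_nhdsGT (Real.exp_pos (-(-8 * q * (k + 1))))] with ε h3 hε
          refine le_trans (lintegral_mono fun ω => ENNReal.rpow_le_rpow (mass_mono
            (fun u _ => indicator_le_indicator_of_subset (fun u hu => ?_) (fun _ => zero_le) u) ω)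
            one_half_pos.le) (h3 (Real.exp (-(k + 1))) ⟨(Real.exp_pos _).le,
              Real.exp_lt_one_iff.mpr (by linarith)⟩ _ (by nlinarith))
          refine (le_LL hε.1).mpr ⟨(dd_le _ _ _).trans (abs_le.mpr ⟨?_, ?_⟩), hε.2⟩
          · linarith [hu.2]
          · linarith [hu.1, Real.exp_pos (-(-8 * q * (k + 1)))])
      simp only [lintegral_indicator_one (measurableSet_spike _ k)] at h2
      simp only [ex_mul_rpow, ex_rpow]
      rw [lintegral_const_mul' _ _ (ex_ne_top _)]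
      refine (mul_le_mul' le_rfl h2).trans ?_
      rw [← ex_add]
      exact ex_mono (le_of_eq (by ring))
  filter_upwards [ae_lt_top ((Measurable.tsum fun k => (hY k).const_mul _).pow_const _)
    (ne_top_of_le_ne_top (ex_ne_top _) h1)] with ω hω
  refine lt_top_iff_ne_top.mpr fun h => ?_
  rw [h, ENNReal.top_rpow_of_pos one_half_pos] at hω
  exact lt_irrefl _ hω

theorem unbounded {μ q : ℝ} (hμ : μ ∈ Ioo (0 : ℝ) 2) (hq : q ∈ Ioo (-1 / μ - 1 / 2) (-1)) :
    ∃ φ : ℝ → ℝ, Measurable φ ∧ (∀ u, 1 ≤ φ u) ∧ IntegrableOn φ (Ioo 0 1) ∧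
      ∀ {Ω Ω' : Type} [MeasurableSpace Ω] [MeasurableSpace Ω'] (P : Measure Ω) (P' : Measure Ω')
        [IsProbabilityMeasure P] [IsProbabilityMeasure P'] (X : ℝ → ℝ → Ω → ℝ)
        (M : Ω' → Measure ℝ),
        (∀ᶠ ε in 𝓝[>] (0 : ℝ), IsCutoffField false μ (fun t => |t|) P ε 0 (X ε)) →
        IsChaos P P' X M →
        (∀ᵐ ω ∂P', ∫⁻ u in Ioo 0 1, ENNReal.ofReal (|u| ^ (μ * q) * φ u) ∂M ω ∈ Ioo 0 ∞) ∧
        ∫⁻ ω, (∫⁻ u in Ioo 0 1, ENNReal.ofReal (|u| ^ (μ * q) * φ u) ∂M ω) ^ q ∂P' ∈ Ioo 0 ∞ ∧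
        Tendsto (fun ε => ENNReal.ofReal (Real.exp (μ * (Real.log |ε| - 1) * (q * (q + 1) / 2))) *
          ∫⁻ ω, (∫⁻ u in Ioo 0 1, ENNReal.ofReal (φ u * Real.exp (X ε u ω - X ε 0 ω))) ^ q ∂P)
          (𝓝[>] 0) (𝓝 0) := by
  have hq0 : q < 0 := by linarith [hq.2]
  have hγ : 0 < μ * (q * (q + 1) / 2) :=
    mul_pos hμ.1 (half_pos (mul_pos_of_neg_of_neg hq0 (by linarith [hq.2])))
  set γ := μ * (q * (q + 1) / 2) with hγd
  have hθ : 0 < γ / (2 * -q) := div_pos hγ (by linarith)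
  have hθq : γ / (2 * -q) * q = -(γ / 2) := by
    field_simp [hq0.ne]
  set θ := γ / (2 * -q)
  have hL : 1 ≤ -8 * q := by linarith [hq.2]
  have hs := measurable_spikes (-8 * q) θ
  have hφ : Measurable fun u => 1 + (spikes (-8 * q) θ u).toReal := hs.ennreal_toReal.const_add 1
  have hφ1 : ∀ u, 1 ≤ 1 + (spikes (-8 * q) θ u).toReal := fun u =>
    le_add_of_nonneg_right ENNReal.toReal_nonneg
  refine ⟨_, hφ, hφ1, (integrableOn_const (by simp)).add (integrable_toReal_of_lintegral_ne_top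
    hs.aemeasurable (lint_spikes _ hθ)).integrableOn, fun P P' _ _ X M hX hM => ?_⟩
  have hnu : volume.restrict (Ioo (0 : ℝ) 1) = nu := Measure.restrict_congr_set Ioo_ae_eq_Ico
  have hF := fam (D := fun _ => 0) hμ.1 admissible_abs (by simp) hX
  have hl : Lim P P' X M := ⟨hM.meas, hM.fin, fun f => hnu ▸ hM.conv f⟩
  obtain ⟨h1, h2, -⟩ := centered (D := fun _ => 0) hμ admissible_abs tendsto_const_nhds hX hM
    (φ := fun _ => 1) measurable_const (fun _ _ => one_pos) ⟨1, by rintro _ ⟨u, -, rfl⟩; exact le_rfl⟩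
    (q := q) ⟨hq.1, hq0.trans (div_pos two_pos hμ.1)⟩
  have h3 : ∀ ω, ∫⁻ u in Ioo 0 1, ENNReal.ofReal (|u| ^ (μ * q) * 1) ∂M ω ≤ ∫⁻ u in Ioo 0 1,
      ENNReal.ofReal (|u| ^ (μ * q) * (1 + (spikes (-8 * q) θ u).toReal)) ∂M ω := fun ω =>
    lintegral_mono fun u => ENNReal.ofReal_le_ofReal
      (mul_le_mul_of_nonneg_left (hφ1 u) (by positivity))
  have hw : Measurable fun u : ℝ => |u| ^ (μ * q) := by fun_prop
  have h4 : ∀ᵐ ω ∂P', ∫⁻ u in Ioo 0 1,
      ENNReal.ofReal (|u| ^ (μ * q) * (1 + (spikes (-8 * q) θ u).toReal)) ∂M ω ∈ Ioo 0 ∞ := by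
    filter_upwards [h1, spikes_fin hF hl hq.2 hθ] with ω h5 h6
    refine ⟨h5.1.trans_le (h3 ω), lt_of_le_of_lt ?_ (ENNReal.add_lt_top.mpr ⟨h5.2, h6⟩)⟩
    rw [← lint_sum]
    refine le_trans ?_ (add_le_add le_rfl (setLIntegral_le_lintegral (Ioo 0 1) _))
    rw [← lintegral_add_left (hw.mul_const 1).ennreal_ofReal]
    refine lintegral_mono fun u => ?_
    rw [mul_add]
    refine ENNReal.ofReal_add_le.trans (add_le_add le_rfl ?_)
    rw [ENNReal.ofReal_mul (by positivity)]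
    refine (mul_le_mul' le_rfl ENNReal.ofReal_toReal_le).trans ?_
    rw [spikes, ← ENNReal.tsum_mul_left]
    refine ENNReal.tsum_le_tsum fun k => ?_
    by_cases hu : u ∈ spike (-8 * q) k
    · rw [← mul_assoc, sub_eq_neg_add _ (μ * q * _), ex_add]
      refine mul_le_mul' (mul_le_mul' (ENNReal.ofReal_le_ofReal ?_) le_rfl) le_rfl
      rw [show -(μ * q * (k + 1)) = -(k + 1) * (μ * q) by ring, Real.exp_mul]
      exact Real.rpow_le_rpow_of_nonpos (Real.exp_pos _) (hu.1.le.trans (le_abs_self u))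
        (mul_neg_of_pos_of_neg hμ.1 hq0).le
    · rw [indicator_of_notMem hu, mul_zero, mul_zero]
      exact zero_le
  have hW : Measurable fun ω => ∫⁻ u in Ioo 0 1,
      ENNReal.ofReal (|u| ^ (μ * q) * (1 + (spikes (-8 * q) θ u).toReal)) ∂M ω := by
    simp only [← lintegral_indicator measurableSet_Ioo]
    exact hl.measI ((hw.mul hφ).ennreal_ofReal.indicator measurableSet_Ioo)
  refine ⟨h4, ⟨pos_iff_ne_zero.mpr fun h => ?_, lt_of_le_of_lt (lintegral_mono fun ω => ?_) h2⟩, ?_⟩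
  · obtain ⟨ω, h5, h6⟩ := (h4.and ((lintegral_eq_zero_iff (hW.pow_const q)).mp h)).exists
    exact (ENNReal.rpow_pos h5.1 h5.2.ne).ne' h6
  · exact rpow_anti (h3 ω) hq0
  have h5 : Tendsto (fun ε => ex (γ / 2 * Real.log ε + μ * q ^ 2)) (𝓝[>] 0) (𝓝 0) := by
    simpa [ex] using ENNReal.tendsto_ofReal (Real.tendsto_exp_atBot.comp (tendsto_atBot_add_const_right
      _ (μ * q ^ 2) (Real.tendsto_log_nhdsGT_zero.const_mul_atBot (half_pos hγ))))
  refine tendsto_of_tendsto_of_tendsto_of_le_of_le' tendsto_const_nhds h5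
    (Eventually.of_forall fun _ => zero_le) ?_
  filter_upwards [hX, ev_small] with ε h hε
  have h6 : 0 ≤ -Real.log ε := neg_nonneg.mpr (Real.log_nonpos hε.1.le hε.2)
  have h7 := Nat.le_ceil (-Real.log ε)
  have h8 := Nat.ceil_lt_add_one h6
  refine (mul_le_mul' le_rfl (lhs_le hμ.1.le hε.1 h hL hθ hq0 (k := ⌈-Real.log ε⌉₊)
    ((Real.exp_le_exp.mpr (by linarith)).trans_eq (Real.exp_log hε.1)))).trans ?_
  rw [← ex, ← ex_add, Real.log_abs]
  refine ex_mono ?_
  have h9 : -(θ * ⌈-Real.log ε⌉₊) * q = γ / 2 * ⌈-Real.log ε⌉₊ := by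
    linear_combination (-(⌈-Real.log ε⌉₊ : ℝ)) * hθq
  have h10 : μ * (Real.log ε - 1) * (q * (q + 1) / 2) = γ * (Real.log ε - 1) := by
    rw [hγd]
    ring
  rw [h9, h10]
  nlinarith

theorem weight_conv [IsProbabilityMeasure P] [IsProbabilityMeasure P'] {X : ℝ → ℝ → Ω → ℝ}
    {M : Ω' → Measure ℝ} {μ : ℝ}
    (hX : ∀ᶠ ε in 𝓝[>] (0 : ℝ), IsCutoffField false μ (fun t => |t|) P ε 0 (X ε))
    (hM : IsChaos P P' X M) (hm : ∀ ε, Measurable (Function.uncurry (X ε))) {φ : ℝ → ℝ}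
    (hφ : Measurable φ) (hi : IntegrableOn φ (Ioo 0 1)) :
    TendstoInDistribution
      (fun ε ω => ∫⁻ u in Ioo (0 : ℝ) 1, ENNReal.ofReal (φ u * Real.exp (X ε u ω))) (𝓝[>] 0)
      (fun ω => ∫⁻ u, ENNReal.ofReal (φ u) ∂M ω) (fun _ => P) P' := by
  have hnu : volume.restrict (Ioo (0 : ℝ) 1) = nu := Measure.restrict_congr_set Ioo_ae_eq_Ico
  have hl : Lim P P' X M := ⟨hM.meas, hM.fin, fun f => hnu ▸ hM.conv f⟩
  have h1 := hl.integrable ((hX.and ev_small).mono fun ε h => h.1.fld h.2.1) hφ.ennreal_ofReal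
    (fun _ => ENNReal.ofReal_ne_top) (hnu ▸ hi.lintegral_lt_top.ne)
  have h2 : ∀ ε, (fun ω => ∫⁻ u in Ioo (0 : ℝ) 1, ENNReal.ofReal (φ u * Real.exp (X ε u ω))) =
      mass (X ε) fun u => ENNReal.ofReal (φ u) := fun ε => by
    funext ω
    simp only [hnu, mass, ex, ENNReal.ofReal_mul' (Real.exp_pos _).le]
  have h3 : ∀ ε, Measurable (mass (X ε) fun u => ENNReal.ofReal (φ u)) := fun ε =>
    ((hφ.ennreal_ofReal.comp measurable_fst).mul (measurable_ex.comp (hm ε))).lintegral_prod_left'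
  have h4 := hl.measI hφ.ennreal_ofReal
  rw [funext h2]
  refine ⟨fun ε => (h3 ε).aemeasurable, h4.aemeasurable,
    ProbabilityMeasure.tendsto_iff_forall_lintegral_tendsto.mpr fun g => ?_⟩
  have hg : Continuous fun x => (g x : ℝ≥0∞) := ENNReal.continuous_coe.comp g.continuous
  have h5 := h1 _ hg (nndist g 0) ENNReal.coe_ne_top fun x =>
    ENNReal.coe_le_coe.mpr (BoundedContinuousFunction.NNReal.upper_bound g x)
  rw [← lintegral_map hg.measurable h4] at h5
  exact h5.congr fun ε => (lintegral_map hg.measurable (h3 ε)).symm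

end Pool.Agent.Lib.MP_e22585_pr
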